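import Mathlib

/-!
Project MS (helper901): the random Mordell-Weil sieve.  Definitions and the API of places.
-/

set_option autoImplicit false

namespace Pool.Agent.H901R3.MS

open WeierstrassCurve

/-! ### Curves `y ^ 2 = x ^ 3 + a x + b` and their points -/

/-- the curve `y ^ 2 = x ^ 3 + a x + b` over the field `F` -/
def CV {F : Type} [Field F] (a b : F) : WeierstrassCurve F := ⟨0, 0, 0, a, b⟩

/-- the points (affine nonsingular points and the point at infinity) -/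
abbrev Pt {F : Type} [Field F] (a b : F) : Type := (CV a b).toAffine.Point

/-- `y ^ 2 = x ^ 3 + a x + b` -/
def Eqn {F : Type} [Field F] (a b x y : F) : Prop := y ^ 2 = x ^ 3 + a * x + b

/-- the discriminant condition -/
def Disc {F : Type} [Field F] (a b : F) : Prop := (2 : F) * (4 * a ^ 3 + 27 * b ^ 2) ≠ 0

section basic
variable {F : Type} [Field F] {a b x y x₁ y₁ x₂ y₂ : F}

theorem equation_iff : (CV a b).toAffine.Equation x y ↔ Eqn a b x y := by
  rw [WeierstrassCurve.Affine.equation_iff]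
  simp only [CV, Eqn]
  constructor
  · intro h; linear_combination h
  · intro h; linear_combination h

/-- every solution of the equation is a nonsingular point -/
theorem nonsingular_iff (h : Disc a b) :
    (CV a b).toAffine.Nonsingular x y ↔ Eqn a b x y := by
  rw [WeierstrassCurve.Affine.nonsingular_iff, equation_iff]
  constructor
  · exact fun h => h.1
  · intro he
    refine ⟨he, ?_⟩
    by_contra hc
    push Not at hc
    obtain ⟨h1, h2⟩ := hc
    simp only [CV] at h1 h2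
    unfold Eqn at he
    apply h
    have h2y : 2 * y = 0 := by linear_combination h2
    have h1' : 3 * x ^ 2 + a = 0 := by linear_combination -h1
    by_cases h20 : (2 : F) = 0
    · rw [h20]; ring
    · have hy : y = 0 := by
        rcases mul_eq_zero.1 h2y with h | h
        · exact absurd h h20
        · exact h
      rw [hy] at he
      have ha : a = -3 * x ^ 2 := by linear_combination h1'
      have hb : b = 2 * x ^ 3 := by
        rw [ha] at he
        linear_combination -he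
      rw [ha, hb]; ring

theorem eqn_of (h : (CV a b).toAffine.Nonsingular x y) : Eqn a b x y :=
  equation_iff.1 h.1

/-- the negative of a point -/
theorem neg_some' (h : (CV a b).toAffine.Nonsingular x y)
    (h' : (CV a b).toAffine.Nonsingular x (-y)) :
    -(Affine.Point.some x y h : Pt a b) = Affine.Point.some x (-y) h' := by
  rw [Affine.Point.neg_some]
  congr 1
  simp [Affine.negY, CV]

/-- sum of two points with `x₁ ≠ x₂` -/
theorem add_ne [DecidableEq F] (h₁ : (CV a b).toAffine.Nonsingular x₁ y₁)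
    (h₂ : (CV a b).toAffine.Nonsingular x₂ y₂) (hx : x₁ ≠ x₂) (l x₃ y₃ : F)
    (hl : l = (y₁ - y₂) / (x₁ - x₂)) (hx₃ : x₃ = l ^ 2 - x₁ - x₂) (hy₃ : y₃ = -(l * (x₃ - x₁) + y₁)) :
    ∃ h₃ : (CV a b).toAffine.Nonsingular x₃ y₃,
      (Affine.Point.some x₁ y₁ h₁ + Affine.Point.some x₂ y₂ h₂ : Pt a b) =
        Affine.Point.some x₃ y₃ h₃ := by
  have hs : (CV a b).toAffine.slope x₁ x₂ y₁ y₂ = l := by
    rw [Affine.slope_of_X_ne hx, hl]
  have hX : (CV a b).toAffine.addX x₁ x₂ ((CV a b).toAffine.slope x₁ x₂ y₁ y₂) = x₃ := by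
    rw [hs, hx₃]; simp [Affine.addX, CV]
  have hY : (CV a b).toAffine.addY x₁ x₂ y₁ ((CV a b).toAffine.slope x₁ x₂ y₁ y₂) = y₃ := by
    rw [Affine.addY, Affine.negAddY, hX, hs, hy₃]
    simp [Affine.negY, CV]
  have hns := Affine.nonsingular_add h₁ h₂ (fun hxy => hx hxy.1)
  rw [hX, hY] at hns
  refine ⟨hns, ?_⟩
  rw [Affine.Point.add_of_X_ne hx]
  congr 1

/-- sum of two points with `x₁ = x₂`, `y₁ ≠ - y₂` (so `y₁ = y₂`): doubling -/
theorem add_dbl [DecidableEq F] (h₁ : (CV a b).toAffine.Nonsingular x₁ y₁)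
    (h₂ : (CV a b).toAffine.Nonsingular x₂ y₂) (hx : x₁ = x₂) (hy : y₁ ≠ -y₂) (l x₃ y₃ : F)
    (hl : l = (3 * x₁ ^ 2 + a) / (2 * y₁)) (hx₃ : x₃ = l ^ 2 - x₁ - x₂)
    (hy₃ : y₃ = -(l * (x₃ - x₁) + y₁)) :
    ∃ h₃ : (CV a b).toAffine.Nonsingular x₃ y₃,
      (Affine.Point.some x₁ y₁ h₁ + Affine.Point.some x₂ y₂ h₂ : Pt a b) =
        Affine.Point.some x₃ y₃ h₃ := by
  have hy' : y₁ ≠ (CV a b).toAffine.negY x₂ y₂ := by
    simpa [Affine.negY, CV] using hy
  have hs : (CV a b).toAffine.slope x₁ x₂ y₁ y₂ = l := by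
    rw [Affine.slope_of_Y_ne hx hy', hl]
    simp only [Affine.negY, CV]
    congr 1
    · ring
    · ring
  have hX : (CV a b).toAffine.addX x₁ x₂ ((CV a b).toAffine.slope x₁ x₂ y₁ y₂) = x₃ := by
    rw [hs, hx₃]; simp [Affine.addX, CV]
  have hY : (CV a b).toAffine.addY x₁ x₂ y₁ ((CV a b).toAffine.slope x₁ x₂ y₁ y₂) = y₃ := by
    rw [Affine.addY, Affine.negAddY, hX, hs, hy₃]
    simp [Affine.negY, CV]
  have hns := Affine.nonsingular_add h₁ h₂ (fun hxy => hy' hxy.2)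
  rw [hX, hY] at hns
  refine ⟨hns, ?_⟩
  rw [Affine.Point.add_of_Y_ne hy']
  congr 1

/-- sum of two opposite points -/
theorem add_opp [DecidableEq F] (h₁ : (CV a b).toAffine.Nonsingular x₁ y₁)
    (h₂ : (CV a b).toAffine.Nonsingular x₂ y₂) (hx : x₁ = x₂) (hy : y₁ = -y₂) :
    (Affine.Point.some x₁ y₁ h₁ + Affine.Point.some x₂ y₂ h₂ : Pt a b) = 0 := by
  apply Affine.Point.add_of_Y_eq hx
  simpa [Affine.negY, CV] using hy

end basic

/-! ### Places -/

/-- a place of `K` with values in `k`: a valuation ring `A` of `K` and a homomorphism `A → k` whose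
kernel is the maximal ideal -/
structure Place (K k : Type) [Field K] [Field k] where
  A : Subring K
  ρ : A →+* k
  inv_of_notMem : ∀ x : K, x ∉ A → ∃ h : x⁻¹ ∈ A, ρ ⟨x⁻¹, h⟩ = 0
  inv_of_ne : ∀ x : A, ρ x ≠ 0 → (x : K)⁻¹ ∈ A

namespace Place

variable {K k : Type} [Field K] [Field k] (v : Place K k)

open Classical in
/-- the residue, extended by `0` -/
noncomputable def r (x : K) : k := if h : x ∈ v.A then v.ρ ⟨x, h⟩ else 0

theorem r_of {x : K} (h : x ∈ v.A) : v.r x = v.ρ ⟨x, h⟩ := by simp [r, h]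

theorem int_mem (n : ℤ) : (n : K) ∈ v.A := intCast_mem v.A n

theorem nat_mem (n : ℕ) : (n : K) ∈ v.A := natCast_mem v.A n

theorem r_int (n : ℤ) : v.r (n : K) = n := by
  rw [v.r_of (v.int_mem n)]
  have : (⟨(n : K), v.int_mem n⟩ : v.A) = (n : v.A) := by ext; simp
  rw [this, map_intCast]

theorem r_nat (n : ℕ) : v.r (n : K) = n := by
  have := v.r_int n
  simpa using this

@[simp] theorem r_zero : v.r 0 = 0 := by simpa using v.r_int 0
@[simp] theorem r_one : v.r 1 = 1 := by simpa using v.r_int 1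
@[simp] theorem r_two : v.r 2 = 2 := by simpa using v.r_int 2
@[simp] theorem r_three : v.r 3 = 3 := by simpa using v.r_int 3

theorem r_add {x y : K} (hx : x ∈ v.A) (hy : y ∈ v.A) : v.r (x + y) = v.r x + v.r y := by
  rw [v.r_of hx, v.r_of hy, v.r_of (v.A.add_mem hx hy), ← map_add]
  rfl

theorem r_sub {x y : K} (hx : x ∈ v.A) (hy : y ∈ v.A) : v.r (x - y) = v.r x - v.r y := by
  rw [v.r_of hx, v.r_of hy, v.r_of (v.A.sub_mem hx hy), ← map_sub]
  rfl

theorem r_neg {x : K} (hx : x ∈ v.A) : v.r (-x) = -v.r x := by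
  rw [v.r_of hx, v.r_of (v.A.neg_mem hx), ← map_neg]
  rfl

theorem r_mul {x y : K} (hx : x ∈ v.A) (hy : y ∈ v.A) : v.r (x * y) = v.r x * v.r y := by
  rw [v.r_of hx, v.r_of hy, v.r_of (v.A.mul_mem hx hy), ← map_mul]
  rfl

theorem r_pow {x : K} (hx : x ∈ v.A) (n : ℕ) : v.r (x ^ n) = v.r x ^ n := by
  rw [v.r_of hx, v.r_of (v.A.pow_mem hx n), ← map_pow]
  rfl

theorem inv_mem {x : K} (h : v.r x ≠ 0) : x⁻¹ ∈ v.A := by
  by_cases hx : x ∈ v.A
  · rw [v.r_of hx] at h
    exact v.inv_of_ne ⟨x, hx⟩ h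
  · exact (v.inv_of_notMem x hx).1

theorem mem_of_r_ne {x : K} (h : v.r x ≠ 0) : x ∈ v.A := by
  by_contra hx
  apply h
  simp [r, hx]

theorem ne_zero_of_r_ne {x : K} (h : v.r x ≠ 0) : x ≠ 0 := by
  rintro rfl
  exact h v.r_zero

theorem r_inv {x : K} (h : v.r x ≠ 0) : v.r x⁻¹ = (v.r x)⁻¹ := by
  have h1 := v.r_mul (v.mem_of_r_ne h) (v.inv_mem h)
  rw [mul_inv_cancel₀ (v.ne_zero_of_r_ne h), v.r_one] at h1
  exact eq_inv_of_mul_eq_one_right h1.symm

theorem div_mem {x y : K} (hx : x ∈ v.A) (hy : v.r y ≠ 0) : x / y ∈ v.A := by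
  rw [div_eq_mul_inv]
  exact v.A.mul_mem hx (v.inv_mem hy)

theorem r_div {x y : K} (hx : x ∈ v.A) (hy : v.r y ≠ 0) : v.r (x / y) = v.r x / v.r y := by
  rw [div_eq_mul_inv, div_eq_mul_inv, v.r_mul hx (v.inv_mem hy), v.r_inv hy]

theorem inv_mem_of_notMem {x : K} (h : x ∉ v.A) : x⁻¹ ∈ v.A := (v.inv_of_notMem x h).1

theorem r_inv_of_notMem {x : K} (h : x ∉ v.A) : v.r x⁻¹ = 0 := by
  obtain ⟨h1, h2⟩ := v.inv_of_notMem x h
  rw [v.r_of h1, h2]

/-- the valuation ring is integrally closed (form used: `x ^ n ∈ A → x ∈ A`) -/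
theorem mem_of_pow_mem {x : K} {n : ℕ} (hn : 1 ≤ n) (h : x ^ n ∈ v.A) : x ∈ v.A := by
  by_contra hx
  have h1 := v.inv_mem_of_notMem hx
  have h2 := v.r_inv_of_notMem hx
  have hx0 : x ≠ 0 := by rintro rfl; exact hx v.A.zero_mem
  have h3 : v.r (x ^ n * x⁻¹ ^ n) = v.r (x ^ n) * v.r x⁻¹ ^ n := by
    rw [v.r_mul h (v.A.pow_mem h1 n), v.r_pow h1]
  rw [← mul_pow, mul_inv_cancel₀ hx0, one_pow, v.r_one, h2, zero_pow (by omega), mul_zero] at h3
  exact one_ne_zero h3

end Place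

/-! ### Homogeneous coordinates and multihomogeneous forms -/

/-- homogeneous coordinates of a point: `(0 : 1 : 0)` for the point at infinity, `(x : y : 1)`
otherwise -/
def rep {F : Type} [Field F] {a b : F} : Pt a b → Fin 3 → F
  | Affine.Point.zero => ![0, 1, 0]
  | Affine.Point.some x y _ => ![x, y, 1]

/-- exponents of the monomials in the `3 r` variables `V i j` (`i : Fin r`, `j : Fin 3`) -/
abbrev Expo (r : ℕ) : Type := Fin r → Fin 3 → ℕ

/-- the value of a monomial -/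
def mono {F : Type} [Field F] {r : ℕ} (e : Expo r) (V : Fin r → Fin 3 → F) : F :=
  ∏ i, ∏ j, V i j ^ e i j

/-- the value of a polynomial with integer coefficients (a finitely supported function of the
exponents) -/
noncomputable def ev {F : Type} [Field F] {r : ℕ} (f : Expo r →₀ ℤ) (V : Fin r → Fin 3 → F) : F :=
  f.sum (fun e n => (n : F) * mono e V)

/-- `f` is multihomogeneous of multidegree `d` -/
def Homog {r : ℕ} (f : Expo r →₀ ℤ) (d : Fin r → ℕ) : Prop :=
  ∀ e ∈ f.support, ∀ i, ∑ j, e i j = d i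

/-- `F_c = Σ c_s f_s` -/
noncomputable def Fc {F : Type} [Field F] {r : ℕ} {S : Type} [Fintype S] (f : S → (Expo r →₀ ℤ))
    (c : S → ℤ) (V : Fin r → Fin 3 → F) : F :=
  ∑ s, (c s : F) * ev (f s) V

/-- the homogeneous Weierstrass equation `Y ^ 2 Z = X ^ 3 + a X Z ^ 2 + b Z ^ 3`, for a nonzero
vector `(X, Y, Z)` of rational numbers -/
def OnE (a b : ℤ) (V : Fin 3 → ℚ) : Prop :=
  V ≠ 0 ∧ V 1 ^ 2 * V 2 = V 0 ^ 3 + a * V 0 * V 2 ^ 2 + b * V 2 ^ 3

/-- the two types of curves: `y ^ 2 = x ^ 3 + a x` and `y ^ 2 = x ^ 3 + b` -/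
def CMt (a b : ℤ) : Prop := (b = 0 ∧ a ≠ 0) ∨ (a = 0 ∧ b ≠ 0)

/-- the variety `w ^ m = F_c (P)`, `P ∈ E_1 × ... × E_r`, has a rational point -/
def HasPt {r : ℕ} (a b : Fin r → ℤ) (m : ℕ) {S : Type} [Fintype S] (f : S → (Expo r →₀ ℤ))
    (c : S → ℤ) : Prop :=
  ∃ (V : Fin r → Fin 3 → ℚ) (w : ℚ), (∀ i, OnE (a i) (b i) (V i)) ∧ w ^ m = Fc f c V

/-- the box `[-H, H] ^ S` -/
noncomputable def Box (S : Type) [Fintype S] [DecidableEq S] (H : ℕ) : Finset (S → ℤ) :=
  Fintype.piFinset (fun _ => Finset.Icc (-(H : ℤ)) H)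

/-- the forms `f_s` have no common zero on `E_1 × ... × E_r` modulo `p` -/
def NoZero {r : ℕ} (a b : Fin r → ℤ) {S : Type} (f : S → (Expo r →₀ ℤ)) (p : ℕ) [Fact p.Prime] :
    Prop :=
  ∀ P : (i : Fin r) → Pt (a i : ZMod p) (b i : ZMod p), ∃ s, ev (f s) (fun i => rep (P i)) ≠ 0

end Pool.Agent.H901R3.MS
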