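import Mathlib
import Pool.Agent.H901R3.MS.Defs

/-!
Project MS (helper901): statements of the tasks.
-/

set_option autoImplicit false

namespace Pool.Agent.H901R3.MS

open WeierstrassCurve

/-! ### Reduction of points at a place -/

/-- R1: integrality of the coordinates -/
def R1 : Prop := ∀ (K k : Type) [Field K] [Field k] (v : Place K k) (a b : ℤ) (x y : K),
  Eqn (a : K) b x y →
    (x ∈ v.A → y ∈ v.A) ∧
    (x ∉ v.A → x ≠ 0 ∧ y ≠ 0 ∧ x⁻¹ ∈ v.A ∧ v.r x⁻¹ = 0 ∧ x / y ∈ v.A ∧ v.r (x / y) = 0 ∧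
      y⁻¹ ∈ v.A ∧ v.r y⁻¹ = 0)

/-- R2: sum of two integral points with different reductions of the `x`-coordinates -/
def R2 : Prop := ∀ (K k : Type) [Field K] [Field k] [DecidableEq K] [DecidableEq k]
  (v : Place K k) (a b : ℤ) (x₁ y₁ x₂ y₂ : K)
  (h₁ : (CV (a : K) b).toAffine.Nonsingular x₁ y₁) (h₂ : (CV (a : K) b).toAffine.Nonsingular x₂ y₂)
  (g₁ : (CV (a : k) b).toAffine.Nonsingular (v.r x₁) (v.r y₁))
  (g₂ : (CV (a : k) b).toAffine.Nonsingular (v.r x₂) (v.r y₂)),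
  x₁ ∈ v.A → y₁ ∈ v.A → x₂ ∈ v.A → y₂ ∈ v.A → v.r x₁ ≠ v.r x₂ →
    ∃ (x₃ y₃ : K) (h₃ : (CV (a : K) b).toAffine.Nonsingular x₃ y₃)
      (g₃ : (CV (a : k) b).toAffine.Nonsingular (v.r x₃) (v.r y₃)),
      x₃ ∈ v.A ∧ y₃ ∈ v.A ∧
      (Affine.Point.some x₁ y₁ h₁ + Affine.Point.some x₂ y₂ h₂ : Pt (a : K) b) =
        Affine.Point.some x₃ y₃ h₃ ∧
      (Affine.Point.some _ _ g₁ + Affine.Point.some _ _ g₂ : Pt (a : k) b) =
        Affine.Point.some _ _ g₃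

/-- R3: sum of two integral points with equal reductions of the `x`-coordinates, not opposite -/
def R3 : Prop := ∀ (K k : Type) [Field K] [Field k] [DecidableEq K] [DecidableEq k]
  (v : Place K k) (a b : ℤ) (x₁ y₁ x₂ y₂ : K)
  (h₁ : (CV (a : K) b).toAffine.Nonsingular x₁ y₁) (h₂ : (CV (a : K) b).toAffine.Nonsingular x₂ y₂)
  (g₁ : (CV (a : k) b).toAffine.Nonsingular (v.r x₁) (v.r y₁))
  (g₂ : (CV (a : k) b).toAffine.Nonsingular (v.r x₂) (v.r y₂)),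
  x₁ ∈ v.A → y₁ ∈ v.A → x₂ ∈ v.A → y₂ ∈ v.A → v.r x₁ = v.r x₂ → v.r y₁ ≠ -v.r y₂ →
    ∃ (x₃ y₃ : K) (h₃ : (CV (a : K) b).toAffine.Nonsingular x₃ y₃)
      (g₃ : (CV (a : k) b).toAffine.Nonsingular (v.r x₃) (v.r y₃)),
      x₃ ∈ v.A ∧ y₃ ∈ v.A ∧
      (Affine.Point.some x₁ y₁ h₁ + Affine.Point.some x₂ y₂ h₂ : Pt (a : K) b) =
        Affine.Point.some x₃ y₃ h₃ ∧
      (Affine.Point.some _ _ g₁ + Affine.Point.some _ _ g₂ : Pt (a : k) b) =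
        Affine.Point.some _ _ g₃

/-- R4: sum of two integral points with opposite reductions -/
def R4 : Prop := ∀ (K k : Type) [Field K] [Field k] [DecidableEq K]
  (v : Place K k) (a b : ℤ), Disc (a : k) (b : k) → ∀ (x₁ y₁ x₂ y₂ : K)
  (h₁ : (CV (a : K) b).toAffine.Nonsingular x₁ y₁) (h₂ : (CV (a : K) b).toAffine.Nonsingular x₂ y₂),
  x₁ ∈ v.A → y₁ ∈ v.A → x₂ ∈ v.A → y₂ ∈ v.A → v.r x₁ = v.r x₂ → v.r y₁ = -v.r y₂ →
    (Affine.Point.some x₁ y₁ h₁ + Affine.Point.some x₂ y₂ h₂ : Pt (a : K) b) = 0 ∨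
    ∃ (x₃ y₃ : K) (h₃ : (CV (a : K) b).toAffine.Nonsingular x₃ y₃),
      x₃ ∉ v.A ∧ (Affine.Point.some x₁ y₁ h₁ + Affine.Point.some x₂ y₂ h₂ : Pt (a : K) b) =
        Affine.Point.some x₃ y₃ h₃

/-- R5: the sum of a non-integral and an integral point is integral -/
def R5 : Prop := ∀ (K k : Type) [Field K] [Field k] [DecidableEq K]
  (v : Place K k) (a b : ℤ) (x₁ y₁ x₂ y₂ : K)
  (h₁ : (CV (a : K) b).toAffine.Nonsingular x₁ y₁) (h₂ : (CV (a : K) b).toAffine.Nonsingular x₂ y₂),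
  x₁ ∉ v.A → x₂ ∈ v.A → y₂ ∈ v.A →
    ∃ (x₃ y₃ : K) (h₃ : (CV (a : K) b).toAffine.Nonsingular x₃ y₃),
      x₃ ∈ v.A ∧ (Affine.Point.some x₁ y₁ h₁ + Affine.Point.some x₂ y₂ h₂ : Pt (a : K) b) =
        Affine.Point.some x₃ y₃ h₃

/-- `red` is the reduction map at the place `v` -/
def IsRed {K k : Type} [Field K] [Field k] (v : Place K k) (a b : ℤ)
    (red : Pt (a : K) (b : K) → Pt (a : k) (b : k)) : Prop :=
  red Affine.Point.zero = Affine.Point.zero ∧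
  (∀ (x y : K) (h : (CV (a : K) b).toAffine.Nonsingular x y), x ∉ v.A →
    red (Affine.Point.some x y h) = Affine.Point.zero) ∧
  (∀ (x y : K) (h : (CV (a : K) b).toAffine.Nonsingular x y), x ∈ v.A →
    y ∈ v.A ∧ ∃ g : (CV (a : k) b).toAffine.Nonsingular (v.r x) (v.r y),
      red (Affine.Point.some x y h) = Affine.Point.some _ _ g)

/-- R6: the reduction map exists and is a homomorphism -/
def R6 : Prop := R1 → R2 → R3 → R4 → R5 →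
  ∀ (K k : Type) [Field K] [Field k] [DecidableEq K] [DecidableEq k] (v : Place K k) (a b : ℤ),
    Disc (a : k) (b : k) → ∃ red : Pt (a : K) (b : K) →+ Pt (a : k) (b : k), IsRed v a b red

/-- R7: homogeneous coordinates of the reduction -/
def R7 : Prop := R1 → ∀ (K k : Type) [Field K] [Field k] (v : Place K k) (a b : ℤ)
  (red : Pt (a : K) (b : K) → Pt (a : k) (b : k)), IsRed v a b red → ∀ P : Pt (a : K) (b : K),
    ∃ u : K, u ≠ 0 ∧ ∀ j, u * rep P j ∈ v.A ∧ v.r (u * rep P j) = rep (red P) j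

/-- PL: the place of `ℚ` at `p` -/
def PL : Prop := ∀ (p : ℕ) [Fact p.Prime], Nonempty (Place ℚ (ZMod p))

/-! ### Supersingular curves over `F_p` -/

/-- C1: `y ^ 2 = x ^ 3 + a x`, `p ≡ 3 (mod 4)`: the group has `p + 1` elements -/
def C1 : Prop := ∀ (p : ℕ) [Fact p.Prime], p % 4 = 3 → ∀ a b : ℤ, b = 0 → (a : ZMod p) ≠ 0 →
  ∀ P : Pt (a : ZMod p) (b : ZMod p), (p + 1) • P = 0

/-- C2: `y ^ 2 = x ^ 3 + b`, `p ≡ 2 (mod 3)`: the group has `p + 1` elements -/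
def C2 : Prop := ∀ (p : ℕ) [Fact p.Prime], p % 3 = 2 → p ≠ 2 → ∀ a b : ℤ, a = 0 →
  (b : ZMod p) ≠ 0 → ∀ P : Pt (a : ZMod p) (b : ZMod p), (p + 1) • P = 0

/-! ### Forms -/

/-- HO: scaling -/
def HO : Prop := ∀ (F : Type) [Field F] (r : ℕ) (S : Type) [Fintype S] (f : S → (Expo r →₀ ℤ))
  (d : Fin r → ℕ), (∀ s, Homog (f s) d) → ∀ (c : S → ℤ) (V : Fin r → Fin 3 → F) (u : Fin r → F),
    Fc f c (fun i j => u i * V i j) = (∏ i, u i ^ d i) * Fc f c V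

/-- EVR: reduction of the values of the forms -/
def EVR : Prop := ∀ (K k : Type) [Field K] [Field k] (v : Place K k) (r : ℕ) (S : Type) [Fintype S]
  (f : S → (Expo r →₀ ℤ)) (c : S → ℤ) (V : Fin r → Fin 3 → K), (∀ i j, V i j ∈ v.A) →
    Fc f c V ∈ v.A ∧ v.r (Fc f c V) = Fc f c (fun i j => v.r (V i j))

/-- LC: the local condition -/
def LC : Prop := HO → EVR → ∀ (K k : Type) [Field K] [Field k] (v : Place K k) (r : ℕ)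
  (a b : Fin r → ℤ) (red : ∀ i, Pt (a i : K) (b i : K) → Pt (a i : k) (b i : k)),
  (∀ i, ∀ P : Pt (a i : K) (b i : K), ∃ u : K, u ≠ 0 ∧
    ∀ j, u * rep P j ∈ v.A ∧ v.r (u * rep P j) = rep (red i P) j) →
  ∀ m : ℕ, 1 ≤ m → ∀ (S : Type) [Fintype S] (f : S → (Expo r →₀ ℤ)) (d : Fin r → ℕ),
    (∀ i, m ∣ d i) → (∀ s, Homog (f s) d) → ∀ (c : S → ℤ) (P : ∀ i, Pt (a i : K) (b i : K)) (w : K),
      w ^ m = Fc f c (fun i => rep (P i)) →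
        ∃ t : k, t ^ m = Fc f c (fun i => rep (red i (P i)))

/-- PTS: a solution of the homogeneous equation is a multiple of the coordinate vector of a point -/
def PTS : Prop := ∀ (a b : ℤ) (V : Fin 3 → ℚ), Disc (a : ℚ) (b : ℚ) → OnE a b V →
  ∃ (P : Pt (a : ℚ) (b : ℚ)) (u : ℚ), u ≠ 0 ∧ ∀ j, V j = u * rep P j

/-- HP: a rational point of the cover gives rational points `P_i` -/
def HP : Prop := HO → PTS → ∀ (r : ℕ) (a b : Fin r → ℤ), (∀ i, Disc (a i : ℚ) (b i : ℚ)) →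
  ∀ m : ℕ, 1 ≤ m → ∀ (S : Type) [Fintype S] (f : S → (Expo r →₀ ℤ)) (d : Fin r → ℕ),
    (∀ i, m ∣ d i) → (∀ s, Homog (f s) d) → ∀ c : S → ℤ, HasPt a b m f c →
      ∃ (P : ∀ i, Pt (a i : ℚ) (b i : ℚ)) (w : ℚ), w ^ m = Fc f c (fun i => rep (P i))

/-! ### Mordell-Weil -/

/-- M1: the Mordell-Weil theorem for `y ^ 2 = x ^ 3 + a x + b` over `ℚ` -/
def M1 : Prop := ∀ a b : ℤ, Disc (a : ℚ) (b : ℚ) → AddGroup.FG (Pt (a : ℚ) (b : ℚ))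

/-- M2: representatives modulo `L` -/
def M2 : Prop := ∀ (G : Type) [AddCommGroup G], AddGroup.FG G → ∃ R : ℕ, ∀ L : ℕ, 1 ≤ L →
  ∃ A : Finset G, A.card ≤ L ^ R ∧ ∀ g : G, ∃ κ ∈ A, ∃ δ : G, g = κ + L • δ

/-! ### Counting -/

/-- MP: the number of `m`-th powers modulo `p` -/
def MP : Prop := ∀ (p : ℕ) [Fact p.Prime], 3 ≤ p → ∀ l m : ℕ, l.Prime → l ∣ m →
  (l = 2 ∨ p % l = 1) →
    (({x : ZMod p | ∃ t : ZMod p, t ^ m = x}.ncard : ℕ) : ℝ) ≤ 2 / 3 * p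

/-- LF: the number of coefficient vectors with `F_c (R)` an `m`-th power modulo `p` -/
def LF : Prop := MP → ∀ (p : ℕ) [Fact p.Prime], 3 ≤ p → ∀ l m : ℕ, l.Prime → l ∣ m →
  (l = 2 ∨ p % l = 1) → ∀ (S : Type) [Fintype S] (φ : S → ZMod p), (∃ s, φ s ≠ 0) →
    (({c : S → ZMod p | ∃ t : ZMod p, t ^ m = ∑ s, c s * φ s}.ncard : ℕ) : ℝ) ≤
      2 / 3 * (p : ℝ) ^ Fintype.card S

/-- BOX: the number of integral vectors in a box satisfying conditions modulo several primes -/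
def BOX : Prop := ∀ (S : Type) [Fintype S] [DecidableEq S] (T : Finset ℕ), (∀ p ∈ T, p.Prime) →
  ∀ (G : (p : ℕ) → Set (S → ZMod p)) (θ : ℝ), 0 ≤ θ →
    (∀ p ∈ T, (((G p).ncard : ℕ) : ℝ) ≤ θ * (p : ℝ) ^ Fintype.card S) →
      ∀ H : ℕ, ∏ p ∈ T, p ≤ 2 * H + 1 →
        (({c : S → ℤ | c ∈ Box S H ∧ ∀ p ∈ T, (fun s => (c s : ZMod p)) ∈ G p}.ncard : ℕ) : ℝ) ≤
          (2 * (2 * (H : ℝ) + 1)) ^ Fintype.card S * θ ^ T.card

/-- the congruence conditions on `p` -/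
def OKp {r : ℕ} (a b : Fin r → ℤ) (l p : ℕ) : Prop :=
  (∀ i, b i = 0 → p % 4 = 3) ∧ (∀ i, a i = 0 → p % 3 = 2) ∧ (l = 2 ∨ p % l = 1)

/-- RES: the choice of the residue class -/
def RES : Prop := ∀ (r : ℕ) (a b : Fin r → ℤ), (∀ i, CMt (a i) (b i)) → ∀ l : ℕ, l.Prime →
  (l = 3 → ∀ i, a i ≠ 0) → ∃ Q u : ℕ, 1 ≤ Q ∧ Nat.Coprime u Q ∧
    ∀ p : ℕ, p % Q = u % Q → OKp a b l p

/-- the sieve inequality -/
def Sieve : Prop := ∀ (r : ℕ) (a b : Fin r → ℤ), (∀ i, CMt (a i) (b i)) →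
  ∀ l m : ℕ, l.Prime → l ∣ m → 1 ≤ m → ∀ (S : Type) [Fintype S] [DecidableEq S]
    (f : S → (Expo r →₀ ℤ)) (d : Fin r → ℕ), (∀ i, m ∣ d i) → (∀ s, Homog (f s) d) →
    ∃ p₀ R : ℕ, ∀ T : Finset ℕ,
      (∀ (p : ℕ) (hp : p.Prime), p ∈ T → p₀ ≤ p ∧ OKp a b l p ∧ @NoZero r a b S f p ⟨hp⟩) →
      (∀ p ∈ T, p.Prime) → ∀ L : ℕ, 1 ≤ L → (∀ p ∈ T, p + 1 ∣ L) → ∀ H : ℕ,
        ∏ p ∈ T, p ≤ 2 * H + 1 →
        (({c : S → ℤ | c ∈ Box S H ∧ HasPt a b m f c}.ncard : ℕ) : ℝ) ≤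
          (2 * (2 * (H : ℝ) + 1)) ^ Fintype.card S * ((L : ℝ) ^ R * (2 / 3) ^ T.card)

/-- Z0: assembly of the sieve inequality -/
def Z0 : Prop :=
  (∀ (K k : Type) [Field K] [Field k] [DecidableEq K] [DecidableEq k] (v : Place K k) (a b : ℤ),
    Disc (a : k) (b : k) → ∃ red : Pt (a : K) (b : K) →+ Pt (a : k) (b : k), IsRed v a b red) →
  (∀ (K k : Type) [Field K] [Field k] (v : Place K k) (a b : ℤ)
    (red : Pt (a : K) (b : K) → Pt (a : k) (b : k)), IsRed v a b red → ∀ P : Pt (a : K) (b : K),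
      ∃ u : K, u ≠ 0 ∧ ∀ j, u * rep P j ∈ v.A ∧ v.r (u * rep P j) = rep (red P) j) →
  PL → C1 → C2 → HO → EVR → LC → PTS → HP → M1 → M2 → MP → LF → BOX → Sieve

/-! ### Smooth shifted primes and asymptotics -/

/-- LY: the integer `L` -/
def LY : Prop := ∀ y z : ℕ, ∃ L : ℕ, 1 ≤ L ∧ L ≤ (y + 1) ^ z ∧
  ∀ n : ℕ, 1 ≤ n → n ≤ y + 1 → (∀ q : ℕ, q.Prime → q ∣ n → q ≤ z) → n ∣ L

/-- SPL (lower bound for the double sum, from Bombieri-Vinogradov and Mertens) -/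
def SPL : Prop := ∀ Q u : ℕ, 1 ≤ Q → Nat.Coprime u Q → ∃ C : ℝ, ∀ y : ℕ, 3 ≤ y →
  (1 / (Nat.totient Q : ℝ)) * (Nat.primeCounting y : ℝ) * (2 / 5 * Real.log y - C) -
      C * (y / (Real.log y) ^ 2) ≤
    ∑ p ∈ (Finset.Icc 1 y).filter (fun p : ℕ => p.Prime ∧ p % Q = u % Q),
      ∑ q ∈ (Finset.Icc 1 ⌊(y : ℝ) ^ (1 / 2 : ℝ)⌋₊).filter (fun q : ℕ => q.Prime ∧ q ∣ p + 1),
        Real.log q

/-- SPQ: primes in a fixed progression (from Bombieri-Vinogradov, or Siegel-Walfisz) -/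
def SPQ : Prop := ∀ Q u : ℕ, 1 ≤ Q → Nat.Coprime u Q → ∃ C : ℝ, ∀ y : ℕ, 3 ≤ y →
  (((Finset.Icc 1 y).filter (fun p : ℕ => p.Prime ∧ p % Q = u % Q)).card : ℝ) ≤
    (1 / (Nat.totient Q : ℝ)) * (Nat.primeCounting y : ℝ) + C * (y / (Real.log y) ^ 3)

/-- SPU: the sum over the prime divisors of `n`, with and without a large prime divisor -/
def SPU : Prop := ∀ (n z : ℕ), 1 ≤ n →
  (∑ q ∈ (Finset.Icc 1 z).filter (fun q : ℕ => q.Prime ∧ q ∣ n), Real.log q ≤ Real.log n) ∧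
  (∀ q' : ℕ, q'.Prime → q' ∣ n → z < q' →
    ∑ q ∈ (Finset.Icc 1 z).filter (fun q : ℕ => q.Prime ∧ q ∣ n), Real.log q ≤
      Real.log n - Real.log q')

open Classical in
/-- the primes `p ≤ y`, `p ≡ u (mod Q)`, with `p + 1` free of primes larger than `y ^ (3/4)` -/
noncomputable def GoodP (Q u y : ℕ) : Finset ℕ :=
  (Finset.Icc 1 y).filter (fun p : ℕ => p.Prime ∧ p % Q = u % Q ∧
    ∀ q : ℕ, q.Prime → q ∣ p + 1 → q ≤ ⌊(y : ℝ) ^ (3 / 4 : ℝ)⌋₊)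

/-- SP: a positive proportion of the primes `p ≡ u (mod Q)`, `p ≤ y`, have `p + 1` free of primes
larger than `y ^ (3/4)` -/
def SP : Prop := ∀ Q u : ℕ, 1 ≤ Q → Nat.Coprime u Q → ∃ κ : ℝ, 0 < κ ∧ ∃ Y : ℕ, ∀ y : ℕ, Y ≤ y →
  κ * (y / Real.log y) ≤ ((GoodP Q u y).card : ℝ)

/-- SPX: assembly of SP -/
def SPX : Prop := SPL → SPQ → SPU → SP

/-- ASY: the final inequality -/
def ASY : Prop := ∀ (s R : ℕ) (κ : ℝ), 0 < κ → ∃ c : ℝ, 0 < c ∧ ∃ H₀ : ℕ, 3 ≤ H₀ ∧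
  ∀ H : ℕ, H₀ ≤ H → ∀ (y t L : ℕ), y = ⌊Real.log (2 * H + 1) / Real.log 4⌋₊ →
    κ * (y / Real.log y) ≤ (t : ℝ) → (L : ℝ) ≤ ((y : ℝ) + 1) ^ ⌊(y : ℝ) ^ (3 / 4 : ℝ)⌋₊ →
      (2 * (2 * (H : ℝ) + 1)) ^ s * ((L : ℝ) ^ R * (2 / 3) ^ t) ≤
        (2 * (H : ℝ) + 1) ^ s * Real.exp (-c * (Real.log H / Real.log (Real.log H)))

/-- GEN: the general theorem -/
def Gen : Prop := ∀ (r : ℕ) (a b : Fin r → ℤ), (∀ i, CMt (a i) (b i)) →
  ∀ l m : ℕ, l.Prime → l ∣ m → 1 ≤ m → ∀ (S : Type) [Fintype S] [DecidableEq S]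
    (f : S → (Expo r →₀ ℤ)) (d : Fin r → ℕ), (∀ i, m ∣ d i) → (∀ s, Homog (f s) d) →
    ∀ Q u : ℕ, 1 ≤ Q → Nat.Coprime u Q → (∀ p : ℕ, p % Q = u % Q → OKp a b l p) →
    (∃ p₁ : ℕ, ∀ (p : ℕ) (hp : p.Prime), p₁ ≤ p → p % Q = u % Q → @NoZero r a b S f p ⟨hp⟩) →
    ∃ c : ℝ, 0 < c ∧ ∃ H₀ : ℕ, ∀ H : ℕ, H₀ ≤ H →
      (({c : S → ℤ | c ∈ Box S H ∧ HasPt a b m f c}.ncard : ℕ) : ℝ) ≤
        (2 * (H : ℝ) + 1) ^ Fintype.card S *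
          Real.exp (-c * (Real.log H / Real.log (Real.log H)))

/-- Z1: assembly of the general theorem -/
def Z1 : Prop := Sieve → SP → LY → ASY → Gen

/-- `F_c` for a set `S` of monomials -/
def Fm {F : Type} [Field F] {r : ℕ} (S : Finset (Expo r)) (c : S → ℤ) (V : Fin r → Fin 3 → F) : F :=
  ∑ e : S, (c e : F) * ∏ i, ∏ j, V i j ^ e.1 i j

/-- MAIN A: systems of monomials (in particular complete linear systems) -/
def MainA : Prop := ∀ (r : ℕ) (a b : Fin r → ℤ), (∀ i, CMt (a i) (b i)) →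
  ∀ l m : ℕ, l.Prime → l ∣ m → 1 ≤ m → (l = 3 → ∀ i, a i ≠ 0) →
    ∀ d : Fin r → ℕ, (∀ i, m ∣ d i) → ∀ S : Finset (Expo r),
      (∀ e ∈ S, ∀ i, ∑ j, e i j = d i) →
      (∀ σ : Fin r → Fin 3, (fun i j => if j = σ i then d i else 0) ∈ S) →
    ∃ c : ℝ, 0 < c ∧ ∃ H₀ : ℕ, ∀ H : ℕ, H₀ ≤ H →
      (({c : S → ℤ | (∀ e, |c e| ≤ H) ∧ ∃ (V : Fin r → Fin 3 → ℚ) (w : ℚ),
          (∀ i, OnE (a i) (b i) (V i)) ∧ w ^ m = Fm S c V}.ncard : ℕ) : ℝ) ≤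
        (2 * (H : ℝ) + 1) ^ S.card *
          Real.exp (-c * (Real.log H / Real.log (Real.log H)))

/-- ZA: MAIN A from the general theorem -/
def ZA : Prop := Gen → RES → MainA

end Pool.Agent.H901R3.MS
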