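import Mathlib
import Pool.Agent.H901R3.MS.Stm

set_option autoImplicit false

namespace Pool.Agent.H901R3.MS.W_BOX

open Finset

/-- number of elements of `[-H, H]` in a residue class -/
lemma card_class (M H : ℕ) (hM : 0 < M) (v : ℤ) :
    ((Finset.Icc (-(H : ℤ)) H).filter (fun x => (M : ℤ) ∣ x - v)).card ≤ 2 * H / M + 1 := by
  have hM' : (0 : ℤ) < M := by exact_mod_cast hM
  have h : ((Finset.Icc (-(H : ℤ)) H).filter (fun x => (M : ℤ) ∣ x - v)).card ≤
      (Finset.range (2 * H / M + 1)).card := by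
    apply Finset.card_le_card_of_injOn (fun x : ℤ => ((x + (H : ℤ)) / (M : ℤ)).toNat)
    · intro x hx
      rw [Finset.mem_coe, Finset.mem_filter, Finset.mem_Icc] at hx
      rw [Finset.mem_coe, Finset.mem_range]
      have h1 : 0 ≤ (x + H) / M := Int.ediv_nonneg (by linarith [hx.1.1]) hM'.le
      have h2 : (x + H) / M ≤ ((2 * H / M : ℕ) : ℤ) := by
        push_cast
        apply Int.ediv_le_ediv hM'
        linarith [hx.1.2]
      show ((x + (H : ℤ)) / (M : ℤ)).toNat < 2 * H / M + 1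
      omega
    · intro x hx y hy hxy
      rw [Finset.mem_coe, Finset.mem_filter, Finset.mem_Icc] at hx hy
      have h1 : 0 ≤ (x + H) / M := Int.ediv_nonneg (by linarith [hx.1.1]) hM'.le
      have h2 : 0 ≤ (y + H) / M := Int.ediv_nonneg (by linarith [hy.1.1]) hM'.le
      have h3 : (x + H) / M = (y + H) / M := by
        have h4 : ((x + H) / M).toNat = ((y + H) / M).toNat := hxy
        omega
      have h5 : (M : ℤ) ∣ x - y := by
        have := dvd_sub hx.2 hy.2
        simpa using this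
      have h6 : (x + H) % M = (y + H) % M := by
        apply Int.emod_emod_of_dvd _ (dvd_refl _) |>.symm.trans
        rw [Int.emod_emod_of_dvd _ (dvd_refl _)]
        apply Int.ModEq.symm
        rw [Int.modEq_iff_dvd]
        simpa using h5
      have h7 := Int.mul_ediv_add_emod (x + H) M
      have h8 := Int.mul_ediv_add_emod (y + H) M
      rw [h3, h6] at h7
      linarith
  rwa [Finset.card_range] at h

lemma dvd_of_forall (T : Finset ℕ) (hT : ∀ p ∈ T, p.Prime) (z : ℤ)
    (h : ∀ p ∈ T, ((p : ℕ) : ℤ) ∣ z) : ((∏ p ∈ T, p : ℕ) : ℤ) ∣ z := by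
  push_cast
  apply Finset.prod_dvd_of_coprime
  · intro p hp q hq hpq
    rw [Function.onFun, Nat.isCoprime_iff_coprime]
    exact (Nat.coprime_primes (hT p hp) (hT q hq)).2 hpq
  · exact h

theorem main (S : Type) [Fintype S] [DecidableEq S] (T : Finset ℕ) (hT : ∀ p ∈ T, p.Prime)
    (G : (p : ℕ) → Set (S → ZMod p)) (θ : ℝ) (hθ : 0 ≤ θ)
    (hG : ∀ p ∈ T, (((G p).ncard : ℕ) : ℝ) ≤ θ * (p : ℝ) ^ Fintype.card S)
    (H : ℕ) (hH : ∏ p ∈ T, p ≤ 2 * H + 1) :
    (({c : S → ℤ | c ∈ Box S H ∧ ∀ p ∈ T, (fun s => (c s : ZMod p)) ∈ G p}.ncard : ℕ) : ℝ) ≤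
          (2 * (2 * (H : ℝ) + 1)) ^ Fintype.card S * θ ^ T.card := by
  classical
  set M := ∏ p ∈ T, p with hM
  have hMpos : 0 < M := Finset.prod_pos fun p hp => (hT p hp).pos
  set n := Fintype.card S with hn
  set K := 2 * H / M + 1 with hK
  have : ∀ p : T, NeZero (p : ℕ) := fun p => ⟨(hT p p.2).ne_zero⟩
  set X : Finset (S → ℤ) := (Box S H).filter
    (fun c => ∀ p ∈ T, (fun s => (c s : ZMod p)) ∈ G p) with hX
  have hXset : {c : S → ℤ | c ∈ Box S H ∧ ∀ p ∈ T, (fun s => (c s : ZMod p)) ∈ G p} = (X : Set (S → ℤ)) := by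
    ext c
    simp [hX]
  rw [hXset, Set.ncard_coe_finset]
  set Φ : (S → ℤ) → ((p : T) → S → ZMod (p : ℕ)) := fun c p s => (c s : ZMod (p : ℕ)) with hΦ
  have h1 : X.card ≤ K ^ n * (X.image Φ).card := by
    apply Finset.card_le_mul_card_image
    intro a ha
    rw [Finset.mem_image] at ha
    obtain ⟨c0, hc0, rfl⟩ := ha
    have hsub : X.filter (fun x => Φ x = Φ c0) ⊆
        Fintype.piFinset (fun s => (Finset.Icc (-(H : ℤ)) H).filter (fun x => (M : ℤ) ∣ x - c0 s)) := by
      intro c hc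
      rw [Finset.mem_filter, hX, Finset.mem_filter] at hc
      obtain ⟨⟨hcB, -⟩, hc2⟩ := hc
      rw [Fintype.mem_piFinset]
      intro s
      rw [Box, Fintype.mem_piFinset] at hcB
      rw [Finset.mem_filter]
      refine ⟨hcB s, ?_⟩
      apply dvd_of_forall T hT
      intro p hp
      have h2 : Φ c ⟨p, hp⟩ s = Φ c0 ⟨p, hp⟩ s := by rw [hc2]
      simp only [hΦ] at h2
      exact (ZMod.intCast_eq_intCast_iff_dvd_sub (c0 s) (c s) p).1 h2.symm
    calc _ ≤ _ := Finset.card_le_card hsub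
      _ = ∏ s : S, ((Finset.Icc (-(H : ℤ)) H).filter (fun x => (M : ℤ) ∣ x - c0 s)).card :=
          Fintype.card_piFinset _
      _ ≤ ∏ _s : S, K := Finset.prod_le_prod' fun s _ => card_class M H hMpos (c0 s)
      _ = K ^ n := by rw [Finset.prod_const, Finset.card_univ]
  have h2 : (X.image Φ).card ≤ ∏ p ∈ T, (G p).ncard := by
    have hsub : X.image Φ ⊆ Fintype.piFinset (fun p : T => (G p).toFinset) := by
      intro a ha
      rw [Finset.mem_image] at ha
      obtain ⟨c, hc, rfl⟩ := ha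
      rw [hX, Finset.mem_filter] at hc
      rw [Fintype.mem_piFinset]
      intro p
      rw [Set.mem_toFinset]
      exact hc.2 p p.2
    calc _ ≤ _ := Finset.card_le_card hsub
      _ = ∏ p : T, (G p).toFinset.card := Fintype.card_piFinset _
      _ = ∏ p : T, (G (p : ℕ)).ncard :=
          Finset.prod_congr rfl fun p _ => (Set.ncard_eq_toFinset_card' _).symm
      _ = ∏ p ∈ T, (G p).ncard := Finset.prod_coe_sort T (fun p => (G p).ncard)
  have h3 : ((∏ p ∈ T, (G p).ncard : ℕ) : ℝ) ≤ θ ^ T.card * (M : ℝ) ^ n := by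
    push_cast
    calc _ ≤ ∏ p ∈ T, (θ * (p : ℝ) ^ n) :=
          Finset.prod_le_prod (fun p _ => Nat.cast_nonneg _) fun p hp => hG p hp
      _ = θ ^ T.card * (M : ℝ) ^ n := by
          rw [Finset.prod_mul_distrib, Finset.prod_const, Finset.prod_pow, hM]
          push_cast
          rfl
  have h4 : (K : ℝ) * M ≤ 2 * (2 * (H : ℝ) + 1) := by
    have h5 : K * M ≤ 2 * (2 * H + 1) := by
      have h6 : 2 * H / M * M ≤ 2 * H := Nat.div_mul_le_self _ _
      rw [hK, add_mul, one_mul]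
      omega
    exact_mod_cast h5
  calc (X.card : ℝ) ≤ (K : ℝ) ^ n * (X.image Φ).card := by exact_mod_cast h1
    _ ≤ (K : ℝ) ^ n * (θ ^ T.card * (M : ℝ) ^ n) := by
        apply mul_le_mul_of_nonneg_left _ (by positivity)
        refine le_trans ?_ h3
        exact_mod_cast h2
    _ = ((K : ℝ) * M) ^ n * θ ^ T.card := by rw [mul_pow]; ring
    _ ≤ (2 * (2 * (H : ℝ) + 1)) ^ n * θ ^ T.card := by
        apply mul_le_mul_of_nonneg_right _ (by positivity)
        exact pow_le_pow_left₀ (by positivity) h4 n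

end Pool.Agent.H901R3.MS.W_BOX

namespace Pool.Agent.H901R3.MS

theorem t_BOX : BOX := by
  intro S _ _ T hT G θ hθ hG H hH
  exact W_BOX.main S T hT G θ hθ hG H hH

end Pool.Agent.H901R3.MS
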