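import Mathlib
import Pool.Agent.H901R3.MS.Stm

/-!
Project MS (helper901), task C1: the supersingular curves `y ^ 2 = x ^ 3 + a x`, `p = 3 (mod 4)`.
-/

set_option autoImplicit false

namespace Pool.Agent.H901R3.MS.W_C1

open WeierstrassCurve

theorem card_solutions (p : ℕ) [Fact p.Prime] (hp : p % 4 = 3) (a : ZMod p) :
    ((Finset.univ.filter (fun xy : ZMod p × ZMod p =>
      xy.2 ^ 2 = xy.1 ^ 3 + a * xy.1)).card : ℤ) = p := by
  have h2 : ringChar (ZMod p) ≠ 2 := by
    rw [ZMod.ringChar_zmod_n]; omega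
  have h1 : ((Finset.univ.filter (fun xy : ZMod p × ZMod p =>
      xy.2 ^ 2 = xy.1 ^ 3 + a * xy.1)).card : ℤ) =
      ∑ x : ZMod p, (quadraticChar (ZMod p) (x ^ 3 + a * x) + 1) := by
    rw [Finset.card_filter, Nat.cast_sum, Fintype.sum_prod_type]
    refine Finset.sum_congr rfl (fun x _ => ?_)
    rw [← quadraticChar_card_sqrts h2, ← Nat.cast_sum, ← Finset.card_filter]
    congr 1
    congr 1
    ext y
    simp
  rw [h1, Finset.sum_add_distrib]
  have h3 : ∑ x : ZMod p, quadraticChar (ZMod p) (x ^ 3 + a * x) =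
      -∑ x : ZMod p, quadraticChar (ZMod p) (x ^ 3 + a * x) := by
    rw [← Finset.sum_neg_distrib]
    conv_lhs => rw [← Equiv.sum_comp (Equiv.neg (ZMod p))]
    refine Finset.sum_congr rfl (fun x _ => ?_)
    have e1 : (Equiv.neg (ZMod p) x) ^ 3 + a * (Equiv.neg (ZMod p) x) =
        (-1) * (x ^ 3 + a * x) := by
      simp only [Equiv.neg_apply]; ring
    rw [e1, map_mul, quadraticChar_neg_one h2, ZMod.card, ZMod.χ₄_nat_three_mod_four hp]
    ring
  have h4 : ∑ x : ZMod p, quadraticChar (ZMod p) (x ^ 3 + a * x) = 0 := by linarith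
  rw [h4]
  simp [ZMod.card]

theorem card_pt (p : ℕ) [Fact p.Prime] (hp : p % 4 = 3) (a b : ZMod p) (hb : b = 0) (ha : a ≠ 0) :
    Nat.card (Pt a b) = p + 1 := by
  have h20 : (2 : ZMod p) ≠ 0 := by
    intro h
    have h3 : ((2 : ℕ) : ZMod p) = 0 := by exact_mod_cast h
    rw [ZMod.natCast_eq_zero_iff] at h3
    have := Nat.le_of_dvd (by norm_num) h3
    have h4 := (Fact.out : p.Prime).two_le
    omega
  have hD : Disc a b := by
    unfold Disc
    rw [hb]
    have h5 : (2 : ZMod p) * (4 * a ^ 3 + 27 * 0 ^ 2) = 2 ^ 3 * a ^ 3 := by ring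
    rw [h5]
    exact mul_ne_zero (pow_ne_zero _ h20) (pow_ne_zero _ ha)
  rw [Nat.card_congr (Affine.nonsingularPointEquiv (W' := (CV a b).toAffine))]
  have h6 : Nat.card (WithZero {xy : ZMod p × ZMod p //
      (CV a b).toAffine.Nonsingular xy.fst xy.snd}) =
      Nat.card {xy : ZMod p × ZMod p // (CV a b).toAffine.Nonsingular xy.fst xy.snd} + 1 :=
    Finite.card_option
  rw [h6]
  congr 1
  have h7 := card_solutions p hp a
  have h8 : Nat.card {xy : ZMod p × ZMod p // (CV a b).toAffine.Nonsingular xy.fst xy.snd} =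
      (Finset.univ.filter (fun xy : ZMod p × ZMod p => xy.2 ^ 2 = xy.1 ^ 3 + a * xy.1)).card := by
    rw [← Fintype.card_subtype, ← Nat.card_eq_fintype_card]
    refine Nat.card_congr (Equiv.subtypeEquivRight (fun xy => ?_))
    rw [nonsingular_iff hD, Eqn, hb, add_zero]
  rw [h8]
  exact_mod_cast h7

end Pool.Agent.H901R3.MS.W_C1

namespace Pool.Agent.H901R3.MS

theorem t_C1 : C1 := by
  intro p _ hp a b hb ha P
  have h1 := W_C1.card_pt p hp (a : ZMod p) (b : ZMod p) (by rw [hb]; simp) ha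
  rw [← h1]
  exact card_nsmul_eq_zero'

end Pool.Agent.H901R3.MS
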