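import Pool.Agent.H901R3.MS.Stm

/-!
Project MS (helper901), task C2 (helper831): `y ^ 2 = x ^ 3 + b` over `F_p`, `p ≡ 2 (mod 3)`.
-/

set_option autoImplicit false

namespace Pool.Agent.H901R3.MS

open WeierstrassCurve

namespace W_C2

/-- the cube map is injective -/
theorem cube_inj {p : ℕ} [Fact p.Prime] (h3 : p % 3 = 2) {x y : ZMod p} (h : x ^ 3 = y ^ 3) :
    x = y := by
  by_cases hy : y = 0
  · rw [hy] at h ⊢
    rw [zero_pow (by norm_num)] at h
    exact pow_eq_zero_iff (by norm_num) |>.1 h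
  · have h1 : (x / y) ^ 3 = 1 := by
      rw [div_pow, h, div_self (pow_ne_zero 3 hy)]
    have hne : x / y ≠ 0 := by
      intro h0
      rw [h0, zero_pow (by norm_num)] at h1
      exact zero_ne_one h1
    have h2 : (x / y) ^ (p - 1) = 1 := ZMod.pow_card_sub_one_eq_one hne
    have h4 : orderOf (x / y) ∣ 3 := orderOf_dvd_of_pow_eq_one h1
    have h5 : orderOf (x / y) ∣ p - 1 := orderOf_dvd_of_pow_eq_one h2
    have hcop : Nat.Coprime 3 (p - 1) := by
      rw [Nat.Prime.coprime_iff_not_dvd Nat.prime_three]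
      have := (Fact.out : p.Prime).two_le
      omega
    have h6 : orderOf (x / y) = 1 := Nat.dvd_one.1 (hcop ▸ Nat.dvd_gcd h4 h5)
    have h7 : x / y = 1 := orderOf_eq_one_iff.1 h6
    exact (div_eq_one_iff_eq hy).1 h7

theorem cube_surj {p : ℕ} [Fact p.Prime] (h3 : p % 3 = 2) (z : ZMod p) : ∃ x : ZMod p, x ^ 3 = z :=
  (Finite.injective_iff_surjective.1 (fun x y (h : x ^ 3 = y ^ 3) => cube_inj h3 h) :
    Function.Surjective fun x : ZMod p => x ^ 3) z

end W_C2

theorem t_C2 : C2 := by
  intro p hp h3 hp2 a b ha hb P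
  have hp3 : p ≠ 3 := by rintro rfl; omega
  subst ha
  have hdisc : Disc ((0 : ℤ) : ZMod p) (b : ZMod p) := by
    unfold Disc
    have h2 : (2 : ZMod p) ≠ 0 := by
      intro h
      have h' : ((2 : ℕ) : ZMod p) = 0 := by exact_mod_cast h
      rw [ZMod.natCast_eq_zero_iff] at h'
      exact hp2 ((Nat.prime_dvd_prime_iff_eq hp.out Nat.prime_two).1 h')
    have h3' : (3 : ZMod p) ≠ 0 := by
      intro h
      have h' : ((3 : ℕ) : ZMod p) = 0 := by exact_mod_cast h
      rw [ZMod.natCast_eq_zero_iff] at h'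
      exact hp3 ((Nat.prime_dvd_prime_iff_eq hp.out Nat.prime_three).1 h')
    have e : (2 : ZMod p) * (4 * ((0 : ℤ) : ZMod p) ^ 3 + 27 * (b : ZMod p) ^ 2) =
        2 * (3 ^ 3 * (b : ZMod p) ^ 2) := by
      push_cast
      ring
    rw [e]
    exact mul_ne_zero h2 (mul_ne_zero (pow_ne_zero _ h3') (pow_ne_zero _ hb))
  let f : Pt ((0 : ℤ) : ZMod p) (b : ZMod p) → Option (ZMod p) := fun P =>
    match P with
    | Affine.Point.zero => none
    | Affine.Point.some _ y _ => some y
  have hinj : Function.Injective f := by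
    rintro (_ | ⟨x, y, h⟩) (_ | ⟨x', y', h'⟩) he
    · rfl
    · simp [f] at he
    · simp [f] at he
    · simp only [f, Option.some.injEq] at he
      subst he
      have e1 := eqn_of h
      have e2 := eqn_of h'
      unfold Eqn at e1 e2
      have hx : x = x' := by
        apply W_C2.cube_inj h3
        push_cast at e1 e2
        linear_combination e2 - e1
      subst hx
      rfl
  have hsurj : Function.Surjective f := by
    rintro (_ | y)
    · exact ⟨Affine.Point.zero, rfl⟩
    · obtain ⟨x, hx⟩ := W_C2.cube_surj h3 (y ^ 2 - (b : ZMod p))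
      have he : Eqn ((0 : ℤ) : ZMod p) (b : ZMod p) x y := by
        unfold Eqn
        rw [hx]
        push_cast
        ring
      exact ⟨Affine.Point.some x y ((nonsingular_iff hdisc).2 he), rfl⟩
  have hcard : Nat.card (Pt ((0 : ℤ) : ZMod p) (b : ZMod p)) = p + 1 := by
    rw [Nat.card_congr (Equiv.ofBijective f ⟨hinj, hsurj⟩), Finite.card_option, Nat.card_zmod]
  rw [← hcard]
  exact card_nsmul_eq_zero'

end Pool.Agent.H901R3.MS
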