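import Pool.Agent.H901R3.MS.Stm

/-! EVR (helper85): reduction of the values of the forms. -/

set_option autoImplicit false

namespace Pool.Agent.H901R3.MS

namespace W_EVR

variable {K k : Type} [Field K] [Field k] (v : Place K k)

/-- `x` is integral with residue `y` -/
def Q (x : K) (y : k) : Prop := x ∈ v.A ∧ v.r x = y

theorem q_int (n : ℤ) : Q v (n : K) (n : k) := ⟨v.int_mem n, v.r_int n⟩

theorem q_add {x x' : K} {y y' : k} (h : Q v x y) (h' : Q v x' y') : Q v (x + x') (y + y') :=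
  ⟨v.A.add_mem h.1 h'.1, by rw [v.r_add h.1 h'.1, h.2, h'.2]⟩

theorem q_mul {x x' : K} {y y' : k} (h : Q v x y) (h' : Q v x' y') : Q v (x * x') (y * y') :=
  ⟨v.A.mul_mem h.1 h'.1, by rw [v.r_mul h.1 h'.1, h.2, h'.2]⟩

theorem q_pow {x : K} {y : k} (h : Q v x y) (n : ℕ) : Q v (x ^ n) (y ^ n) :=
  ⟨v.A.pow_mem h.1 n, by rw [v.r_pow h.1, h.2]⟩

theorem q_sum {ι : Type} (s : Finset ι) (f : ι → K) (g : ι → k) (h : ∀ i ∈ s, Q v (f i) (g i)) :
    Q v (∑ i ∈ s, f i) (∑ i ∈ s, g i) := by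
  classical
  induction s using Finset.induction_on with
  | empty =>
    rw [Finset.sum_empty, Finset.sum_empty]
    exact ⟨v.A.zero_mem, v.r_zero⟩
  | insert a s ha ih =>
    rw [Finset.sum_insert ha, Finset.sum_insert ha]
    exact q_add v (h a (Finset.mem_insert_self _ _))
      (ih fun i hi => h i (Finset.mem_insert_of_mem hi))

theorem q_prod {ι : Type} (s : Finset ι) (f : ι → K) (g : ι → k) (h : ∀ i ∈ s, Q v (f i) (g i)) :
    Q v (∏ i ∈ s, f i) (∏ i ∈ s, g i) := by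
  classical
  induction s using Finset.induction_on with
  | empty =>
    rw [Finset.prod_empty, Finset.prod_empty]
    exact ⟨v.A.one_mem, v.r_one⟩
  | insert a s ha ih =>
    rw [Finset.prod_insert ha, Finset.prod_insert ha]
    exact q_mul v (h a (Finset.mem_insert_self _ _))
      (ih fun i hi => h i (Finset.mem_insert_of_mem hi))

theorem q_mono {r : ℕ} (e : Expo r) {V : Fin r → Fin 3 → K} {V' : Fin r → Fin 3 → k}
    (h : ∀ i j, Q v (V i j) (V' i j)) : Q v (mono e V) (mono e V') := by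
  unfold mono
  exact q_prod v _ _ _ fun i _ => q_prod v _ _ _ fun j _ => q_pow v (h i j) _

theorem q_ev {r : ℕ} (f : Expo r →₀ ℤ) {V : Fin r → Fin 3 → K} {V' : Fin r → Fin 3 → k}
    (h : ∀ i j, Q v (V i j) (V' i j)) : Q v (ev f V) (ev f V') := by
  unfold ev Finsupp.sum
  exact q_sum v _ _ _ fun e _ => q_mul v (q_int v _) (q_mono v e h)

theorem q_Fc {r : ℕ} {S : Type} [Fintype S] (f : S → (Expo r →₀ ℤ)) (c : S → ℤ)
    {V : Fin r → Fin 3 → K} {V' : Fin r → Fin 3 → k}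
    (h : ∀ i j, Q v (V i j) (V' i j)) : Q v (Fc f c V) (Fc f c V') := by
  unfold Fc
  exact q_sum v _ _ _ fun s _ => q_mul v (q_int v _) (q_ev v _ h)

end W_EVR

theorem t_EVR : EVR := by
  intro K k _ _ v r S _ f c V hV
  exact W_EVR.q_Fc v f c fun i j => ⟨hV i j, rfl⟩

end Pool.Agent.H901R3.MS
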