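import Mathlib
import Pool.Agent.H901R3.MS.Stm

/-!
Project MS (helper901), task HO: scaling of multihomogeneous forms.  Written by helper656.
-/

set_option autoImplicit false

namespace Pool.Agent.H901R3.MS

theorem t_HO : HO := by
  intro F _ r S _ f d hf c V u
  unfold Fc ev
  rw [Finset.mul_sum]
  refine Finset.sum_congr rfl fun s _ => ?_
  rw [mul_left_comm]
  congr 1
  rw [Finsupp.sum, Finsupp.sum, Finset.mul_sum]
  refine Finset.sum_congr rfl fun e he => ?_
  rw [mul_left_comm]
  congr 1
  unfold mono
  rw [← Finset.prod_mul_distrib]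
  refine Finset.prod_congr rfl fun i _ => ?_
  rw [← hf s e he i, ← Finset.prod_pow_eq_pow_sum, ← Finset.prod_mul_distrib]
  refine Finset.prod_congr rfl fun j _ => ?_
  rw [mul_pow]

end Pool.Agent.H901R3.MS
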