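import Mathlib
import Pool.Agent.H901R3.MS.Stm

set_option autoImplicit false

namespace Pool.Agent.H901R3.MS

namespace W_LF

theorem card_pre (p : ℕ) [Fact p.Prime] (S : Type) [Fintype S] (φ : S → ZMod p) (s0 : S)
    (h0 : φ s0 ≠ 0) (B : Set (ZMod p)) :
    {c : S → ZMod p | (∑ s, c s * φ s) ∈ B}.ncard ≤ p ^ (Fintype.card S - 1) * B.ncard := by
  classical
  have hB : B.Finite := Set.toFinite B
  let g : (S → ZMod p) → ({s : S // s ≠ s0} → ZMod p) × ZMod p :=
    fun c => (fun s => c s.1, ∑ s, c s * φ s)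
  have h1 : {c : S → ZMod p | (∑ s, c s * φ s) ∈ B}.ncard ≤
      ((Set.univ : Set ({s : S // s ≠ s0} → ZMod p)) ×ˢ B).ncard := by
    apply Set.ncard_le_ncard_of_injOn g
    · intro c hc
      exact Set.mem_prod.2 ⟨Set.mem_univ _, hc⟩
    · intro c _ c' _ hcc
      have e1 : ∀ s, s ≠ s0 → c s = c' s := by
        intro s hs
        exact congrFun (congrArg Prod.fst hcc) ⟨s, hs⟩
      have e2 : ∑ s, c s * φ s = ∑ s, c' s * φ s := congrArg Prod.snd hcc
      rw [← Finset.add_sum_erase _ _ (Finset.mem_univ s0),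
        ← Finset.add_sum_erase _ (fun s => c' s * φ s) (Finset.mem_univ s0)] at e2
      have e3 : ∑ s ∈ Finset.univ.erase s0, c s * φ s = ∑ s ∈ Finset.univ.erase s0, c' s * φ s := by
        apply Finset.sum_congr rfl
        intro s hs
        rw [e1 s (Finset.ne_of_mem_erase hs)]
      rw [e3] at e2
      have e4 : c s0 = c' s0 := mul_right_cancel₀ h0 (add_right_cancel e2)
      funext s
      by_cases hs : s = s0
      · rw [hs]; exact e4
      · exact e1 s hs
  rw [Set.ncard_prod, Set.ncard_univ] at h1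
  have h2 : Nat.card ({s : S // s ≠ s0} → ZMod p) = p ^ (Fintype.card S - 1) := by
    rw [Nat.card_eq_fintype_card, Fintype.card_fun, ZMod.card, Fintype.card_subtype_compl,
      Fintype.card_subtype_eq]
  rw [h2] at h1
  exact h1

end W_LF

theorem t_LF : LF := by
  intro hMP p _ hp l m hl hlm hpl S _ φ ⟨s0, h0⟩
  have h1 := hMP p hp l m hl hlm hpl
  have h2 := W_LF.card_pre p S φ s0 h0 {x : ZMod p | ∃ t : ZMod p, t ^ m = x}
  have h3 : {c : S → ZMod p | ∃ t : ZMod p, t ^ m = ∑ s, c s * φ s} =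
      {c : S → ZMod p | (∑ s, c s * φ s) ∈ {x : ZMod p | ∃ t : ZMod p, t ^ m = x}} := rfl
  rw [h3]
  have h4 : (({c : S → ZMod p | (∑ s, c s * φ s) ∈
      {x : ZMod p | ∃ t : ZMod p, t ^ m = x}}.ncard : ℕ) : ℝ) ≤
      (p : ℝ) ^ (Fintype.card S - 1) * ({x : ZMod p | ∃ t : ZMod p, t ^ m = x}.ncard : ℝ) := by
    exact_mod_cast h2
  have hpos : 0 < Fintype.card S := Fintype.card_pos_iff.2 ⟨s0⟩
  calc (({c : S → ZMod p | (∑ s, c s * φ s) ∈
      {x : ZMod p | ∃ t : ZMod p, t ^ m = x}}.ncard : ℕ) : ℝ)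
      ≤ (p : ℝ) ^ (Fintype.card S - 1) * ({x : ZMod p | ∃ t : ZMod p, t ^ m = x}.ncard : ℝ) := h4
    _ ≤ (p : ℝ) ^ (Fintype.card S - 1) * (2 / 3 * p) := by
        apply mul_le_mul_of_nonneg_left h1 (by positivity)
    _ = 2 / 3 * (p : ℝ) ^ Fintype.card S := by
        obtain ⟨k, hk⟩ := Nat.exists_eq_succ_of_ne_zero hpos.ne'
        rw [hk, Nat.succ_sub_one, pow_succ]
        ring

end Pool.Agent.H901R3.MS
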