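import Pool.Agent.H901R3.MS.Stm

set_option autoImplicit false

namespace Pool.Agent.H901R3.MS

theorem t_LY : LY := by
  intro y z
  classical
  refine ⟨∏ q ∈ (Finset.Icc 1 z).filter Nat.Prime, q ^ Nat.log q (y + 1), ?_, ?_, ?_⟩
  · apply Nat.one_le_iff_ne_zero.2
    apply Finset.prod_ne_zero_iff.2
    intro q hq
    exact pow_ne_zero _ (Finset.mem_filter.1 hq).2.ne_zero
  · calc ∏ q ∈ (Finset.Icc 1 z).filter Nat.Prime, q ^ Nat.log q (y + 1)
        ≤ ∏ q ∈ (Finset.Icc 1 z).filter Nat.Prime, (y + 1) :=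
          Finset.prod_le_prod' fun q _ => Nat.pow_log_le_self q (by omega)
      _ = (y + 1) ^ ((Finset.Icc 1 z).filter Nat.Prime).card := by rw [Finset.prod_const]
      _ ≤ (y + 1) ^ z := by
          apply Nat.pow_le_pow_right (by omega)
          calc ((Finset.Icc 1 z).filter Nat.Prime).card ≤ (Finset.Icc 1 z).card :=
                Finset.card_filter_le _ _
            _ = z := by simp
  · intro n hn hny hq
    have hn0 : n ≠ 0 := by omega
    conv_lhs => rw [← Nat.prod_factorization_pow_eq_self hn0]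
    rw [Finsupp.prod, Nat.support_factorization]
    have h1 : ∏ q ∈ n.primeFactors, q ^ n.factorization q ∣
        ∏ q ∈ n.primeFactors, q ^ Nat.log q (y + 1) := by
      apply Finset.prod_dvd_prod_of_dvd
      intro q hqn
      have hqp : q.Prime := Nat.prime_of_mem_primeFactors hqn
      apply pow_dvd_pow
      apply Nat.le_log_of_pow_le hqp.one_lt
      exact (Nat.le_of_dvd (by omega) (Nat.ordProj_dvd n q)).trans hny
    refine h1.trans (Finset.prod_dvd_prod_of_subset _ _ _ ?_)
    intro q hqn
    have hqp : q.Prime := Nat.prime_of_mem_primeFactors hqn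
    rw [Finset.mem_filter, Finset.mem_Icc]
    exact ⟨⟨hqp.one_lt.le, hq q hqp (Nat.dvd_of_mem_primeFactors hqn)⟩, hqp⟩

end Pool.Agent.H901R3.MS
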