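import Mathlib
import Pool.Agent.H901R3.MS.Stm
import Pool.Agent.H437R2.Man.MWWeak

set_option autoImplicit false

namespace Pool.Agent.H901R3.MS

open WeierstrassCurve Polynomial

namespace W_M1

theorem fg_of_inj {A B : Type} [AddCommGroup A] [AddCommGroup B] (φ : A →+ B)
    (h : Function.Injective φ) (hB : AddGroup.FG B) : AddGroup.FG A := by
  have : Module.Finite ℤ B := Module.Finite.iff_addGroup_fg.mpr hB
  exact Module.Finite.iff_addGroup_fg.mp (Module.Finite.of_injective φ.toIntLinearMap h)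

theorem fg_congr {F : Type} [Field F] [DecidableEq F] {W W' : WeierstrassCurve F} (h : W = W')
    (hfg : AddGroup.FG W.toAffine.Point) : AddGroup.FG W'.toAffine.Point := by
  subst h; exact hfg

/-- the curve over `ℤ` -/
def W0 (a b : ℤ) : WeierstrassCurve ℤ := ⟨0, 0, 0, a, b⟩

theorem W0_map {F : Type} [Field F] (a b : ℤ) :
    (W0 a b).map (algebraMap ℤ F) = CV (a : F) (b : F) := by
  unfold W0 CV
  ext <;> simp

theorem map_cubic {K : Type} [Field K] (φ : ℚ →+* K) (a b : ℤ) :
    (X ^ 3 + C (a : ℚ) * X + C (b : ℚ)).map φ = X ^ 3 + C (a : K) * X + C (b : K) := by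
  simp

/-- a number field containing three roots of the cubic -/
theorem exists_roots (a b : ℤ) : ∃ (K : Type) (_ : Field K) (_ : NumberField K) (r₁ r₂ r₃ : K),
    r₁ + r₂ + r₃ = 0 ∧ r₁ * r₂ + r₁ * r₃ + r₂ * r₃ = a ∧ -(r₁ * r₂ * r₃) = b := by
  classical
  set f : ℚ[X] := X ^ 3 + C (a : ℚ) * X + C (b : ℚ) with hf
  have hmon : f.Monic := by
    rw [hf]; monicity!
  have hdeg : f.natDegree = 3 := by
    rw [hf]; compute_degree!
  set g : (SplittingField f)[X] := f.map (algebraMap ℚ (SplittingField f)) with hg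
  have hs : g.Splits := SplittingField.splits f
  have hg2 : g = X ^ 3 + C (a : SplittingField f) * X + C (b : SplittingField f) :=
    map_cubic (algebraMap ℚ (SplittingField f)) a b
  have hgm : g.Monic := hmon.map _
  have hgd : g.natDegree = 3 := by rw [hg, natDegree_map, hdeg]
  have hcard : g.roots.card = 3 := by
    have := hs.natDegree_eq_card_roots
    rw [hgd] at this
    exact this.symm
  obtain ⟨r₁, r₂, r₃, hr⟩ := Multiset.card_eq_three.1 hcard
  have hprod : g = (X - C r₁) * ((X - C r₂) * (X - C r₃)) := by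
    have h1 := hs.eq_prod_roots
    rw [hr, hgm.leadingCoeff] at h1
    rw [h1]
    simp
  have : NumberField (SplittingField f) := ⟨⟩
  have hev : ∀ t : SplittingField f, t ^ 3 + a * t + b = (t - r₁) * ((t - r₂) * (t - r₃)) := by
    intro t
    have h1 : g.eval t = t ^ 3 + a * t + b := by
      rw [hg2]
      simp
    rw [← h1, hprod]
    simp
  have h0 := hev 0
  have h1 := hev 1
  have h2 := hev (-1)
  have h20 : (2 : SplittingField f) ≠ 0 := two_ne_zero
  have e1 : r₁ + r₂ + r₃ = 0 := by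
    have : 2 * (r₁ + r₂ + r₃) = 0 := by linear_combination h1 + h2 - 2 * h0
    exact (mul_eq_zero.1 this).resolve_left h20
  refine ⟨SplittingField f, inferInstance, inferInstance, r₁, r₂, r₃, e1, ?_, ?_⟩
  · linear_combination -h1 + h0 + e1
  · linear_combination -h0

end W_M1

theorem t_M1 : M1 := by
  intro a b hD
  obtain ⟨K, hK, hN, r₁, r₂, r₃, h1, h2, h3⟩ := W_M1.exists_roots a b
  classical
  have hDQ : (4 * (a : ℚ) ^ 3 + 27 * (b : ℚ) ^ 2) ≠ 0 := by
    unfold Disc at hD
    exact fun h => hD (by rw [h, mul_zero])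
  have hDZ : (4 * a ^ 3 + 27 * b ^ 2 : ℤ) ≠ 0 := by
    intro h
    apply hDQ
    exact_mod_cast h
  have hDK : (4 * (a : K) ^ 3 + 27 * (b : K) ^ 2) ≠ 0 := by
    intro h
    apply hDZ
    have : ((4 * a ^ 3 + 27 * b ^ 2 : ℤ) : K) = 0 := by push_cast; exact h
    exact_mod_cast this
  have hr3 : r₃ = -(r₁ + r₂) := by linear_combination h1
  have key : 4 * (a : K) ^ 3 + 27 * (b : K) ^ 2 = -((r₁ - r₂) * (r₁ - r₃) * (r₂ - r₃)) ^ 2 := by
    rw [← h2, ← h3, hr3]; ring
  rw [key] at hDK
  have d12 : r₁ ≠ r₂ := by rintro rfl; apply hDK; ring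
  have d13 : r₁ ≠ r₃ := by rintro rfl; apply hDK; ring
  have d23 : r₂ ≠ r₃ := by rintro rfl; apply hDK; ring
  have hfgK := Pool.Agent.H437R2.Man.MW.pt_fg (K := K) (e1 := -r₁) (e2 := -r₂) (e3 := -r₃)
    (fun h => d12 (neg_injective h)) (fun h => d13 (neg_injective h))
    (fun h => d23 (neg_injective h))
  have hcrv : Pool.Agent.H437R2.Man.MW.crv (-r₁) (-r₂) (-r₃) =
      (W_M1.W0 a b).map (algebraMap ℤ K) := by
    rw [W_M1.W0_map]
    unfold Pool.Agent.H437R2.Man.MW.crv CV
    ext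
    · rfl
    · show -r₁ + -r₂ + -r₃ = 0
      linear_combination -h1
    · rfl
    · show -r₁ * -r₂ + -r₁ * -r₃ + -r₂ * -r₃ = a
      linear_combination h2
    · show -r₁ * -r₂ * -r₃ = b
      linear_combination h3
  have hfgK' := W_M1.fg_congr hcrv hfgK
  have hinj := Affine.Point.map_injective (W' := (W_M1.W0 a b).toAffine) (S := ℤ) (F := ℚ) (K := K)
    ((algebraMap ℚ K).toIntAlgHom)
  have hfgQ := W_M1.fg_of_inj _ hinj hfgK'
  exact W_M1.fg_congr (W_M1.W0_map a b) hfgQ

end Pool.Agent.H901R3.MS
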