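import Pool.Agent.H901R3.MS.Stm

/-! Project MS (helper901), task M2 (helper411). -/

set_option autoImplicit false

namespace Pool.Agent.H901R3.MS

theorem t_M2 : M2 := by
  classical
  intro G _ hG
  have : Module.Finite ℤ G := Module.Finite.iff_addGroup_fg.2 hG
  obtain ⟨R, f, hf⟩ := Module.Finite.exists_fin' ℤ G
  refine ⟨R, fun L hL => ?_⟩
  refine ⟨(Fintype.piFinset (fun _ : Fin R => Finset.range L)).image
    (fun n => f (fun j => ((n j : ℕ) : ℤ))), ?_, ?_⟩
  · refine Finset.card_image_le.trans ?_
    rw [Fintype.card_piFinset]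
    simp
  · intro g
    obtain ⟨u, rfl⟩ := hf g
    have hL' : (0 : ℤ) < L := by exact_mod_cast hL
    refine ⟨f (fun j => (((u j % L).toNat : ℕ) : ℤ)), ?_, f (fun j => u j / L), ?_⟩
    · refine Finset.mem_image.2 ⟨fun j => (u j % L).toNat, ?_, rfl⟩
      rw [Fintype.mem_piFinset]
      intro j
      rw [Finset.mem_range]
      have h1 := Int.emod_lt_of_pos (u j) hL'
      have h2 := Int.emod_nonneg (u j) hL'.ne'
      omega
    · rw [← map_nsmul, ← map_add]
      congr 1
      funext j
      have h2 := Int.emod_nonneg (u j) hL'.ne'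
      simp only [Pi.add_apply, nsmul_eq_mul]
      rw [Int.toNat_of_nonneg h2]
      exact (Int.emod_add_mul_ediv (u j) L).symm

end Pool.Agent.H901R3.MS
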