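import Pool.Agent.H901R3.MS.Stm

/-! Project MS (helper901), task MP (helper411). -/

set_option autoImplicit false

namespace Pool.Agent.H901R3.MS

theorem t_MP : MP := by
  classical
  intro p hp h3 l m hl hlm hcase
  have hdvd : l ∣ p - 1 := by
    rcases hcase with rfl | h
    · have hodd : p % 2 = 1 := by
        rcases hp.out.eq_two_or_odd with h | h
        · omega
        · exact h
      omega
    · have := Nat.div_add_mod p l
      rw [h] at this
      exact ⟨p / l, by omega⟩
  have hsub : {x : ZMod p | ∃ t : ZMod p, t ^ m = x} ⊆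
      {0} ∪ (Units.val '' ((powMonoidHom l : (ZMod p)ˣ →* (ZMod p)ˣ).range : Set (ZMod p)ˣ)) := by
    rintro x ⟨t, rfl⟩
    by_cases ht : t = 0
    · by_cases hm : m = 0
      · right
        exact ⟨1, ⟨1, by simp⟩, by simp [hm]⟩
      · left
        simp [ht, hm]
    · right
      obtain ⟨c, rfl⟩ := hlm
      refine ⟨(Units.mk0 t ht) ^ (l * c), ?_, by simp⟩
      refine ⟨(Units.mk0 t ht) ^ c, ?_⟩
      rw [powMonoidHom_apply, ← pow_mul, mul_comm]
  have hrange : Nat.card (powMonoidHom l : (ZMod p)ˣ →* (ZMod p)ˣ).range = (p - 1) / l := by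
    rw [IsCyclic.card_powMonoidHom_range, Nat.card_eq_fintype_card, ZMod.card_units,
      Nat.gcd_eq_right hdvd]
  have hcard : ({x : ZMod p | ∃ t : ZMod p, t ^ m = x}.ncard : ℕ) ≤ 1 + (p - 1) / l := by
    refine (Set.ncard_le_ncard hsub (Set.toFinite _)).trans ?_
    refine (Set.ncard_union_le _ _).trans ?_
    rw [Set.ncard_singleton]
    refine Nat.add_le_add_left ?_ 1
    refine (Set.ncard_image_le (Set.toFinite _)).trans ?_
    rw [← hrange]
    exact le_of_eq (Nat.card_coe_set_eq _).symm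
  have h2 : (p - 1) / l ≤ (p - 1) / 2 := Nat.div_le_div_left hl.two_le (by norm_num)
  have h4 : 2 * ({x : ZMod p | ∃ t : ZMod p, t ^ m = x}.ncard : ℕ) ≤ p + 1 := by omega
  have h5 : (2 : ℝ) * (({x : ZMod p | ∃ t : ZMod p, t ^ m = x}.ncard : ℕ) : ℝ) ≤ p + 1 := by
    exact_mod_cast h4
  have h6 : (3 : ℝ) ≤ p := by exact_mod_cast h3
  linarith

end Pool.Agent.H901R3.MS
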