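import Pool.Agent.H901R3.MS.Stm

/-! PL: the place of `ℚ` at `p`. -/

set_option autoImplicit false

namespace Pool.Agent.H901R3.MS

namespace W_PL

/-- the `p`-integral rational numbers -/
noncomputable def A (p : ℕ) [Fact p.Prime] : Subring ℚ :=
  (PadicInt.subring p).comap (algebraMap ℚ ℚ_[p])

theorem mem_A {p : ℕ} [Fact p.Prime] (x : ℚ) : x ∈ A p ↔ ‖algebraMap ℚ ℚ_[p] x‖ ≤ 1 := Iff.rfl

/-- the inclusion in `ℤ_[p]` -/
noncomputable def j (p : ℕ) [Fact p.Prime] : A p →+* ℤ_[p] where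
  toFun x := ⟨algebraMap ℚ ℚ_[p] x, x.2⟩
  map_one' := Subtype.ext (by simp)
  map_zero' := Subtype.ext (by simp)
  map_mul' x y := Subtype.ext (by simp)
  map_add' x y := Subtype.ext (by simp)

theorem norm_j {p : ℕ} [Fact p.Prime] (x : A p) : ‖j p x‖ = ‖algebraMap ℚ ℚ_[p] (x : ℚ)‖ := rfl

theorem zero_iff {p : ℕ} [Fact p.Prime] (x : ℤ_[p]) : PadicInt.toZMod x = 0 ↔ ‖x‖ < 1 := by
  rw [← RingHom.mem_ker, PadicInt.ker_toZMod, IsLocalRing.mem_maximalIdeal,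
    PadicInt.mem_nonunits]

end W_PL

open W_PL in
theorem t_PL : PL := by
  intro p _
  refine ⟨⟨A p, (PadicInt.toZMod (p := p)).comp (j p), ?_, ?_⟩⟩
  · intro x hx
    rw [mem_A, not_le] at hx
    have h2 : ‖algebraMap ℚ ℚ_[p] x⁻¹‖ < 1 := by
      rw [map_inv₀, norm_inv]
      exact inv_lt_one_of_one_lt₀ hx
    refine ⟨h2.le, ?_⟩
    rw [RingHom.comp_apply, zero_iff, norm_j]
    exact h2
  · intro x hx
    rw [RingHom.comp_apply, Ne, zero_iff, norm_j, not_lt] at hx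
    rw [mem_A, map_inv₀, norm_inv]
    exact inv_le_one_of_one_le₀ hx

end Pool.Agent.H901R3.MS
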