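import Pool.Agent.H901R3.MS.Stm

/-! Task PTS (helper485): a solution of the homogeneous equation is a multiple of the coordinate
vector of a point. -/

set_option autoImplicit false

namespace Pool.Agent.H901R3.MS

open WeierstrassCurve

theorem t_PTS : PTS := by
  intro a b V hD hV
  obtain ⟨hV0, hE⟩ := hV
  by_cases h2 : V 2 = 0
  · have h0 : V 0 = 0 := by
      rw [h2] at hE
      have : V 0 ^ 3 = 0 := by linear_combination -hE
      exact (pow_eq_zero_iff (by norm_num)).1 this
    refine ⟨Affine.Point.zero, V 1, ?_, ?_⟩
    · intro h1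
      apply hV0
      funext j
      fin_cases j
      · exact h0
      · exact h1
      · exact h2
    · intro j
      fin_cases j
      · show V 0 = V 1 * 0
        rw [h0, mul_zero]
      · show V 1 = V 1 * 1
        rw [mul_one]
      · show V 2 = V 1 * 0
        rw [h2, mul_zero]
  · have heq : Eqn (a : ℚ) (b : ℚ) (V 0 / V 2) (V 1 / V 2) := by
      unfold Eqn
      field_simp
      linear_combination hE
    refine ⟨Affine.Point.some (V 0 / V 2) (V 1 / V 2) ((nonsingular_iff hD).2 heq), V 2, h2, ?_⟩
    intro j
    fin_cases j
    · show V 0 = V 2 * (V 0 / V 2)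
      field_simp
    · show V 1 = V 2 * (V 1 / V 2)
      field_simp
    · show V 2 = V 2 * 1
      rw [mul_one]

end Pool.Agent.H901R3.MS
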