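import Mathlib
import Pool.Agent.H901R3.MS.Stm

set_option autoImplicit false

namespace Pool.Agent.H901R3.MS

theorem t_R1 : R1 := by
  intro K k _ _ v a b x y hE
  unfold Eqn at hE
  constructor
  · intro hx
    refine v.mem_of_pow_mem (n := 2) (by norm_num) ?_
    rw [hE]
    exact v.A.add_mem (v.A.add_mem (v.A.pow_mem hx 3) (v.A.mul_mem (v.int_mem a) hx)) (v.int_mem b)
  · intro hx
    have hx0 : x ≠ 0 := by rintro rfl; exact hx v.A.zero_mem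
    have hs := v.inv_mem_of_notMem hx
    have hrs := v.r_inv_of_notMem hx
    have hs2 : (a : K) * x⁻¹ ^ 2 ∈ v.A := v.A.mul_mem (v.int_mem a) (v.A.pow_mem hs 2)
    have hs3 : (b : K) * x⁻¹ ^ 3 ∈ v.A := v.A.mul_mem (v.int_mem b) (v.A.pow_mem hs 3)
    have hU : 1 + (a : K) * x⁻¹ ^ 2 + (b : K) * x⁻¹ ^ 3 ∈ v.A :=
      v.A.add_mem (v.A.add_mem v.A.one_mem hs2) hs3
    have hrU : v.r (1 + (a : K) * x⁻¹ ^ 2 + (b : K) * x⁻¹ ^ 3) = 1 := by
      rw [v.r_add (v.A.add_mem v.A.one_mem hs2) hs3, v.r_add v.A.one_mem hs2,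
        v.r_mul (v.int_mem a) (v.A.pow_mem hs 2), v.r_mul (v.int_mem b) (v.A.pow_mem hs 3),
        v.r_pow hs, v.r_pow hs, hrs, v.r_one]
      ring
    have hrU' : v.r (1 + (a : K) * x⁻¹ ^ 2 + (b : K) * x⁻¹ ^ 3) ≠ 0 := by
      rw [hrU]; exact one_ne_zero
    have hU0 := v.ne_zero_of_r_ne hrU'
    have hy2 : y ^ 2 = x ^ 3 * (1 + (a : K) * x⁻¹ ^ 2 + (b : K) * x⁻¹ ^ 3) := by
      rw [hE]; field_simp
    have hy0 : y ≠ 0 := by
      rintro rfl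
      have : x ^ 3 * (1 + (a : K) * x⁻¹ ^ 2 + (b : K) * x⁻¹ ^ 3) ≠ 0 :=
        mul_ne_zero (pow_ne_zero 3 hx0) hU0
      apply this
      rw [← hy2]; ring
    have hq : y / x ∉ v.A := by
      intro h
      apply hx
      have h2 : (y / x) ^ 2 / (1 + (a : K) * x⁻¹ ^ 2 + (b : K) * x⁻¹ ^ 3) = x := by
        rw [div_pow, hy2]
        generalize 1 + (a : K) * x⁻¹ ^ 2 + (b : K) * x⁻¹ ^ 3 = U at hU0
        field_simp
      rw [← h2]
      exact v.div_mem (v.A.pow_mem h 2) hrU'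
    have h1 := v.inv_mem_of_notMem hq
    have h2 := v.r_inv_of_notMem hq
    rw [inv_div] at h1 h2
    have h3 : y⁻¹ = x / y * x⁻¹ := by field_simp
    refine ⟨hx0, hy0, hs, hrs, h1, h2, ?_, ?_⟩
    · rw [h3]; exact v.A.mul_mem h1 hs
    · rw [h3, v.r_mul h1 hs, h2, zero_mul]

end Pool.Agent.H901R3.MS
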