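import Mathlib
import Pool.Agent.H901R3.MS.Stm

/-!
Project MS (helper901), task R2: sum of two integral points with different reductions of the
`x`-coordinates.
-/

set_option autoImplicit false

namespace Pool.Agent.H901R3.MS

open WeierstrassCurve

theorem t_R2 : R2 := by
  intro K k _ _ _ _ v a b x₁ y₁ x₂ y₂ h₁ h₂ g₁ g₂ hx₁ hy₁ hx₂ hy₂ hr
  have hne : x₁ ≠ x₂ := by
    rintro rfl
    exact hr rfl
  have hsub : v.r (x₁ - x₂) = v.r x₁ - v.r x₂ := v.r_sub hx₁ hx₂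
  have hsub0 : v.r (x₁ - x₂) ≠ 0 := by
    rw [hsub]
    exact sub_ne_zero.2 hr
  set l : K := (y₁ - y₂) / (x₁ - x₂) with hl
  have hlA : l ∈ v.A := v.div_mem (v.A.sub_mem hy₁ hy₂) hsub0
  have hlr : v.r l = (v.r y₁ - v.r y₂) / (v.r x₁ - v.r x₂) := by
    rw [hl, v.r_div (v.A.sub_mem hy₁ hy₂) hsub0, hsub, v.r_sub hy₁ hy₂]
  have hl2 : l ^ 2 ∈ v.A := v.A.pow_mem hlA 2
  have hl2x : l ^ 2 - x₁ ∈ v.A := v.A.sub_mem hl2 hx₁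
  set x₃ : K := l ^ 2 - x₁ - x₂ with hx₃
  have hx₃A : x₃ ∈ v.A := v.A.sub_mem hl2x hx₂
  have hx₃r : v.r x₃ = v.r l ^ 2 - v.r x₁ - v.r x₂ := by
    rw [hx₃, v.r_sub hl2x hx₂, v.r_sub hl2 hx₁, v.r_pow hlA]
  have hd : x₃ - x₁ ∈ v.A := v.A.sub_mem hx₃A hx₁
  have hm : l * (x₃ - x₁) ∈ v.A := v.A.mul_mem hlA hd
  have hs : l * (x₃ - x₁) + y₁ ∈ v.A := v.A.add_mem hm hy₁
  set y₃ : K := -(l * (x₃ - x₁) + y₁) with hy₃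
  have hy₃A : y₃ ∈ v.A := v.A.neg_mem hs
  have hy₃r : v.r y₃ = -(v.r l * (v.r x₃ - v.r x₁) + v.r y₁) := by
    rw [hy₃, v.r_neg hs, v.r_add hm hy₁, v.r_mul hlA hd, v.r_sub hx₃A hx₁]
  obtain ⟨h₃, hh⟩ := add_ne h₁ h₂ hne l x₃ y₃ hl hx₃ hy₃
  obtain ⟨g₃, hg⟩ := add_ne g₁ g₂ hr (v.r l) (v.r x₃) (v.r y₃) hlr hx₃r hy₃r
  exact ⟨x₃, y₃, h₃, g₃, hx₃A, hy₃A, hh, hg⟩

end Pool.Agent.H901R3.MS
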