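import Mathlib
import Pool.Agent.H901R3.MS.Stm

/-!
Task R3 (helper913): sum of two integral points with equal reductions of the `x`-coordinates,
not opposite.
-/

set_option autoImplicit false

namespace Pool.Agent.H901R3.MS

open WeierstrassCurve

theorem t_R3 : R3 := by
  intro K k _ _ _ _ v a b x₁ y₁ x₂ y₂ h₁ h₂ g₁ g₂ hx₁ hy₁ hx₂ hy₂ hrx hry
  have E1 := eqn_of h₁
  have E2 := eqn_of h₂
  have F1 := eqn_of g₁
  have F2 := eqn_of g₂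
  unfold Eqn at E1 E2 F1 F2
  have ha : (a : K) ∈ v.A := v.int_mem a
  have hrs : v.r (y₁ + y₂) ≠ 0 := by
    rw [v.r_add hy₁ hy₂]
    intro h
    exact hry (eq_neg_of_add_eq_zero_left h)
  have hs0 : y₁ + y₂ ≠ 0 := v.ne_zero_of_r_ne hrs
  have m11 := v.A.pow_mem hx₁ 2
  have m12 := v.A.mul_mem hx₁ hx₂
  have m22 := v.A.pow_mem hx₂ 2
  have m1 := v.A.add_mem m11 m12
  have m2 := v.A.add_mem m1 m22
  have m3 := v.A.add_mem m2 ha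
  obtain ⟨l, hl⟩ : ∃ l : K, l = (x₁ ^ 2 + x₁ * x₂ + x₂ ^ 2 + (a : K)) / (y₁ + y₂) := ⟨_, rfl⟩
  have hlA : l ∈ v.A := by rw [hl]; exact v.div_mem m3 hrs
  have hrl : v.r l = ((v.r x₁) ^ 2 + v.r x₁ * v.r x₂ + (v.r x₂) ^ 2 + (a : k)) /
      (v.r y₁ + v.r y₂) := by
    rw [hl, v.r_div m3 hrs, v.r_add hy₁ hy₂, v.r_add m2 ha, v.r_add m1 m22, v.r_add m11 m12,
      v.r_mul hx₁ hx₂, v.r_pow hx₁, v.r_pow hx₂, v.r_int]
  obtain ⟨x₃, hx₃⟩ : ∃ x₃ : K, x₃ = l ^ 2 - x₁ - x₂ := ⟨_, rfl⟩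
  obtain ⟨y₃, hy₃⟩ : ∃ y₃ : K, y₃ = -(l * (x₃ - x₁) + y₁) := ⟨_, rfl⟩
  have ml2 := v.A.pow_mem hlA 2
  have ml3 := v.A.sub_mem ml2 hx₁
  have hx₃A : x₃ ∈ v.A := by rw [hx₃]; exact v.A.sub_mem ml3 hx₂
  have md := v.A.sub_mem hx₃A hx₁
  have mld := v.A.mul_mem hlA md
  have mldy := v.A.add_mem mld hy₁
  have hy₃A : y₃ ∈ v.A := by rw [hy₃]; exact v.A.neg_mem mldy
  have hrx₃ : v.r x₃ = (v.r l) ^ 2 - v.r x₁ - v.r x₂ := by
    rw [hx₃, v.r_sub ml3 hx₂, v.r_sub ml2 hx₁, v.r_pow hlA]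
  have hry₃ : v.r y₃ = -(v.r l * (v.r x₃ - v.r x₁) + v.r y₁) := by
    rw [hy₃, v.r_neg mldy, v.r_add mld hy₁, v.r_mul hlA md, v.r_sub hx₃A hx₁]
  -- the sum in K
  have hK : ∃ h₃ : (CV (a : K) b).toAffine.Nonsingular x₃ y₃,
      (Affine.Point.some x₁ y₁ h₁ + Affine.Point.some x₂ y₂ h₂ : Pt (a : K) b) =
        Affine.Point.some x₃ y₃ h₃ := by
    by_cases hx : x₁ = x₂
    · have hy : y₁ = y₂ := by
        have h5 : (y₁ - y₂) * (y₁ + y₂) = 0 := by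
          have : (y₁ - y₂) * (y₁ + y₂) = y₁ ^ 2 - y₂ ^ 2 := by ring
          rw [this, E1, E2, hx, sub_self]
        rcases mul_eq_zero.1 h5 with h | h
        · exact sub_eq_zero.1 h
        · exact absurd h hs0
      refine add_dbl h₁ h₂ hx ?_ l x₃ y₃ ?_ hx₃ hy₃
      · intro h
        apply hs0
        rw [h]; ring
      · rw [hl, ← hx, ← hy]
        congr 1 <;> ring
    · refine add_ne h₁ h₂ hx l x₃ y₃ ?_ hx₃ hy₃
      have hxs : x₁ - x₂ ≠ 0 := sub_ne_zero.2 hx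
      rw [hl, div_eq_div_iff hs0 hxs]
      linear_combination E2 - E1
  -- the sum in k
  have hys : v.r y₁ + v.r y₂ ≠ 0 := by
    rw [← v.r_add hy₁ hy₂]; exact hrs
  have hy : v.r y₁ = v.r y₂ := by
    have h5 : (v.r y₁ - v.r y₂) * (v.r y₁ + v.r y₂) = 0 := by
      have : (v.r y₁ - v.r y₂) * (v.r y₁ + v.r y₂) = v.r y₁ ^ 2 - v.r y₂ ^ 2 := by ring
      rw [this, F1, F2, hrx, sub_self]
    rcases mul_eq_zero.1 h5 with h | h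
    · exact sub_eq_zero.1 h
    · exact absurd h hys
  have hk := add_dbl g₁ g₂ hrx hry (v.r l) (v.r x₃) (v.r y₃) (by
    rw [hrl, ← hrx, ← hy]
    congr 1 <;> ring) hrx₃ hry₃
  obtain ⟨h₃, e₃⟩ := hK
  obtain ⟨g₃, f₃⟩ := hk
  exact ⟨x₃, y₃, h₃, g₃, hx₃A, hy₃A, e₃, f₃⟩

end Pool.Agent.H901R3.MS
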