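import Mathlib
import Pool.Agent.H901R3.MS.Stm

set_option autoImplicit false

namespace Pool.Agent.H901R3.MS

open WeierstrassCurve

namespace W_R4

/-- the final contradiction -/
theorem fin {k : Type} [Field k] {a b X : k} (hD : Disc a b) (h1 : 3 * X ^ 2 + a = 0)
    (h2 : X ^ 3 + a * X + b = 0) : False := by
  apply hD
  have ha : a = -3 * X ^ 2 := by linear_combination h1
  have hb : b = 2 * X ^ 3 := by
    rw [ha] at h2
    linear_combination h2
  rw [ha, hb]; ring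

/-- `2` is not zero -/
theorem two_ne {k : Type} [Field k] {a b : k} (hD : Disc a b) : (2 : k) ≠ 0 := by
  intro h
  apply hD
  rw [h, zero_mul]

/-- residue of the equation -/
theorem r_eqn {K k : Type} [Field K] [Field k] (v : Place K k) (a b : ℤ) {x y : K}
    (h : Eqn (a : K) b x y) (hx : x ∈ v.A) (hy : y ∈ v.A) :
    v.r y ^ 2 = v.r x ^ 3 + (a : k) * v.r x + b := by
  unfold Eqn at h
  have h1 := congrArg v.r h
  have hax : (a : K) * x ∈ v.A := v.A.mul_mem (v.int_mem a) hx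
  have hx3 : x ^ 3 ∈ v.A := v.A.pow_mem hx 3
  rw [v.r_pow hy, v.r_add (v.A.add_mem hx3 hax) (v.int_mem b), v.r_add hx3 hax, v.r_pow hx,
    v.r_mul (v.int_mem a) hx, v.r_int, v.r_int] at h1
  exact h1

end W_R4

theorem t_R4 : R4 := by
  intro K k _ _ _ v a b hD x₁ y₁ x₂ y₂ h₁ h₂ hx₁ hy₁ hx₂ hy₂ hrx hry
  have e₁ := eqn_of h₁
  have e₂ := eqn_of h₂
  have r₁ := W_R4.r_eqn v a b e₁ hx₁ hy₁
  have h2 := W_R4.two_ne hD
  unfold Eqn at e₁ e₂
  by_cases hxx : x₁ = x₂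
  · by_cases hyy : y₁ = -y₂
    · exact Or.inl (add_opp h₁ h₂ hxx hyy)
    · right
      have hy12 : y₁ = y₂ := by
        have h3 : (y₁ - y₂) * (y₁ + y₂) = 0 := by
          rw [hxx] at e₁
          linear_combination e₁ - e₂
        rcases mul_eq_zero.1 h3 with h | h
        · exact sub_eq_zero.1 h
        · exact absurd (eq_neg_of_add_eq_zero_left h) hyy
      have h2y : 2 * y₁ ≠ 0 := by
        intro h
        apply hyy
        rw [← hy12]
        linear_combination h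
      obtain ⟨l, hl⟩ : ∃ l, l = (3 * x₁ ^ 2 + (a : K)) / (2 * y₁) := ⟨_, rfl⟩
      obtain ⟨h₃, hs⟩ := add_dbl h₁ h₂ hxx hyy l _ _ hl rfl rfl
      refine ⟨_, _, h₃, fun hx₃ => ?_, hs⟩
      have hl2 : l ^ 2 ∈ v.A := by
        have h4 := v.A.add_mem (v.A.add_mem hx₃ hx₁) hx₂
        have h5 : l ^ 2 - x₁ - x₂ + x₁ + x₂ = l ^ 2 := by ring
        rwa [h5] at h4
      have hlA : l ∈ v.A := v.mem_of_pow_mem (by norm_num) hl2
      have heq : (y₁ + y₁) * l = 3 * x₁ ^ 2 + (a : K) := by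
        rw [hl, ← two_mul, mul_div_cancel₀ _ h2y]
      have h3m : (3 : K) ∈ v.A := by
        have := v.int_mem 3
        simpa using this
      have h6 := congrArg v.r heq
      rw [v.r_mul (v.A.add_mem hy₁ hy₁) hlA, v.r_add hy₁ hy₁,
        v.r_add (v.A.mul_mem h3m (v.A.pow_mem hx₁ 2)) (v.int_mem a),
        v.r_mul h3m (v.A.pow_mem hx₁ 2), v.r_pow hx₁, v.r_int, v.r_three] at h6
      rw [← hy12] at hry
      have h7 : v.r y₁ = 0 := by
        have h8 : 2 * v.r y₁ = 0 := by linear_combination hry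
        exact (mul_eq_zero.1 h8).resolve_left h2
      rw [h7] at h6 r₁
      exact W_R4.fin (X := v.r x₁) hD (by linear_combination -h6) (by linear_combination -r₁)
  · right
    obtain ⟨l, hl⟩ : ∃ l, l = (y₁ - y₂) / (x₁ - x₂) := ⟨_, rfl⟩
    obtain ⟨h₃, hs⟩ := add_ne h₁ h₂ hxx l _ _ hl rfl rfl
    refine ⟨_, _, h₃, fun hx₃ => ?_, hs⟩
    have hl2 : l ^ 2 ∈ v.A := by
      have h4 := v.A.add_mem (v.A.add_mem hx₃ hx₁) hx₂
      have h5 : l ^ 2 - x₁ - x₂ + x₁ + x₂ = l ^ 2 := by ring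
      rwa [h5] at h4
    have hlA : l ∈ v.A := v.mem_of_pow_mem (by norm_num) hl2
    have hx0 : x₁ - x₂ ≠ 0 := sub_ne_zero.2 hxx
    have heq : y₁ - y₂ = l * (x₁ - x₂) := by
      rw [hl, div_mul_cancel₀ _ hx0]
    have h6 := congrArg v.r heq
    rw [v.r_sub hy₁ hy₂, v.r_mul hlA (v.A.sub_mem hx₁ hx₂), v.r_sub hx₁ hx₂, hrx, sub_self,
      mul_zero, hry] at h6
    have h7 : v.r y₂ = 0 := by
      have h8 : 2 * v.r y₂ = 0 := by linear_combination -h6
      exact (mul_eq_zero.1 h8).resolve_left h2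
    have h9 : v.r y₁ = 0 := by rw [hry, h7, neg_zero]
    have heq2 : l * (y₁ + y₂) = x₁ ^ 2 + x₁ * x₂ + x₂ ^ 2 + (a : K) := by
      apply mul_left_cancel₀ hx0
      linear_combination (-(y₁ + y₂)) * heq + e₁ - e₂
    have hxx2 : x₁ * x₂ ∈ v.A := v.A.mul_mem hx₁ hx₂
    have hx1s : x₁ ^ 2 ∈ v.A := v.A.pow_mem hx₁ 2
    have hx2s : x₂ ^ 2 ∈ v.A := v.A.pow_mem hx₂ 2
    have h10 := congrArg v.r heq2
    rw [v.r_mul hlA (v.A.add_mem hy₁ hy₂), v.r_add hy₁ hy₂, h7, h9,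
      v.r_add (v.A.add_mem (v.A.add_mem hx1s hxx2) hx2s) (v.int_mem a),
      v.r_add (v.A.add_mem hx1s hxx2) hx2s, v.r_add hx1s hxx2, v.r_mul hx₁ hx₂,
      v.r_pow hx₁, v.r_pow hx₂, v.r_int, ← hrx] at h10
    rw [h9] at r₁
    exact W_R4.fin (X := v.r x₁) hD (by linear_combination -h10) (by linear_combination -r₁)

end Pool.Agent.H901R3.MS
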