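import Pool.Agent.H901R3.MS.Stm

/-! Task R5 -/

set_option autoImplicit false

namespace Pool.Agent.H901R3.MS

open WeierstrassCurve

theorem t_R5 : R5 := by
  intro K k _ _ _ v a b x₁ y₁ x₂ y₂ h₁ h₂ hx₁ hx₂ hy₂
  have e1 := eqn_of h₁
  have e2 := eqn_of h₂
  unfold Eqn at e1 e2
  have hx0 : x₁ ≠ 0 := by
    rintro rfl
    exact hx₁ v.A.zero_mem
  have hs : x₁⁻¹ ∈ v.A := v.inv_mem_of_notMem hx₁
  have hrs : v.r x₁⁻¹ = 0 := v.r_inv_of_notMem hx₁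
  obtain ⟨s, hsdef⟩ : ∃ s, s = x₁⁻¹ := ⟨_, rfl⟩
  rw [← hsdef] at hs hrs
  have hxs : x₁ * s = 1 := by rw [hsdef]; exact mul_inv_cancel₀ hx0
  have ha := v.int_mem a
  have hb := v.int_mem b
  obtain ⟨U, hU⟩ : ∃ U, U = 1 + (a : K) * s ^ 2 + (b : K) * s ^ 3 := ⟨_, rfl⟩
  have m1 : (a : K) * s ^ 2 ∈ v.A := v.A.mul_mem ha (v.A.pow_mem hs 2)
  have m2 : (b : K) * s ^ 3 ∈ v.A := v.A.mul_mem hb (v.A.pow_mem hs 3)
  have m3 : 1 + (a : K) * s ^ 2 ∈ v.A := v.A.add_mem v.A.one_mem m1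
  have hUA : U ∈ v.A := by rw [hU]; exact v.A.add_mem m3 m2
  have hUr : v.r U = 1 := by
    rw [hU, v.r_add m3 m2, v.r_add v.A.one_mem m1, v.r_mul ha (v.A.pow_mem hs 2),
      v.r_mul hb (v.A.pow_mem hs 3), v.r_pow hs, v.r_pow hs, hrs, v.r_one]
    ring
  have hUr' : v.r U ≠ 0 := by rw [hUr]; exact one_ne_zero
  have hU0 : U ≠ 0 := v.ne_zero_of_r_ne hUr'
  -- `q = y₁ / x₁`
  have hq2 : (y₁ * s) ^ 2 = U * x₁ := by
    rw [mul_pow, e1, hU]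
    have h3 : x₁ ^ 3 * s ^ 2 = x₁ := by
      calc x₁ ^ 3 * s ^ 2 = x₁ * (x₁ * s) ^ 2 := by ring
        _ = x₁ := by rw [hxs]; ring
    calc (x₁ ^ 3 + (a : K) * x₁ + b) * s ^ 2 =
          x₁ ^ 3 * s ^ 2 + (a : K) * s ^ 2 * x₁ + b * s ^ 2 := by ring
      _ = x₁ + (a : K) * s ^ 2 * x₁ + b * s ^ 2 * (x₁ * s) := by rw [h3, hxs, mul_one]
      _ = (1 + (a : K) * s ^ 2 + (b : K) * s ^ 3) * x₁ := by ring
  have hqA : y₁ * s ∉ v.A := by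
    intro hq
    apply hx₁
    have h4 : x₁ = (y₁ * s) ^ 2 / U := by
      rw [hq2]
      field_simp
    rw [h4]
    exact v.div_mem (v.A.pow_mem hq 2) hUr'
  have hq0 : y₁ * s ≠ 0 := by
    intro h
    apply hqA
    rw [h]
    exact v.A.zero_mem
  have ht : (y₁ * s)⁻¹ ∈ v.A := v.inv_mem_of_notMem hqA
  have hys : y₁ * s ^ 2 = U * (y₁ * s)⁻¹ := by
    rw [eq_mul_inv_iff_mul_eq₀ hq0]
    calc y₁ * s ^ 2 * (y₁ * s) = (y₁ * s) ^ 2 * s := by ring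
      _ = U * x₁ * s := by rw [hq2]
      _ = U * (x₁ * s) := by ring
      _ = U := by rw [hxs, mul_one]
  have hysA : y₁ * s ^ 2 ∈ v.A := by rw [hys]; exact v.A.mul_mem hUA ht
  have hne : x₁ ≠ x₂ := by
    rintro rfl
    exact hx₁ hx₂
  obtain ⟨h₃, hsum⟩ := add_ne h₁ h₂ hne ((y₁ - y₂) / (x₁ - x₂)) _ _ rfl rfl rfl
  refine ⟨_, _, h₃, ?_, hsum⟩
  -- the denominator
  have m4 : x₂ * s ∈ v.A := v.A.mul_mem hx₂ hs
  have m5 : 1 - x₂ * s ∈ v.A := v.A.sub_mem v.A.one_mem m4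
  have hD : v.r ((1 - x₂ * s) ^ 2) ≠ 0 := by
    rw [v.r_pow m5, v.r_sub v.A.one_mem m4, v.r_mul hx₂ hs, hrs, mul_zero, sub_zero, v.r_one,
      one_pow]
    exact one_ne_zero
  have hD0 : (1 - x₂ * s) ≠ 0 := by
    intro h
    rw [h] at hD
    simp at hD
  have hN : x₂ * (1 + x₂ * s) + a * s * (1 + x₂ * s) + 2 * b * s ^ 2 - 2 * y₂ * (y₁ * s ^ 2)
      ∈ v.A := by
    have m6 : 1 + x₂ * s ∈ v.A := v.A.add_mem v.A.one_mem m4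
    have m7 : (2 : K) ∈ v.A := by exact_mod_cast v.nat_mem 2
    exact v.A.sub_mem (v.A.add_mem (v.A.add_mem (v.A.mul_mem hx₂ m6)
      (v.A.mul_mem (v.A.mul_mem ha hs) m6)) (v.A.mul_mem (v.A.mul_mem m7 hb) (v.A.pow_mem hs 2)))
      (v.A.mul_mem (v.A.mul_mem m7 hy₂) hysA)
  have hx12 : x₁ - x₂ ≠ 0 := sub_ne_zero.mpr hne
  have key : ((y₁ - y₂) / (x₁ - x₂)) ^ 2 - x₁ - x₂ =
      (x₂ * (1 + x₂ * s) + a * s * (1 + x₂ * s) + 2 * b * s ^ 2 - 2 * y₂ * (y₁ * s ^ 2)) /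
        (1 - x₂ * s) ^ 2 := by
    have h5 : (1 - x₂ * s) = s * (x₁ - x₂) := by
      rw [mul_sub, mul_comm s x₁, hxs]
      ring
    have hs0 : s ≠ 0 := by
      intro h
      rw [h, mul_zero] at hxs
      exact zero_ne_one hxs
    rw [h5, eq_div_iff (pow_ne_zero 2 (mul_ne_zero hs0 hx12))]
    have h6 : (((y₁ - y₂) / (x₁ - x₂)) ^ 2 - x₁ - x₂) * (s * (x₁ - x₂)) ^ 2 =
        s ^ 2 * ((y₁ - y₂) ^ 2 - (x₁ + x₂) * (x₁ - x₂) ^ 2) := by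
      field_simp
      ring
    rw [h6]
    linear_combination (s ^ 2) * e1 + (s ^ 2) * e2 +
      (x₂ * (x₁ * s + 1) + x₂ ^ 2 * s + a * s) * hxs
  rw [key]
  exact v.div_mem hN hD

end Pool.Agent.H901R3.MS
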