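import Pool.Agent.H901R3.MS.Stm

set_option autoImplicit false

namespace Pool.Agent.H901R3.MS

open WeierstrassCurve

theorem t_R7 : R7 := by
  intro hR1 K k _ _ v a b red hred P
  obtain ⟨h0, h1, h2⟩ := hred
  rcases P with _ | ⟨x, y, h⟩
  · refine ⟨1, one_ne_zero, fun j => ?_⟩
    rw [h0]
    fin_cases j
    · refine ⟨?_, ?_⟩
      · simp [rep]
      · simp [rep]
    · refine ⟨?_, ?_⟩
      · simpa [rep] using v.A.one_mem
      · simp [rep]
    · refine ⟨?_, ?_⟩
      · simp [rep]
      · simp [rep]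
  · have he : Eqn (a : K) b x y := eqn_of h
    by_cases hx : x ∈ v.A
    · obtain ⟨hy, g, hg⟩ := h2 x y h hx
      refine ⟨1, one_ne_zero, fun j => ?_⟩
      rw [hg]
      fin_cases j
      · refine ⟨?_, ?_⟩
        · simpa [rep] using hx
        · simp [rep]
      · refine ⟨?_, ?_⟩
        · simpa [rep] using hy
        · simp [rep]
      · refine ⟨?_, ?_⟩
        · simpa [rep] using v.A.one_mem
        · simp [rep]
    · obtain ⟨e1, e2, e3, e4, e5, e6, e7, e8⟩ := (hR1 K k v a b x y he).2 hx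
      refine ⟨y⁻¹, inv_ne_zero e2, fun j => ?_⟩
      rw [h1 x y h hx]
      have e5' : y⁻¹ * x ∈ v.A := by rwa [mul_comm, ← div_eq_mul_inv]
      have e6' : v.r (y⁻¹ * x) = 0 := by rwa [mul_comm, ← div_eq_mul_inv]
      fin_cases j
      · refine ⟨?_, ?_⟩
        · simpa [rep] using e5'
        · simpa [rep] using e6'
      · refine ⟨?_, ?_⟩
        · simpa [rep, inv_mul_cancel₀ e2] using v.A.one_mem
        · simp [rep, inv_mul_cancel₀ e2]
      · refine ⟨?_, ?_⟩
        · simpa [rep] using e7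
        · simpa [rep] using e8

end Pool.Agent.H901R3.MS
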