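import Pool.Agent.H901R3.MS.Stm

/-!
RES: choice of the residue class.
-/

set_option autoImplicit false

namespace Pool.Agent.H901R3.MS

theorem t_RES : RES := by
  intro r a b _ l hl h3
  by_cases h2 : l = 2
  · refine ⟨12, 11, by norm_num, by norm_num, fun p hp => ?_⟩
    refine ⟨fun i _ => by omega, fun i _ => by omega, Or.inl h2⟩
  by_cases h33 : l = 3
  · refine ⟨12, 7, by norm_num, by norm_num, fun p hp => ?_⟩
    refine ⟨fun i _ => by omega, fun i hi => absurd hi (h3 h33 i), Or.inr ?_⟩
    subst h33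
    omega
  have hl5 : 3 < l := by
    have := hl.two_le
    omega
  have hco : Nat.Coprime 12 l := by
    rw [Nat.coprime_comm, Nat.Prime.coprime_iff_not_dvd hl]
    intro hd
    have h12 : (12 : ℕ) = 2 * 2 * 3 := by norm_num
    rw [h12, hl.dvd_mul, hl.dvd_mul, Nat.prime_dvd_prime_iff_eq hl Nat.prime_two,
      Nat.prime_dvd_prime_iff_eq hl Nat.prime_three] at hd
    omega
  obtain ⟨u, hu1, hu2⟩ := Nat.chineseRemainder hco 11 1
  have hu12 : u % 12 = 11 := by
    have h := hu1
    unfold Nat.ModEq at h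
    omega
  have hul : u % l = 1 := by
    have h := hu2
    unfold Nat.ModEq at h
    rw [h]
    exact Nat.mod_eq_of_lt (by omega)
  refine ⟨12 * l, u, by omega, ?_, fun p hp => ?_⟩
  · apply Nat.Coprime.mul_right
    · have h1 : Nat.Coprime u 12 ↔ Nat.Coprime (u % 12) 12 := by
        unfold Nat.Coprime
        rw [Nat.gcd_comm, Nat.gcd_rec, Nat.gcd_comm]
      rw [h1, hu12]
      norm_num
    · have h1 : Nat.gcd l u = Nat.gcd (u % l) l := Nat.gcd_rec l u
      rw [hul, Nat.gcd_one_left] at h1
      rw [Nat.coprime_comm]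
      exact h1
  · have hp12 : p % 12 = 11 := by
      have h1 : p % (12 * l) % 12 = u % (12 * l) % 12 := by rw [hp]
      rw [Nat.mod_mul_right_mod, Nat.mod_mul_right_mod] at h1
      omega
    have hpl : p % l = 1 := by
      have h1 : p % (12 * l) % l = u % (12 * l) % l := by rw [hp]
      rw [Nat.mod_mul_left_mod, Nat.mod_mul_left_mod] at h1
      omega
    exact ⟨fun i _ => by omega, fun i _ => by omega, Or.inr hpl⟩

end Pool.Agent.H901R3.MS
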