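import Pool.Agent.H901R3.MS.Stm
import Pool.Agent.H442R2.KF.Bv
import Pool.Agent.Helper256.KM.Mertens

/-! Task SPL of project MS (helper901), by helper696. -/

set_option autoImplicit false

namespace Pool.Agent.H901R3.MS

namespace W_SPL

open Finset Pool.Agent.H442R2.KF

theorem piN_eq (y : ℕ) : Nat.primeCounting y = piN y := by
  unfold piN
  rw [Nat.primeCounting, Nat.primeCounting', Nat.count_eq_card_filter_range]
  congr 1
  ext p
  simp only [mem_filter, mem_range, mem_Icc]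
  constructor
  · rintro ⟨h1, h2⟩
    exact ⟨⟨h2.one_lt.le, by omega⟩, h2⟩
  · rintro ⟨⟨h1, h2⟩, h3⟩
    exact ⟨by omega, h3⟩

theorem exists_res (Q u : ℕ) (hQ : 1 ≤ Q) (hu : Nat.Coprime u Q) (d : ℕ) :
    ∃ a : ℕ, (1 ≤ d → Nat.Coprime a d) ∧ ∀ q : ℕ, q.Prime → Q < q → d = q * Q →
      (a ≡ u [MOD Q] ∧ a ≡ q - 1 [MOD q]) := by
  by_cases h : ∃ q : ℕ, q.Prime ∧ Q < q ∧ d = q * Q
  · obtain ⟨q, hq, hQq, hd⟩ := h
    have hco : Nat.Coprime Q q := by
      rw [Nat.coprime_comm, Nat.Prime.coprime_iff_not_dvd hq]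
      intro hdv
      exact absurd (Nat.le_of_dvd (by omega) hdv) (by omega)
    obtain ⟨a, ha1, ha2⟩ := Nat.chineseRemainder hco u (q - 1)
    refine ⟨a, fun _ => ?_, ?_⟩
    · rw [hd]
      refine Nat.Coprime.mul_right ?_ ?_
      · rw [Nat.coprime_iff_gcd_eq_one, ha2.gcd_eq]
        have h1 : Nat.Coprime (q - 1) (q - 1 + 1) := by
          rw [Nat.coprime_self_add_right]; exact Nat.coprime_one_right _
        rwa [Nat.sub_add_cancel hq.one_lt.le] at h1
      · rw [Nat.coprime_iff_gcd_eq_one, ha1.gcd_eq]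
        exact hu
    · intro q' _ _ hd'
      have : q = q' := by
        rw [hd] at hd'
        exact Nat.eq_of_mul_eq_mul_right (by omega) hd'
      subst this
      exact ⟨ha1, ha2⟩
  · refine ⟨1, fun _ => Nat.coprime_one_left d, ?_⟩
    intro q h1 h2 h3
    exact absurd ⟨q, h1, h2, h3⟩ h

theorem count_eq (Q u q a y : ℕ) (hq : q.Prime) (hQq : Q < q) (hQ : 1 ≤ Q)
    (ha1 : a ≡ u [MOD Q]) (ha2 : a ≡ q - 1 [MOD q]) :
    (((Icc 1 y).filter (fun p : ℕ => p.Prime ∧ p % Q = u % Q)).filter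
      (fun p => q ∣ p + 1)).card = piAP y (q * Q) a := by
  unfold piAP
  congr 1
  rw [filter_filter]
  apply filter_congr
  intro p _
  have hco : Nat.Coprime q Q := by
    rw [Nat.Prime.coprime_iff_not_dvd hq]
    intro hdv
    exact absurd (Nat.le_of_dvd (by omega) hdv) (by omega)
  have key : q ∣ p + 1 ↔ p ≡ q - 1 [MOD q] := by
    have h1 : q - 1 + 1 = q := Nat.sub_add_cancel hq.one_lt.le
    constructor
    · intro h
      have h2 : p + 1 ≡ (q - 1) + 1 [MOD q] := by
        rw [h1]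
        exact ((Nat.modEq_zero_iff_dvd.2 h).trans
          (Nat.modEq_zero_iff_dvd.2 (dvd_refl q)).symm)
      exact Nat.ModEq.add_right_cancel' 1 h2
    · intro h
      have h2 : p + 1 ≡ (q - 1) + 1 [MOD q] := h.add_right 1
      rw [h1] at h2
      exact Nat.modEq_zero_iff_dvd.1 (h2.trans (Nat.modEq_zero_iff_dvd.2 (dvd_refl q)))
  rw [← Nat.modEq_and_modEq_iff_modEq_mul hco]
  constructor
  · rintro ⟨⟨h1, h2⟩, h3⟩
    exact ⟨h1, (key.1 h3).trans ha2.symm, (show p ≡ u [MOD Q] from h2).trans ha1.symm⟩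
  · rintro ⟨h1, h2, h3⟩
    exact ⟨⟨h1, h3.trans ha1⟩, key.2 (h2.trans ha2)⟩

end W_SPL

open Finset Pool.Agent.H442R2.KF W_SPL in
theorem t_SPL : SPL := by
  intro Q u hQ hu
  obtain ⟨C1, hC1, hbv⟩ := bv (9 / 20) (by norm_num) 3
  obtain ⟨C2, hC2⟩ := Pool.Agent.Helper256.KM.mertens_log
  choose af haf1 haf2 using exists_res Q u hQ hu
  have hC2' : 0 ≤ C2 := (abs_nonneg _).trans (hC2 1 le_rfl)
  set C3 : ℝ := ∑ q ∈ (Icc 1 Q).filter Nat.Prime, Real.log q / q with hC3
  have hC3' : 0 ≤ C3 := sum_nonneg fun q hq => by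
    rw [mem_filter, mem_Icc] at hq
    exact div_nonneg (Real.log_nonneg (by exact_mod_cast hq.1.1)) (Nat.cast_nonneg _)
  have hQ' : (1:ℝ) ≤ Q := by exact_mod_cast hQ
  have hlQ : 0 ≤ Real.log (4 * Q) := Real.log_nonneg (by linarith)
  refine ⟨C1 + C2 + C3 + Real.log (4 * Q), fun y hy => ?_⟩
  set C : ℝ := C1 + C2 + C3 + Real.log (4 * Q) with hC
  have hy3 : (3:ℝ) ≤ y := by exact_mod_cast hy
  have hy0 : (0:ℝ) < y := by linarith
  have hlog1 : 1 ≤ Real.log y := TaskBV.log_ge_one hy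
  have hphi : (0:ℝ) < Nat.totient Q := by exact_mod_cast Nat.totient_pos.2 (by omega)
  set D : ℕ := ⌊(y : ℝ) ^ (9 / 20 : ℝ)⌋₊ with hD
  set Z : ℕ := D / Q with hZ
  have hDle : (D : ℝ) ≤ (y:ℝ) ^ (9 / 20 : ℝ) := Nat.floor_le (Real.rpow_nonneg hy0.le _)
  have hDlt : (y:ℝ) ^ (9 / 20 : ℝ) < D + 1 := Nat.lt_floor_add_one _
  have hy1 : (1:ℝ) ≤ (y:ℝ) ^ (9 / 20 : ℝ) := Real.one_le_rpow (by linarith) (by norm_num)
  have hD1 : 1 ≤ D := Nat.le_floor (by simpa using hy1)
  have hDH : D ≤ ⌊(y : ℝ) ^ (1 / 2 : ℝ)⌋₊ := by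
    apply Nat.floor_le_floor
    exact Real.rpow_le_rpow_of_exponent_le (by linarith) (by norm_num)
  have hlogD : Real.log ((y:ℝ) ^ (9 / 20 : ℝ)) = 9 / 20 * Real.log y := Real.log_rpow hy0 _
  set QQ : Finset ℕ := (Icc 1 Z).filter (fun q : ℕ => q.Prime ∧ Q < q) with hQQ
  set PP : Finset ℕ := (Icc 1 y).filter (fun p : ℕ => p.Prime ∧ p % Q = u % Q) with hPP
  have hlogq : ∀ q : ℕ, 1 ≤ q → 0 ≤ Real.log q := fun q hq =>
    Real.log_nonneg (by exact_mod_cast hq)
  have hpi : (0:ℝ) ≤ piN y := Nat.cast_nonneg _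
  have hnn : (0:ℝ) ≤ ∑ p ∈ PP,
      ∑ q ∈ (Finset.Icc 1 ⌊(y : ℝ) ^ (1 / 2 : ℝ)⌋₊).filter (fun q : ℕ => q.Prime ∧ q ∣ p + 1),
        Real.log q := by
    refine sum_nonneg fun p _ => sum_nonneg fun q hq => ?_
    rw [mem_filter, mem_Icc] at hq
    exact hlogq q hq.1.1
  rw [piN_eq]
  have hyl : 0 ≤ (y:ℝ) / Real.log y ^ 2 := by positivity
  have hC0 : 0 ≤ C := by rw [hC]; linarith
  by_cases hZ1 : 1 ≤ Z
  · -- main case
    have hZQ : Z * Q ≤ D := Nat.div_mul_le_self D Q
    have hZD : Z ≤ D := Nat.div_le_self D Q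
    have hstep1 : ∑ q ∈ QQ, Real.log q * (piAP y (q * Q) (af (q * Q)) : ℝ) ≤ ∑ p ∈ PP,
      ∑ q ∈ (Finset.Icc 1 ⌊(y : ℝ) ^ (1 / 2 : ℝ)⌋₊).filter (fun q : ℕ => q.Prime ∧ q ∣ p + 1),
        Real.log q := by
      have e1 : ∑ q ∈ QQ, Real.log q * (piAP y (q * Q) (af (q * Q)) : ℝ) =
          ∑ q ∈ QQ, ∑ p ∈ PP, if q ∣ p + 1 then Real.log q else 0 := by
        refine sum_congr rfl fun q hq => ?_
        rw [hQQ, mem_filter, mem_Icc] at hq
        obtain ⟨h1, h2⟩ := haf2 (q * Q) q hq.2.1 hq.2.2 rfl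
        rw [← count_eq Q u q (af (q * Q)) y hq.2.1 hq.2.2 hQ h1 h2]
        rw [← sum_filter, sum_const, nsmul_eq_mul, mul_comm]
      rw [e1, sum_comm]
      refine sum_le_sum fun p _ => ?_
      rw [← sum_filter]
      refine sum_le_sum_of_subset_of_nonneg ?_ ?_
      · intro q hq
        rw [mem_filter, hQQ, mem_filter, mem_Icc] at hq
        rw [mem_filter, mem_Icc]
        exact ⟨⟨hq.1.1.1, by omega⟩, hq.1.2.1, hq.2⟩
      · intro q hq _
        rw [mem_filter, mem_Icc] at hq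
        exact hlogq q hq.1.1
    have hstep2 : ∑ q ∈ QQ, (Real.log q * ((piN y : ℝ) / (Nat.totient Q * q)) -
        Real.log y * |Er y (q * Q) (af (q * Q))|) ≤
        ∑ q ∈ QQ, Real.log q * (piAP y (q * Q) (af (q * Q)) : ℝ) := by
      refine sum_le_sum fun q hq => ?_
      rw [hQQ, mem_filter, mem_Icc] at hq
      obtain ⟨⟨hq1, hqZ⟩, hqp, hQq⟩ := hq
      have hco : Nat.Coprime q Q := by
        rw [Nat.Prime.coprime_iff_not_dvd hqp]
        intro hdv
        exact absurd (Nat.le_of_dvd (by omega) hdv) (by omega)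
      have htot : (Nat.totient (q * Q) : ℝ) ≤ Nat.totient Q * q := by
        rw [Nat.totient_mul hco, Nat.totient_prime hqp]
        push_cast
        have : ((q - 1 : ℕ) : ℝ) ≤ q := by exact_mod_cast Nat.sub_le q 1
        nlinarith
      have htot0 : (0:ℝ) < Nat.totient (q * Q) := by
        exact_mod_cast Nat.totient_pos.2 (Nat.mul_pos (by omega) (by omega))
      have h1 : (piN y : ℝ) / (Nat.totient Q * q) ≤ (piN y : ℝ) / Nat.totient (q * Q) :=
        div_le_div_of_nonneg_left hpi htot0 htot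
      have h2 : (piN y : ℝ) / Nat.totient (q * Q) - |Er y (q * Q) (af (q * Q))| ≤
          piAP y (q * Q) (af (q * Q)) := by
        have := neg_abs_le (Er y (q * Q) (af (q * Q)))
        have e : Er y (q * Q) (af (q * Q)) = (piAP y (q * Q) (af (q * Q)) : ℝ) -
          (piN y : ℝ) / Nat.totient (q * Q) := rfl
        rw [e] at this ⊢
        linarith
      have hlq := hlogq q hq1
      have hlqy : Real.log q ≤ Real.log y := by
        apply Real.log_le_log (by exact_mod_cast hq1)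
        have h3 : (q:ℝ) ≤ D := by exact_mod_cast (hqZ.trans hZD)
        have h4 : (y:ℝ) ^ (9 / 20 : ℝ) ≤ y := by
          conv_rhs => rw [← Real.rpow_one (y:ℝ)]
          exact Real.rpow_le_rpow_of_exponent_le (by linarith) (by norm_num)
        linarith
      have h5 := mul_le_mul_of_nonneg_left h1 hlq
      have h6 := mul_le_mul_of_nonneg_left h2 hlq
      have h7 := mul_le_mul_of_nonneg_right hlqy (abs_nonneg (Er y (q * Q) (af (q * Q))))
      linarith
    have hstep3 : ∑ q ∈ QQ, |Er y (q * Q) (af (q * Q))| ≤ C1 * (y / Real.log y ^ 3) := by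
      refine le_trans ?_ (hbv y hy af (fun d hd => haf1 d hd))
      have hinj : Set.InjOn (fun q : ℕ => q * Q) (QQ : Set ℕ) := by
        intro q _ q' _ h
        exact Nat.eq_of_mul_eq_mul_right (by omega) h
      rw [← sum_image (f := fun d => |Er y d (af d)|) hinj]
      refine sum_le_sum_of_subset_of_nonneg ?_ (fun _ _ _ => abs_nonneg _)
      intro d hd
      rw [mem_image] at hd
      obtain ⟨q, hq, rfl⟩ := hd
      rw [hQQ, mem_filter, mem_Icc] at hq
      rw [mem_Icc]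
      refine ⟨Nat.mul_pos (by omega) (by omega), ?_⟩
      exact (Nat.mul_le_mul_right Q hq.1.2).trans hZQ
    have hstep4 : Real.log Z - C2 - C3 ≤ ∑ q ∈ QQ, Real.log q / q := by
      have h1 := (abs_le.1 (hC2 Z hZ1)).1
      have h2 : ∑ p ∈ (Finset.Icc 1 Z).filter Nat.Prime, Real.log p / p ≤
          ∑ q ∈ QQ, Real.log q / q + C3 := by
        rw [← sum_filter_add_sum_filter_not ((Finset.Icc 1 Z).filter Nat.Prime)
          (fun q => Q < q)]
        refine add_le_add ?_ ?_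
        · rw [filter_filter]
        · rw [hC3]
          refine sum_le_sum_of_subset_of_nonneg ?_ ?_
          · intro q hq
            rw [mem_filter, mem_filter, mem_Icc] at hq
            rw [mem_filter, mem_Icc]
            exact ⟨⟨hq.1.1.1, by omega⟩, hq.1.2⟩
          · intro q hq _
            rw [mem_filter, mem_Icc] at hq
            exact div_nonneg (hlogq q hq.1.1) (Nat.cast_nonneg _)
      linarith
    have hlogZ : 9 / 20 * Real.log y - Real.log (4 * Q) ≤ Real.log Z := by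
      have hZ1' : (1:ℝ) ≤ Z := by exact_mod_cast hZ1
      have hD1' : (1:ℝ) ≤ D := by exact_mod_cast hD1
      have h1 : (D:ℝ) < (Z + 1) * Q := by
        have h2 : D < (Z + 1) * Q := by
          rw [hZ]
          have := Nat.lt_div_mul_add (a := D) (b := Q) (by omega)
          rw [Nat.add_mul, one_mul]
          exact this
        exact_mod_cast h2
      have h2 : (y:ℝ) ^ (9 / 20 : ℝ) ≤ 4 * Q * Z := by nlinarith
      have h3 := Real.log_le_log (by linarith) h2
      rw [hlogD, Real.log_mul (by positivity) (by positivity)] at h3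
      linarith
    -- final computation
    have e2 : ∑ q ∈ QQ, (Real.log q * ((piN y : ℝ) / (Nat.totient Q * q)) -
        Real.log y * |Er y (q * Q) (af (q * Q))|) =
        (1 / (Nat.totient Q : ℝ)) * piN y * ∑ q ∈ QQ, Real.log q / q -
          Real.log y * ∑ q ∈ QQ, |Er y (q * Q) (af (q * Q))| := by
      rw [sum_sub_distrib, ← mul_sum]
      congr 1
      rw [mul_sum]
      refine sum_congr rfl fun q hq => ?_
      rw [hQQ, mem_filter, mem_Icc] at hq
      have : (q:ℝ) ≠ 0 := by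
        have : 1 ≤ q := hq.1.1
        positivity
      field_simp
    rw [e2] at hstep2
    have hA : 0 ≤ (1 / (Nat.totient Q : ℝ)) * piN y := by positivity
    have h8 : (1 / (Nat.totient Q : ℝ)) * piN y * (2 / 5 * Real.log y - C) ≤
        (1 / (Nat.totient Q : ℝ)) * piN y * ∑ q ∈ QQ, Real.log q / q := by
      apply mul_le_mul_of_nonneg_left _ hA
      rw [hC]
      linarith
    have h9 : Real.log y * ∑ q ∈ QQ, |Er y (q * Q) (af (q * Q))| ≤
        C * (y / Real.log y ^ 2) := by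
      have h10 := mul_le_mul_of_nonneg_left hstep3 (by linarith : (0:ℝ) ≤ Real.log y)
      have h11 : Real.log y * (C1 * (y / Real.log y ^ 3)) = C1 * (y / Real.log y ^ 2) := by
        have : Real.log y ≠ 0 := by linarith
        field_simp
      have h12 : C1 * (y / Real.log y ^ 2) ≤ C * (y / Real.log y ^ 2) :=
        mul_le_mul_of_nonneg_right (by rw [hC]; linarith) hyl
      linarith
    linarith
  · -- small case
    have hDQ : D < Q := by
      by_contra h
      push Not at h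
      exact hZ1 ((Nat.one_le_div_iff (by omega)).2 h)
    have h1 : (y:ℝ) ^ (9 / 20 : ℝ) ≤ 4 * Q := by
      have : (D:ℝ) + 1 ≤ Q := by exact_mod_cast hDQ
      linarith
    have h2 := Real.log_le_log (by linarith) h1
    rw [hlogD] at h2
    have h3 : 2 / 5 * Real.log y - C ≤ 0 := by rw [hC]; linarith
    have h4 : (1 / (Nat.totient Q : ℝ)) * piN y * (2 / 5 * Real.log y - C) ≤ 0 :=
      mul_nonpos_of_nonneg_of_nonpos (by positivity) h3
    have h5 : 0 ≤ C * (y / Real.log y ^ 2) := mul_nonneg hC0 hyl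
    linarith

end Pool.Agent.H901R3.MS
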