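import Mathlib
import Pool.Agent.H901R3.MS.Stm
import Pool.Agent.H442R2.KF.Bv

/-!
Project MS (helper901), task SPQ: primes in a fixed progression.
-/

set_option autoImplicit false

namespace Pool.Agent.H901R3.MS.W_SPQ

open Finset Pool.Agent.H442R2.KF

theorem piN_eq (y : ℕ) : piN y = Nat.primeCounting y := by
  unfold piN
  rw [Nat.primeCounting, Nat.primeCounting', Nat.count_eq_card_filter_range]
  congr 1
  ext p
  simp only [mem_filter, mem_Icc, mem_range]
  constructor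
  · rintro ⟨⟨h1, h2⟩, h3⟩
    exact ⟨by omega, h3⟩
  · rintro ⟨h1, h3⟩
    exact ⟨⟨h3.one_le, by omega⟩, h3⟩

theorem piAP_le (y Q u : ℕ) : piAP y Q u ≤ y := by
  unfold piAP
  refine (card_filter_le _ _).trans ?_
  rw [Nat.card_Icc]
  omega

end Pool.Agent.H901R3.MS.W_SPQ

namespace Pool.Agent.H901R3.MS

open Finset Pool.Agent.H442R2.KF W_SPQ

theorem t_SPQ : SPQ := by
  intro Q u hQ hu
  obtain ⟨C0, hC0, hbv⟩ := bv (2 / 5) (by norm_num) 3
  set M : ℝ := (Q : ℝ) ^ 3 with hM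
  refine ⟨max C0 ((Real.log M) ^ 3), fun y hy => ?_⟩
  have hy3 : (3 : ℝ) ≤ y := by exact_mod_cast hy
  have hy0 : (0 : ℝ) < y := by linarith
  have hly : 0 < Real.log y := Real.log_pos (by linarith)
  have hyl : 0 < (y : ℝ) / (Real.log y) ^ 3 := by positivity
  have hlhs : (((Finset.Icc 1 y).filter (fun p : ℕ => p.Prime ∧ p % Q = u % Q)).card : ℝ) =
      (piAP y Q u : ℝ) := rfl
  rw [hlhs, ← piN_eq]
  have htot : (0 : ℝ) < Nat.totient Q := by exact_mod_cast Nat.totient_pos.2 hQ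
  by_cases hbig : (Q : ℝ) ≤ (y : ℝ) ^ (2 / 5 : ℝ)
  · have h1 := hbv y hy (fun d => if d = Q then u else 1) (by
      intro d _
      by_cases hd : d = Q
      · subst hd
        simpa using hu
      · simp [hd])
    have hmem : Q ∈ Icc 1 ⌊(y : ℝ) ^ (2 / 5 : ℝ)⌋₊ := by
      rw [mem_Icc]
      exact ⟨hQ, Nat.le_floor hbig⟩
    have h2 : |Er y Q u| ≤ C0 * ((y : ℝ) / Real.log y ^ 3) := by
      refine le_trans ?_ h1
      have h3 := Finset.single_le_sum (f := fun d => |Er y d (if d = Q then u else 1)|)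
        (fun d _ => abs_nonneg _) hmem
      simpa using h3
    have h4 : (piAP y Q u : ℝ) - (piN y : ℝ) / (Nat.totient Q : ℝ) ≤
        C0 * ((y : ℝ) / Real.log y ^ 3) := (le_abs_self _).trans h2
    have h5 : C0 * ((y : ℝ) / Real.log y ^ 3) ≤
        max C0 ((Real.log M) ^ 3) * ((y : ℝ) / Real.log y ^ 3) :=
      mul_le_mul_of_nonneg_right (le_max_left _ _) hyl.le
    have h6 : (1 / (Nat.totient Q : ℝ)) * (piN y : ℝ) = (piN y : ℝ) / (Nat.totient Q : ℝ) := by
      ring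
    rw [h6]
    linarith
  · push Not at hbig
    have hyM : (y : ℝ) ≤ M := by
      have h1 : ((y : ℝ) ^ (2 / 5 : ℝ)) ^ (5 / 2 : ℝ) ≤ (Q : ℝ) ^ (5 / 2 : ℝ) :=
        Real.rpow_le_rpow (by positivity) hbig.le (by norm_num)
      rw [← Real.rpow_mul hy0.le] at h1
      have h2 : (2 / 5 : ℝ) * (5 / 2) = 1 := by norm_num
      rw [h2, Real.rpow_one] at h1
      refine h1.trans ?_
      rw [hM, ← Real.rpow_natCast]
      refine Real.rpow_le_rpow_of_exponent_le (by exact_mod_cast hQ) (by norm_num)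
    have hlog : Real.log y ≤ Real.log M := Real.log_le_log hy0 hyM
    have h1 : (piAP y Q u : ℝ) ≤ y := by exact_mod_cast piAP_le y Q u
    have h2 : (y : ℝ) = (Real.log y) ^ 3 * ((y : ℝ) / (Real.log y) ^ 3) := by
      field_simp
    have h3 : (y : ℝ) ≤ max C0 ((Real.log M) ^ 3) * ((y : ℝ) / (Real.log y) ^ 3) := by
      calc (y : ℝ) = (Real.log y) ^ 3 * ((y : ℝ) / (Real.log y) ^ 3) := h2
        _ ≤ (Real.log M) ^ 3 * ((y : ℝ) / (Real.log y) ^ 3) := by gcongr
        _ ≤ _ := mul_le_mul_of_nonneg_right (le_max_right _ _) hyl.le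
    have h4 : 0 ≤ (1 / (Nat.totient Q : ℝ)) * (piN y : ℝ) := by positivity
    linarith

end Pool.Agent.H901R3.MS
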