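import Pool.Agent.H901R3.MS.Stm

set_option autoImplicit false

namespace Pool.Agent.H901R3.MS

namespace W_SPU

theorem sumlog (F : Finset ℕ) (hF : ∀ q ∈ F, q.Prime) :
    ∑ q ∈ F, Real.log q = Real.log ((∏ q ∈ F, q : ℕ) : ℝ) := by
  rw [Nat.cast_prod, Real.log_prod]
  intro q hq
  have := (hF q hq).pos
  positivity

theorem main (F : Finset ℕ) (n : ℕ) (hn : 1 ≤ n) (hF : ∀ q ∈ F, q.Prime) (hd : ∀ q ∈ F, q ∣ n) :
    ∑ q ∈ F, Real.log q ≤ Real.log n := by
  rw [sumlog F hF]
  have h1 : (∏ q ∈ F, q) ∣ n :=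
    Finset.prod_primes_dvd n (fun q hq => (hF q hq).prime) hd
  have h2 : (∏ q ∈ F, q) ≤ n := Nat.le_of_dvd hn h1
  have h3 : 0 < (∏ q ∈ F, q) := Finset.prod_pos fun q hq => (hF q hq).pos
  apply Real.log_le_log
  · exact_mod_cast h3
  · exact_mod_cast h2

end W_SPU

theorem t_SPU : SPU := by
  intro n z hn
  refine ⟨?_, ?_⟩
  · apply W_SPU.main _ n hn
    · intro q hq; exact (Finset.mem_filter.1 hq).2.1
    · intro q hq; exact (Finset.mem_filter.1 hq).2.2
  · intro q' hq' hd hz
    classical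
    have h := W_SPU.main
      (insert q' ((Finset.Icc 1 z).filter (fun q : ℕ => q.Prime ∧ q ∣ n))) n hn (by
        intro q hq
        rcases Finset.mem_insert.1 hq with h | h
        · rw [h]; exact hq'
        · exact (Finset.mem_filter.1 h).2.1) (by
        intro q hq
        rcases Finset.mem_insert.1 hq with h | h
        · rw [h]; exact hd
        · exact (Finset.mem_filter.1 h).2.2)
    rw [Finset.sum_insert] at h
    · linarith
    · intro h
      have := (Finset.mem_Icc.1 (Finset.mem_filter.1 h).1).2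
      omega

end Pool.Agent.H901R3.MS
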