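import Mathlib
import Pool.Agent.H901R3.MS.Stm

/-!
Project MS, task SPX: assembly of smooth shifted primes.
-/

set_option autoImplicit false

namespace Pool.Agent.H901R3.MS.W_SPX

open Pool.Agent.H901R3.MS

/-- Chebyshev lower bound -/
theorem pi_lower (y : ℕ) (hy : 16 ≤ y) :
    (1 / 2 : ℝ) * (y / Real.log y) ≤ (Nat.primeCounting y : ℝ) := by
  have hyR : (16 : ℝ) ≤ y := by exact_mod_cast hy
  have hlog : 0 < Real.log y := Real.log_pos (by linarith)
  have h1 := Chebyshev.pi_ge y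
  refine le_trans ?_ h1
  have h2 : Real.log ((y : ℝ) + 1) ≤ y / 16 + 2 := by
    have h3 : Real.log (((y : ℝ) + 1) / 16) ≤ ((y : ℝ) + 1) / 16 - 1 :=
      Real.log_le_sub_one_of_pos (by positivity)
    have h4 : Real.log (((y : ℝ) + 1) / 16) = Real.log ((y : ℝ) + 1) - Real.log 16 :=
      Real.log_div (by positivity) (by norm_num)
    have h5 : Real.log 16 = 4 * Real.log 2 := by
      rw [show (16 : ℝ) = 2 ^ 4 by norm_num, Real.log_pow]; norm_num
    have h6 := Real.log_two_lt_d9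
    rw [h4, h5] at h3
    linarith
  have h7 := Real.log_two_gt_d9
  rw [← mul_div_assoc]
  apply div_le_div_of_nonneg_right _ hlog.le
  nlinarith

theorem main : SPX := by
  intro hSPL hSPQ hSPU Q u hQ hu
  obtain ⟨C₁, hC₁⟩ := hSPL Q u hQ hu
  obtain ⟨C₂, hC₂⟩ := hSPQ Q u hQ hu
  set C : ℝ := max (max C₁ C₂) 0 with hC
  have hCC₁ : C₁ ≤ C := le_trans (le_max_left _ _) (le_max_left _ _)
  have hCC₂ : C₂ ≤ C := le_trans (le_max_right _ _) (le_max_left _ _)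
  have hC0 : 0 ≤ C := le_max_right _ _
  have hφ : (0 : ℝ) < (Nat.totient Q : ℝ) := by
    exact_mod_cast Nat.totient_pos.2 hQ
  set φ : ℝ := (Nat.totient Q : ℝ) with hφdef
  refine ⟨1 / (30 * φ), by positivity, ⌈Real.exp (20 * (C + 1) + 120 * C * φ)⌉₊ + 16, ?_⟩
  intro y hy
  have hy16 : 16 ≤ y := by omega
  have hyR : (16 : ℝ) ≤ y := by exact_mod_cast hy16
  have hyexp : Real.exp (20 * (C + 1) + 120 * C * φ) ≤ y := by
    have h1 : ⌈Real.exp (20 * (C + 1) + 120 * C * φ)⌉₊ ≤ y := by omega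
    exact (Nat.le_ceil _).trans (by exact_mod_cast h1)
  have hlogge : 20 * (C + 1) + 120 * C * φ ≤ Real.log y := by
    rw [Real.le_log_iff_exp_le (by linarith)]
    exact hyexp
  have hCφ : 0 ≤ 120 * C * φ := by positivity
  have hlog1 : 1 ≤ Real.log y := by nlinarith
  set ℓ : ℝ := Real.log y with hℓ
  have hℓpos : 0 < ℓ := by linarith
  -- the sets
  set P : Finset ℕ := (Finset.Icc 1 y).filter (fun p : ℕ => p.Prime ∧ p % Q = u % Q) with hP
  set z : ℕ := ⌊(y : ℝ) ^ (1 / 2 : ℝ)⌋₊ with hz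
  set z' : ℕ := ⌊(y : ℝ) ^ (3 / 4 : ℝ)⌋₊ with hz'
  have hzz' : z ≤ z' := by
    apply Nat.floor_mono
    exact Real.rpow_le_rpow_of_exponent_le (by linarith) (by norm_num)
  have hlogy1 : Real.log ((y : ℝ) + 1) ≤ ℓ + 1 := by
    have h1 : Real.log ((y : ℝ) + 1) ≤ Real.log (2 * y) :=
      Real.log_le_log (by positivity) (by linarith)
    rw [Real.log_mul (by norm_num) (by positivity)] at h1
    have := Real.log_two_lt_d9
    linarith
  have hsum : ∑ p ∈ P, ∑ q ∈ (Finset.Icc 1 z).filter (fun q : ℕ => q.Prime ∧ q ∣ p + 1), Real.log q ≤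
      (P.card : ℝ) * (1 / 4 * ℓ + 1) + ((GoodP Q u y).card : ℝ) * (3 / 4 * ℓ) := by
    classical
    have hsub : GoodP Q u y ⊆ P := by
      intro p hp
      simp only [GoodP, Finset.mem_filter] at hp
      simp only [hP, Finset.mem_filter]
      exact ⟨hp.1, hp.2.1, hp.2.2.1⟩
    have hpt : ∀ p ∈ P, ∑ q ∈ (Finset.Icc 1 z).filter (fun q : ℕ => q.Prime ∧ q ∣ p + 1), Real.log q ≤
        (1 / 4 * ℓ + 1) + (if p ∈ GoodP Q u y then 3 / 4 * ℓ else 0) := by
      intro p hp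
      have hp' := hp
      simp only [hP, Finset.mem_filter, Finset.mem_Icc] at hp'
      have hple : ((p : ℝ) + 1) ≤ y + 1 := by
        have : (p : ℝ) ≤ y := by exact_mod_cast hp'.1.2
        linarith
      have hlogp : Real.log ((p + 1 : ℕ) : ℝ) ≤ ℓ + 1 := by
        push_cast
        exact le_trans (Real.log_le_log (by positivity) hple) hlogy1
      obtain ⟨hU1, hU2⟩ := hSPU (p + 1) z (by omega)
      split_ifs with hgood
      · linarith
      · have : ∃ q : ℕ, q.Prime ∧ q ∣ p + 1 ∧ z' < q := by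
          by_contra hcon
          push Not at hcon
          apply hgood
          simp only [GoodP, Finset.mem_filter, Finset.mem_Icc]
          exact ⟨hp'.1, hp'.2.1, hp'.2.2, fun q hq hqd => hcon q hq hqd⟩
        obtain ⟨q', hq', hqd, hlt⟩ := this
        have h3 := hU2 q' hq' hqd (lt_of_le_of_lt hzz' hlt)
        have h4 : (y : ℝ) ^ (3 / 4 : ℝ) ≤ q' := by
          have := Nat.lt_of_floor_lt hlt
          exact this.le
        have h5 : 3 / 4 * ℓ ≤ Real.log q' := by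
          have h6 : Real.log ((y : ℝ) ^ (3 / 4 : ℝ)) = 3 / 4 * ℓ := by
            rw [Real.log_rpow (by linarith)]
          rw [← h6]
          exact Real.log_le_log (by positivity) h4
        linarith
    calc ∑ p ∈ P, ∑ q ∈ (Finset.Icc 1 z).filter (fun q : ℕ => q.Prime ∧ q ∣ p + 1), Real.log q
        ≤ ∑ p ∈ P, ((1 / 4 * ℓ + 1) + (if p ∈ GoodP Q u y then 3 / 4 * ℓ else 0)) :=
          Finset.sum_le_sum hpt
      _ = (P.card : ℝ) * (1 / 4 * ℓ + 1) + ((GoodP Q u y).card : ℝ) * (3 / 4 * ℓ) := by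
          rw [Finset.sum_add_distrib, Finset.sum_const, nsmul_eq_mul, ← Finset.sum_filter]
          congr 1
          rw [Finset.filter_mem_eq_inter, Finset.inter_eq_right.2 hsub, Finset.sum_const,
            nsmul_eq_mul]
  have hlow := hC₁ y (by omega)
  have hN := hC₂ y (by omega)
  have hpi := pi_lower y hy16
  set π' : ℝ := (Nat.primeCounting y : ℝ) with hπ'
  have hπ0 : 0 ≤ π' := by positivity
  set G : ℝ := ((GoodP Q u y).card : ℝ) with hG
  set N : ℝ := (P.card : ℝ) with hNdef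
  have hN0 : 0 ≤ N := by positivity
  have hℓ2 : 0 < ℓ ^ 2 := by positivity
  have hyℓ2 : 0 ≤ (y : ℝ) / ℓ ^ 2 := by positivity
  have hyℓ3 : 0 ≤ (y : ℝ) / ℓ ^ 3 := by positivity
  -- lower bound with C
  have hlow' : (1 / φ) * π' * (2 / 5 * ℓ - C) - C * (y / ℓ ^ 2) ≤
      N * (1 / 4 * ℓ + 1) + G * (3 / 4 * ℓ) := by
    have ha : (1 / φ) * π' * (2 / 5 * ℓ - C) ≤ (1 / φ) * π' * (2 / 5 * ℓ - C₁) :=
      mul_le_mul_of_nonneg_left (by linarith) (by positivity)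
    have hb : C₁ * ((y : ℝ) / ℓ ^ 2) ≤ C * (y / ℓ ^ 2) := mul_le_mul_of_nonneg_right hCC₁ hyℓ2
    linarith [hlow, hsum]
  have hN' : N ≤ (1 / φ) * π' + C * (y / ℓ ^ 3) := by
    have hb : C₂ * ((y : ℝ) / ℓ ^ 3) ≤ C * (y / ℓ ^ 3) := mul_le_mul_of_nonneg_right hCC₂ hyℓ3
    linarith [hN]
  have hN'' : N * (1 / 4 * ℓ + 1) ≤ (1 / φ) * π' * (1 / 4 * ℓ + 1) + 5 / 4 * C * (y / ℓ ^ 2) := by
    have h1 : N * (1 / 4 * ℓ + 1) ≤ ((1 / φ) * π' + C * (y / ℓ ^ 3)) * (1 / 4 * ℓ + 1) :=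
      mul_le_mul_of_nonneg_right hN' (by positivity)
    have h2 : C * ((y : ℝ) / ℓ ^ 3) * (1 / 4 * ℓ + 1) ≤ C * (y / ℓ ^ 3) * (5 / 4 * ℓ) :=
      mul_le_mul_of_nonneg_left (by linarith) (by positivity)
    have h3 : C * ((y : ℝ) / ℓ ^ 3) * (5 / 4 * ℓ) = 5 / 4 * C * (y / ℓ ^ 2) := by
      field_simp
      try ring
    calc N * (1 / 4 * ℓ + 1) ≤ ((1 / φ) * π' + C * (y / ℓ ^ 3)) * (1 / 4 * ℓ + 1) := h1
      _ = (1 / φ) * π' * (1 / 4 * ℓ + 1) + C * (y / ℓ ^ 3) * (1 / 4 * ℓ + 1) := by ring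
      _ ≤ _ := by rw [← h3]; linarith
  -- main lower bound
  have hmain1 : (1 / φ) * π' * (1 / 10 * ℓ) - 3 * C * (y / ℓ ^ 2) ≤ G * (3 / 4 * ℓ) := by
    have h1 : (1 / φ) * π' * (1 / 10 * ℓ) ≤
        (1 / φ) * π' * (2 / 5 * ℓ - C) - (1 / φ) * π' * (1 / 4 * ℓ + 1) := by
      rw [← mul_sub]
      exact mul_le_mul_of_nonneg_left (by nlinarith) (by positivity)
    have h2 : 0 ≤ C * ((y : ℝ) / ℓ ^ 2) := by positivity
    linarith
  have hmain2 : (1 / (20 * φ)) * y ≤ (1 / φ) * π' * (1 / 10 * ℓ) := by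
    have h1 : (1 / φ) * (1 / 2 * (y / ℓ)) * (1 / 10 * ℓ) ≤ (1 / φ) * π' * (1 / 10 * ℓ) := by
      apply mul_le_mul_of_nonneg_right _ (by positivity)
      exact mul_le_mul_of_nonneg_left hpi (by positivity)
    have h2 : (1 / φ) * (1 / 2 * ((y : ℝ) / ℓ)) * (1 / 10 * ℓ) = (1 / (20 * φ)) * y := by
      field_simp; norm_num
    linarith
  have hmain3 : 3 * C * ((y : ℝ) / ℓ ^ 2) ≤ (1 / (40 * φ)) * y := by
    rw [← mul_div_assoc, div_le_iff₀ hℓ2]
    have h1 : 120 * C * φ ≤ ℓ ^ 2 := by nlinarith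
    have h2 : 3 * C = (1 / (40 * φ)) * (120 * C * φ) := by field_simp; ring
    rw [h2]
    have h3 : 0 ≤ 1 / (40 * φ) * (y : ℝ) := by positivity
    nlinarith
  have hmain : (1 / (40 * φ)) * y ≤ G * (3 / 4 * ℓ) := by
    have h1 : (1 / (20 * φ)) * (y : ℝ) = 2 * ((1 / (40 * φ)) * y) := by field_simp; norm_num
    linarith
  have hfin : 1 / (30 * φ) * ((y : ℝ) / ℓ) = (1 / (40 * φ)) * y * (4 / (3 * ℓ)) := by
    field_simp; norm_num
  rw [hfin]
  calc (1 / (40 * φ)) * (y : ℝ) * (4 / (3 * ℓ)) ≤ G * (3 / 4 * ℓ) * (4 / (3 * ℓ)) :=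
        mul_le_mul_of_nonneg_right hmain (by positivity)
    _ = G := by field_simp

end Pool.Agent.H901R3.MS.W_SPX

namespace Pool.Agent.H901R3.MS

theorem t_SPX : SPX := W_SPX.main

end Pool.Agent.H901R3.MS
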