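import Pool.Agent.H901R3.MS.Stm

/-!
Project MS (helper901), task Z0: assembly of the sieve inequality.
-/

set_option autoImplicit false

namespace Pool.Agent.H901R3.MS

open WeierstrassCurve

namespace W_Z0

theorem disc_rat {a b : ℤ} (h : CMt a b) : Disc (a : ℚ) (b : ℚ) := by
  unfold Disc
  rcases h with ⟨hb, ha⟩ | ⟨ha, hb⟩
  · subst hb
    have h1 : (a : ℚ) ≠ 0 := by exact_mod_cast ha
    push_cast
    have h2 : (a : ℚ) ^ 3 ≠ 0 := pow_ne_zero _ h1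
    intro h3
    apply h2
    linarith
  · subst ha
    have h1 : (b : ℚ) ≠ 0 := by exact_mod_cast hb
    push_cast
    have h2 : (b : ℚ) ^ 2 ≠ 0 := pow_ne_zero _ h1
    intro h3
    apply h2
    linarith

theorem cast_ne {p : ℕ} {a : ℤ} (ha : a ≠ 0) (hp : a.natAbs < p) : (a : ZMod p) ≠ 0 := by
  intro h
  rw [ZMod.intCast_zmod_eq_zero_iff_dvd] at h
  have h1 := Int.natAbs_dvd_natAbs.2 h
  rw [Int.natAbs_natCast] at h1
  have h2 := Nat.le_of_dvd (Int.natAbs_pos.2 ha) h1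
  omega

theorem disc_zmod {p : ℕ} [Fact p.Prime] {a b : ℤ} (h : CMt a b) (hp : 5 ≤ p)
    (ha : a.natAbs < p) (hb : b.natAbs < p) : Disc (a : ZMod p) (b : ZMod p) := by
  have h2 : (2 : ZMod p) ≠ 0 := by
    have := @cast_ne p 2 (by norm_num) (by norm_num; omega)
    simpa using this
  have h3 : (3 : ZMod p) ≠ 0 := by
    have := @cast_ne p 3 (by norm_num) (by norm_num; omega)
    simpa using this
  unfold Disc
  rcases h with ⟨hb0, ha0⟩ | ⟨ha0, hb0⟩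
  · subst hb0
    have h1 : (a : ZMod p) ≠ 0 := cast_ne ha0 ha
    have h4 : (2 : ZMod p) * (4 * (a : ZMod p) ^ 3 + 27 * ((0 : ℤ) : ZMod p) ^ 2) =
        2 ^ 3 * (a : ZMod p) ^ 3 := by push_cast; ring
    rw [h4]
    exact mul_ne_zero (pow_ne_zero _ h2) (pow_ne_zero _ h1)
  · subst ha0
    have h1 : (b : ZMod p) ≠ 0 := cast_ne hb0 hb
    have h4 : (2 : ZMod p) * (4 * ((0 : ℤ) : ZMod p) ^ 3 + 27 * (b : ZMod p) ^ 2) =
        2 * (3 ^ 3 * (b : ZMod p) ^ 2) := by push_cast; ring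
    rw [h4]
    exact mul_ne_zero h2 (mul_ne_zero (pow_ne_zero _ h3) (pow_ne_zero _ h1))

/-- the local data at a prime `p` -/
theorem loc
    (hRed : ∀ (K k : Type) [Field K] [Field k] [DecidableEq K] [DecidableEq k] (v : Place K k)
      (a b : ℤ), Disc (a : k) (b : k) → ∃ red : Pt (a : K) (b : K) →+ Pt (a : k) (b : k),
        IsRed v a b red)
    (hRep : ∀ (K k : Type) [Field K] [Field k] (v : Place K k) (a b : ℤ)
      (red : Pt (a : K) (b : K) → Pt (a : k) (b : k)), IsRed v a b red →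
        ∀ P : Pt (a : K) (b : K),
        ∃ u : K, u ≠ 0 ∧ ∀ j, u * rep P j ∈ v.A ∧ v.r (u * rep P j) = rep (red P) j)
    (hPL : PL) (hC1 : C1) (hC2 : C2) (hHO : HO) (hEVR : EVR) (hLC : LC)
    {r : ℕ} {a b : Fin r → ℤ} (hCM : ∀ i, CMt (a i) (b i)) {l m : ℕ} (hm : 1 ≤ m)
    {S : Type} [Fintype S] (f : S → (Expo r →₀ ℤ)) (d : Fin r → ℕ) (hd : ∀ i, m ∣ d i)
    (hf : ∀ s, Homog (f s) d) (p : ℕ) [Fact p.Prime] (hp5 : 5 ≤ p)
    (ha : ∀ i, (a i).natAbs < p) (hb : ∀ i, (b i).natAbs < p) (hOK : OKp a b l p)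
    (hNZ : NoZero a b f p) (L : ℕ) (hL : p + 1 ∣ L) :
    ∃ Φ : (∀ i, Pt (a i : ℚ) (b i : ℚ)) → S → ZMod p, (∀ κ, ∃ s, Φ κ s ≠ 0) ∧
      ∀ (κ δ : ∀ i, Pt (a i : ℚ) (b i : ℚ)) (c : S → ℤ) (w : ℚ),
        w ^ m = Fc f c (fun i => rep (κ i + L • δ i)) →
          ∃ t : ZMod p, t ^ m = ∑ s, (c s : ZMod p) * Φ κ s := by
  obtain ⟨v⟩ := hPL p
  have hdisc : ∀ i, Disc (a i : ZMod p) (b i : ZMod p) := fun i =>
    disc_zmod (hCM i) hp5 (ha i) (hb i)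
  have h1 : ∀ i, ∃ red : Pt (a i : ℚ) (b i : ℚ) →+ Pt (a i : ZMod p) (b i : ZMod p),
      IsRed v (a i) (b i) red := fun i => hRed ℚ (ZMod p) v (a i) (b i) (hdisc i)
  choose red hred using h1
  have hkill : ∀ i, ∀ P : Pt (a i : ZMod p) (b i : ZMod p), (p + 1) • P = 0 := by
    intro i
    rcases hCM i with ⟨hb0, ha0⟩ | ⟨ha0, hb0⟩
    · exact hC1 p (hOK.1 i hb0) (a i) (b i) hb0 (cast_ne ha0 (ha i))
    · exact hC2 p (hOK.2.1 i ha0) (by omega) (a i) (b i) ha0 (cast_ne hb0 (hb i))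
  have hredL : ∀ i, ∀ κ δ : Pt (a i : ℚ) (b i : ℚ), red i (κ + L • δ) = red i κ := by
    intro i κ δ
    obtain ⟨k, hk⟩ := hL
    rw [map_add, map_nsmul, hk, mul_comm, mul_smul, hkill i, smul_zero, add_zero]
  refine ⟨fun κ s => ev (f s) (fun i => rep (red i (κ i))), fun κ => hNZ _, ?_⟩
  intro κ δ c w hw
  obtain ⟨t, ht⟩ := hLC hHO hEVR ℚ (ZMod p) v r a b (fun i => red i)
    (fun i => hRep ℚ (ZMod p) v (a i) (b i) (red i) (hred i)) m hm S f d hd hf c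
    (fun i => κ i + L • δ i) w hw
  refine ⟨t, ?_⟩
  rw [ht]
  unfold Fc
  refine Finset.sum_congr rfl fun s _ => ?_
  simp only [hredL]

end W_Z0

open W_Z0 in
theorem t_Z0 : Z0 := by
  intro hRed hRep hPL hC1 hC2 hHO hEVR hLC hPTS hHP hM1 hM2 hMP hLF hBOX
  intro r a b hCM l m hl hlm hm S _ _ f d hd hf
  classical
  have h1 : ∀ i, ∃ R : ℕ, ∀ L : ℕ, 1 ≤ L → ∃ A : Finset (Pt (a i : ℚ) (b i : ℚ)),
      A.card ≤ L ^ R ∧ ∀ g : Pt (a i : ℚ) (b i : ℚ), ∃ κ ∈ A, ∃ δ : Pt (a i : ℚ) (b i : ℚ),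
        g = κ + L • δ := by
    intro i
    exact hM2 _ (hM1 (a i) (b i) (disc_rat (hCM i)))
  choose R hR using h1
  refine ⟨5 + ∑ i, ((a i).natAbs + (b i).natAbs) + 1, ∑ i, R i, ?_⟩
  intro T hT hTp L hL hTL H hH
  have h2 : ∀ i, ∃ A : Finset (Pt (a i : ℚ) (b i : ℚ)),
      A.card ≤ L ^ (R i) ∧ ∀ g : Pt (a i : ℚ) (b i : ℚ), ∃ κ ∈ A, ∃ δ : Pt (a i : ℚ) (b i : ℚ),
        g = κ + L • δ := fun i => hR i L hL
  choose A hAc hAr using h2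
  have hle : ∀ i, (a i).natAbs + (b i).natAbs ≤ ∑ i, ((a i).natAbs + (b i).natAbs) := fun i =>
    Finset.single_le_sum (f := fun i => (a i).natAbs + (b i).natAbs) (fun _ _ => Nat.zero_le _)
      (Finset.mem_univ i)
  have key : ∀ p : ℕ, p ∈ T → ∃ Φ : (∀ i, Pt (a i : ℚ) (b i : ℚ)) → S → ZMod p,
      (∀ κ, ∃ s, Φ κ s ≠ 0) ∧
      ∀ (κ δ : ∀ i, Pt (a i : ℚ) (b i : ℚ)) (c : S → ℤ) (w : ℚ),
        w ^ m = Fc f c (fun i => rep (κ i + L • δ i)) →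
          ∃ t : ZMod p, t ^ m = ∑ s, (c s : ZMod p) * Φ κ s := by
    intro p hp
    have hpp := hTp p hp
    haveI : Fact p.Prime := ⟨hpp⟩
    obtain ⟨h3, h4, h5⟩ := hT p hpp hp
    refine loc (l := l) hRed hRep hPL hC1 hC2 hHO hEVR hLC hCM hm f d hd hf p (by omega) ?_ ?_ h4
      h5 L (hTL p hp)
    · intro i
      have := hle i
      omega
    · intro i
      have := hle i
      omega
  choose Φ hΦ1 hΦ2 using key
  let G : (∀ i, Pt (a i : ℚ) (b i : ℚ)) → (p : ℕ) → Set (S → ZMod p) := fun κ p =>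
    {c | ∃ hp : p ∈ T, ∃ t : ZMod p, t ^ m = ∑ s, c s * Φ p hp κ s}
  have hG : ∀ κ, ∀ p ∈ T, (((G κ p).ncard : ℕ) : ℝ) ≤ 2 / 3 * (p : ℝ) ^ Fintype.card S := by
    intro κ p hp
    have hpp := hTp p hp
    haveI : Fact p.Prime := ⟨hpp⟩
    obtain ⟨h3, h4, h5⟩ := hT p hpp hp
    have h6 := hLF hMP p (by omega) l m hl hlm h4.2.2 S (Φ p hp κ) (hΦ1 p hp κ)
    have h7 : G κ p = {c : S → ZMod p | ∃ t : ZMod p, t ^ m = ∑ s, c s * Φ p hp κ s} := by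
      ext c
      constructor
      · rintro ⟨_, h⟩
        exact h
      · intro h
        exact ⟨hp, h⟩
    rw [h7]
    exact h6
  have hB : ∀ κ, (({c : S → ℤ | c ∈ Box S H ∧ ∀ p ∈ T, (fun s => (c s : ZMod p)) ∈ G κ p}.ncard
      : ℕ) : ℝ) ≤ (2 * (2 * (H : ℝ) + 1)) ^ Fintype.card S * (2 / 3) ^ T.card := fun κ =>
    hBOX S T hTp (G κ) (2 / 3) (by norm_num) (hG κ) H hH
  have hsub : {c : S → ℤ | c ∈ Box S H ∧ HasPt a b m f c} ⊆ ⋃ κ ∈ Fintype.piFinset A,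
      {c : S → ℤ | c ∈ Box S H ∧ ∀ p ∈ T, (fun s => (c s : ZMod p)) ∈ G κ p} := by
    rintro c ⟨hc1, hc2⟩
    obtain ⟨P, w, hw⟩ := hHP hHO hPTS r a b (fun i => disc_rat (hCM i)) m hm S f d hd hf c hc2
    have h3 : ∀ i, ∃ κ ∈ A i, ∃ δ : Pt (a i : ℚ) (b i : ℚ), P i = κ + L • δ := fun i =>
      hAr i (P i)
    choose κ hκ δ hδ using h3
    rw [Set.mem_iUnion₂]
    refine ⟨κ, Fintype.mem_piFinset.2 hκ, hc1, ?_⟩
    intro p hp
    refine ⟨hp, ?_⟩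
    refine hΦ2 p hp κ δ c w ?_
    rw [hw]
    congr 1
    funext i
    rw [hδ i]
  have hfin : (⋃ κ ∈ Fintype.piFinset A,
      {c : S → ℤ | c ∈ Box S H ∧ ∀ p ∈ T, (fun s => (c s : ZMod p)) ∈ G κ p}).Finite := by
    apply Set.Finite.subset (Box S H).finite_toSet
    intro c hc
    rw [Set.mem_iUnion₂] at hc
    obtain ⟨_, _, hc, _⟩ := hc
    exact hc
  have hcard : (((Fintype.piFinset A).card : ℕ) : ℝ) ≤ (L : ℝ) ^ (∑ i, R i) := by
    rw [Fintype.card_piFinset]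
    push_cast
    rw [← Finset.prod_pow_eq_pow_sum]
    refine Finset.prod_le_prod (fun i _ => by positivity) fun i _ => ?_
    exact_mod_cast hAc i
  calc (({c : S → ℤ | c ∈ Box S H ∧ HasPt a b m f c}.ncard : ℕ) : ℝ)
      ≤ (((⋃ κ ∈ Fintype.piFinset A, {c : S → ℤ | c ∈ Box S H ∧
          ∀ p ∈ T, (fun s => (c s : ZMod p)) ∈ G κ p}).ncard : ℕ) : ℝ) := by
        exact_mod_cast Set.ncard_le_ncard hsub hfin
    _ ≤ ((∑ κ ∈ Fintype.piFinset A, {c : S → ℤ | c ∈ Box S H ∧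
          ∀ p ∈ T, (fun s => (c s : ZMod p)) ∈ G κ p}.ncard : ℕ) : ℝ) := by
        exact_mod_cast Finset.set_ncard_biUnion_le _ _
    _ = ∑ κ ∈ Fintype.piFinset A, (({c : S → ℤ | c ∈ Box S H ∧
          ∀ p ∈ T, (fun s => (c s : ZMod p)) ∈ G κ p}.ncard : ℕ) : ℝ) := by
        push_cast
        rfl
    _ ≤ ∑ κ ∈ Fintype.piFinset A, (2 * (2 * (H : ℝ) + 1)) ^ Fintype.card S *
          (2 / 3) ^ T.card := Finset.sum_le_sum fun κ _ => hB κ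
    _ = (((Fintype.piFinset A).card : ℕ) : ℝ) * ((2 * (2 * (H : ℝ) + 1)) ^ Fintype.card S *
          (2 / 3) ^ T.card) := by rw [Finset.sum_const, nsmul_eq_mul]
    _ ≤ (L : ℝ) ^ (∑ i, R i) * ((2 * (2 * (H : ℝ) + 1)) ^ Fintype.card S *
          (2 / 3) ^ T.card) := mul_le_mul_of_nonneg_right hcard (by positivity)
    _ = (2 * (2 * (H : ℝ) + 1)) ^ Fintype.card S * ((L : ℝ) ^ (∑ i, R i) *
          (2 / 3) ^ T.card) := by ring

end Pool.Agent.H901R3.MS
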