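import Pool.Agent.H901R3.MS.Stm

/-!
Project MS: MAIN A from the general theorem.
-/

set_option autoImplicit false

namespace Pool.Agent.H901R3.MS

open WeierstrassCurve

namespace W_ZA

/-- the family of monomials -/
noncomputable def fS {r : ℕ} (S : Finset (Expo r)) (e : S) : Expo r →₀ ℤ := Finsupp.single e.1 1

theorem ev_fS {F : Type} [Field F] {r : ℕ} (S : Finset (Expo r)) (e : S)
    (V : Fin r → Fin 3 → F) : ev (fS S e) V = mono e.1 V := by
  unfold ev fS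
  rw [Finsupp.sum_single_index (by simp)]
  simp

theorem homog_fS {r : ℕ} {S : Finset (Expo r)} {d : Fin r → ℕ}
    (hS : ∀ e ∈ S, ∀ i, ∑ j, e i j = d i) (e : S) : Homog (fS S e) d := by
  intro e' he' i
  have h1 : e' ∈ ({e.1} : Finset (Expo r)) := Finsupp.support_single_subset he'
  rw [Finset.mem_singleton] at h1
  rw [h1]
  exact hS e.1 e.2 i

theorem rep_ne {F : Type} [Field F] {a b : F} (P : Pt a b) : ∃ j, rep P j ≠ 0 := by
  cases P with
  | zero => exact ⟨1, by show (1 : F) ≠ 0; exact one_ne_zero⟩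
  | some x y h => exact ⟨2, by show (1 : F) ≠ 0; exact one_ne_zero⟩

theorem fc_eq {F : Type} [Field F] {r : ℕ} (S : Finset (Expo r)) (c : S → ℤ)
    (V : Fin r → Fin 3 → F) : Fc (fS S) c V = Fm S c V := by
  unfold Fc Fm
  refine Finset.sum_congr rfl fun e _ => ?_
  rw [ev_fS]
  rfl

theorem noZero {r : ℕ} (a b : Fin r → ℤ) {d : Fin r → ℕ} {S : Finset (Expo r)}
    (hσ : ∀ σ : Fin r → Fin 3, (fun i j => if j = σ i then d i else 0) ∈ S)
    (p : ℕ) [Fact p.Prime] : NoZero a b (fS S) p := by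
  intro P
  choose σ hσ' using fun i => rep_ne (P i)
  refine ⟨⟨_, hσ σ⟩, ?_⟩
  rw [ev_fS]
  unfold mono
  refine Finset.prod_ne_zero_iff.2 fun i _ => Finset.prod_ne_zero_iff.2 fun j _ => ?_
  show rep (P i) j ^ (if j = σ i then d i else 0) ≠ 0
  by_cases hj : j = σ i
  · rw [if_pos hj, hj]
    exact pow_ne_zero _ (hσ' i)
  · rw [if_neg hj, pow_zero]
    exact one_ne_zero

end W_ZA

open W_ZA in
theorem t_ZA : ZA := by
  intro hGen hRES r a b hCM l m hl hlm hm hl3 d hd S hS hσ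
  obtain ⟨Q, u, hQ, hu, hOK⟩ := hRES r a b hCM l hl hl3
  obtain ⟨c, hc, H₀, hH⟩ := hGen r a b hCM l m hl hlm hm S (fS S) d hd (homog_fS hS) Q u hQ hu hOK
    ⟨0, fun p hp _ _ => @noZero r a b d S hσ p ⟨hp⟩⟩
  refine ⟨c, hc, H₀, fun H hHH => ?_⟩
  have h1 := hH H hHH
  have hset : {c : S → ℤ | c ∈ Box S H ∧ HasPt a b m (fS S) c} =
      {c : S → ℤ | (∀ e, |c e| ≤ H) ∧ ∃ (V : Fin r → Fin 3 → ℚ) (w : ℚ),
          (∀ i, OnE (a i) (b i) (V i)) ∧ w ^ m = Fm S c V} := by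
    ext c
    have e1 : c ∈ Box S H ↔ ∀ e, |c e| ≤ H := by
      unfold Box
      rw [Fintype.mem_piFinset]
      refine forall_congr' fun e => ?_
      rw [Finset.mem_Icc, abs_le]
    have e2 : HasPt a b m (fS S) c ↔ ∃ (V : Fin r → Fin 3 → ℚ) (w : ℚ),
          (∀ i, OnE (a i) (b i) (V i)) ∧ w ^ m = Fm S c V := by
      unfold HasPt
      simp only [fc_eq]
    exact and_congr e1 e2
  rw [hset, Fintype.card_coe] at h1
  exact h1

end Pool.Agent.H901R3.MS
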