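import Mathlib
import Pool.Agent.H901R3.MS.Stm
import Pool.Agent.H901R3.MS.P_R1
import Pool.Agent.H901R3.MS.P_R2
import Pool.Agent.H901R3.MS.P_R3
import Pool.Agent.H901R3.MS.P_R4
import Pool.Agent.H901R3.MS.P_R5
import Pool.Agent.H901R3.MS.P_R6
import Pool.Agent.H901R3.MS.P_R7
import Pool.Agent.H901R3.MS.P_PL
import Pool.Agent.H901R3.MS.P_C1
import Pool.Agent.H901R3.MS.P_C2
import Pool.Agent.H901R3.MS.P_HO
import Pool.Agent.H901R3.MS.P_EVR
import Pool.Agent.H901R3.MS.P_LC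
import Pool.Agent.H901R3.MS.P_PTS
import Pool.Agent.H901R3.MS.P_HP
import Pool.Agent.H901R3.MS.P_M1
import Pool.Agent.H901R3.MS.P_M2
import Pool.Agent.H901R3.MS.P_MP
import Pool.Agent.H901R3.MS.P_LF
import Pool.Agent.H901R3.MS.P_BOX
import Pool.Agent.H901R3.MS.P_RES
import Pool.Agent.H901R3.MS.P_LY
import Pool.Agent.H901R3.MS.P_SPU
import Pool.Agent.H901R3.MS.P_SPQ
import Pool.Agent.H901R3.MS.P_SPL
import Pool.Agent.H901R3.MS.P_SPX
import Pool.Agent.H901R3.MS.P_ASY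
import Pool.Agent.H901R3.MS.P_Z0
import Pool.Agent.H901R3.MS.P_Z1
import Pool.Agent.H901R3.MS.P_ZA

/-! Project MS (helper901): assembly of part 1. -/

set_option autoImplicit false

namespace Pool.Agent.H901R3.MS

theorem sieve : Sieve :=
  t_Z0 (t_R6 t_R1 t_R2 t_R3 t_R4 t_R5) (t_R7 t_R1) t_PL t_C1 t_C2 t_HO t_EVR t_LC t_PTS t_HP
    t_M1 t_M2 t_MP t_LF t_BOX

theorem sp : SP := t_SPX t_SPL t_SPQ t_SPU

theorem gen : Gen := t_Z1 sieve sp t_LY t_ASY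

theorem mainA : MainA := t_ZA gen t_RES

end Pool.Agent.H901R3.MS
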