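import Pool.Agent.H901R3.MS.Stm2
import Pool.Agent.H901R3.MS.P_C1

set_option autoImplicit false

namespace Pool.Agent.H901R3.MS

theorem t_C1K : C1K := by
  intro p hp hp4 a b hb ha P
  obtain ⟨a', rfl⟩ := ZMod.intCast_surjective a
  obtain rfl : b = ((0 : ℤ) : ZMod p) := by rw [hb]; simp
  exact t_C1 p hp4 a' 0 rfl ha P

end Pool.Agent.H901R3.MS
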