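import Pool.Agent.H901R3.MS.Stm2
import Pool.Agent.H901R3.MS.P_C2

/-!
# C2K: the group has `p + 1` elements (coefficients in `ZMod p`)
-/

set_option autoImplicit false

namespace Pool.Agent.H901R3.MS

theorem t_C2K : C2K := by
  intro p _ hp hp2 a b ha hb P
  obtain ⟨a', rfl⟩ := ZMod.intCast_surjective a
  obtain ⟨b', rfl⟩ := ZMod.intCast_surjective b
  have h := t_C2 p hp hp2 0 b' rfl hb
  revert P
  rw [ha]
  intro P
  have e : ((0 : ℤ) : ZMod p) = 0 := Int.cast_zero
  rw [e] at h
  exact h P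

end Pool.Agent.H901R3.MS
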