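import Pool.Agent.H901R3.MS.Stm2

set_option autoImplicit false

namespace Pool.Agent.H901R3.MS

open NumberField Filter Topology

namespace W_DK

/-- primes up to `N` -/
noncomputable def pr (N : ℕ) : Finset ℕ := (Finset.range (N + 1)).filter Nat.Prime

theorem tend_pc : Tendsto (fun N : ℕ => (Nat.primeCounting N : ℝ)) atTop atTop :=
  tendsto_natCast_atTop_atTop.comp Nat.tendsto_primeCounting

open Classical in
theorem final (hfin : HFIN) (K : Type) [Field K] [NumberField K] (A B : Prop) (u E : ℕ → ℝ)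
    (ℓ : ℝ) (hℓ : 1 / 4 ≤ ℓ)
    (hu : Tendsto (fun N : ℕ => (∑ p ∈ pr N, u p) / (Nat.primeCounting N : ℝ)) atTop (𝓝 ℓ))
    (P0 : ℕ) (hE : ∀ p, P0 ≤ p → E p = 0)
    (h : ∀ p : ℕ, p.Prime → u p ≤ E p + (if CondP A B p then (hK K p : ℝ) else 0)) :
    ∃ κ : ℝ, 0 < κ ∧ ∃ Y : ℕ, ∀ y : ℕ, Y ≤ y →
      κ * (Nat.primeCounting y : ℝ) ≤ ((DegP K A B y).card : ℝ) := by
  set C : ℝ := ∑ p ∈ Finset.range P0, |E p| with hC
  have hC0 : 0 ≤ C := Finset.sum_nonneg fun _ _ => abs_nonneg _
  have hEs : ∀ N, ∑ p ∈ pr N, E p ≤ C := by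
    intro N
    calc ∑ p ∈ pr N, E p ≤ ∑ p ∈ pr N, |E p| := Finset.sum_le_sum fun _ _ => le_abs_self _
      _ = ∑ p ∈ (pr N).filter (fun p => p < P0), |E p| := by
          symm
          apply Finset.sum_subset (Finset.filter_subset _ _)
          intro p hp hp'
          have : P0 ≤ p := by
            by_contra hlt
            exact hp' (Finset.mem_filter.2 ⟨hp, not_le.1 hlt⟩)
          rw [hE p this, abs_zero]
      _ ≤ C := by
          apply Finset.sum_le_sum_of_subset_of_nonneg
          · intro p hp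
            exact Finset.mem_range.2 (Finset.mem_filter.1 hp).2
          · intro _ _ _; exact abs_nonneg _
  have hn1 : 0 < Module.finrank ℚ K := Module.finrank_pos
  have hn : (0 : ℝ) < Module.finrank ℚ K := by exact_mod_cast hn1
  have hev1 : ∀ᶠ N : ℕ in atTop, 3 / 16 < (∑ p ∈ pr N, u p) / (Nat.primeCounting N : ℝ) :=
    hu.eventually (lt_mem_nhds (by linarith))
  have hev2 : ∀ᶠ N : ℕ in atTop, 16 * C + 1 ≤ (Nat.primeCounting N : ℝ) :=
    tend_pc.eventually_ge_atTop _
  obtain ⟨Y, hY⟩ := eventually_atTop.1 (hev1.and hev2)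
  refine ⟨1 / (8 * Module.finrank ℚ K), by positivity, Y, fun y hy => ?_⟩
  obtain ⟨h1, h2⟩ := hY y hy
  have hpc : (0 : ℝ) < Nat.primeCounting y := by linarith
  rw [lt_div_iff₀ hpc] at h1
  have h3 : ∑ p ∈ pr y, u p ≤ C + ∑ p ∈ pr y, (if CondP A B p then (hK K p : ℝ) else 0) := by
    calc ∑ p ∈ pr y, u p ≤ ∑ p ∈ pr y, (E p + (if CondP A B p then (hK K p : ℝ) else 0)) :=
          Finset.sum_le_sum fun p hp => h p (Finset.mem_filter.1 hp).2
      _ = ∑ p ∈ pr y, E p + ∑ p ∈ pr y, (if CondP A B p then (hK K p : ℝ) else 0) :=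
          Finset.sum_add_distrib
      _ ≤ _ := by linarith [hEs y]
  have h4 : ∑ p ∈ pr y, (if CondP A B p then (hK K p : ℝ) else 0) ≤
      (Module.finrank ℚ K : ℝ) * ((DegP K A B y).card : ℝ) := by
    have hsub : DegP K A B y ⊆ pr y := by
      intro p hp
      simp only [DegP, Finset.mem_filter, Finset.mem_Icc] at hp
      simp only [pr, Finset.mem_filter, Finset.mem_range]
      exact ⟨by omega, hp.2.1⟩
    rw [← Finset.sum_subset hsub]
    · calc ∑ p ∈ DegP K A B y, (if CondP A B p then (hK K p : ℝ) else 0)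
          ≤ ∑ p ∈ DegP K A B y, (Module.finrank ℚ K : ℝ) := by
            apply Finset.sum_le_sum
            intro p hp
            have hpp : p.Prime := by
              simp only [DegP, Finset.mem_filter] at hp
              exact hp.2.1
            split_ifs
            · exact_mod_cast (hfin K p hpp).1
            · exact hn.le
        _ = _ := by rw [Finset.sum_const, nsmul_eq_mul, mul_comm]
    · intro p hp hp'
      split_ifs with hc
      · have hpp : p.Prime := (Finset.mem_filter.1 hp).2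
        have hne : ¬ Nonempty (𝓞 K →+* ZMod p) := by
          intro hne
          apply hp'
          simp only [DegP, Finset.mem_filter, Finset.mem_Icc]
          have := Finset.mem_range.1 (Finset.mem_filter.1 hp).1
          exact ⟨⟨hpp.one_lt.le, by omega⟩, hpp, hc, hne⟩
        have : IsEmpty (𝓞 K →+* ZMod p) := not_nonempty_iff.1 hne
        simp [hK]
      · rfl
  have h5 : (Nat.primeCounting y : ℝ) / 8 ≤ (Module.finrank ℚ K : ℝ) * ((DegP K A B y).card : ℝ) := by
    linarith
  rw [div_mul_eq_mul_div, one_mul, div_le_iff₀ (by positivity)]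
  linarith

theorem sq_neg_one {p : ℕ} (hp : p.Prime) (h : p % 4 = 1) : ∃ t : ZMod p, t ^ 2 = ((-1 : ℤ) : ZMod p) := by
  haveI := Fact.mk hp
  have h1 : IsSquare (-1 : ZMod p) := ZMod.exists_sq_eq_neg_one_iff.2 (by omega)
  obtain ⟨t, ht⟩ := h1
  exact ⟨t, by rw [sq, ← ht]; push_cast; rfl⟩

theorem sq_neg_three {p : ℕ} (hp : p.Prime) (h : p % 3 = 1) :
    ∃ t : ZMod p, t ^ 2 = ((-3 : ℤ) : ZMod p) := by
  haveI := Fact.mk hp
  haveI : Fact (Nat.Prime 3) := ⟨Nat.prime_three⟩
  have hcard : Fintype.card (ZMod p)ˣ = p - 1 := ZMod.card_units p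
  have hp1 := hp.one_lt
  have hdvd : 3 ∣ Fintype.card (ZMod p)ˣ := by rw [hcard]; omega
  obtain ⟨w, hw⟩ := exists_prime_orderOf_dvd_card 3 hdvd
  have hw3 : w ^ 3 = 1 := by rw [← hw]; exact pow_orderOf_eq_one w
  have hw1 : w ≠ 1 := by
    rintro rfl
    rw [orderOf_one] at hw
    omega
  have e1 : ((w : ZMod p)) ^ 3 = 1 := by
    rw [← Units.val_pow_eq_pow_val, hw3, Units.val_one]
  have e2 : (w : ZMod p) - 1 ≠ 0 := by
    intro h0
    apply hw1
    apply Units.ext
    rw [Units.val_one]
    exact sub_eq_zero.1 h0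
  have e3 : (w : ZMod p) ^ 2 + w + 1 = 0 := by
    have : ((w : ZMod p) - 1) * ((w : ZMod p) ^ 2 + w + 1) = 0 := by
      have : ((w : ZMod p) - 1) * ((w : ZMod p) ^ 2 + w + 1) = (w : ZMod p) ^ 3 - 1 := by ring
      rw [this, e1, sub_self]
    exact (mul_eq_zero.1 this).resolve_left e2
  refine ⟨2 * w + 1, ?_⟩
  have : (2 * (w : ZMod p) + 1) ^ 2 = 4 * ((w : ZMod p) ^ 2 + w + 1) - 3 := by ring
  rw [this, e3]
  push_cast
  ring

theorem ndvd_neg_one {p : ℕ} (hp : p.Prime) (h : p % 4 = 1) : ¬ ((p : ℤ) ∣ 2 * (-1)) := by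
  intro hd
  have h1 : (p : ℤ) ∣ 2 := by
    have := (dvd_neg (a := (p : ℤ)) (b := 2)).1 (by simpa using hd)
    exact this
  have h2 : p ∣ 2 := by exact_mod_cast h1
  have h3 := Nat.le_of_dvd (by norm_num) h2
  have := hp.two_le
  have : p = 2 := by omega
  subst this
  omega

theorem ndvd_neg_three {p : ℕ} (hp : p.Prime) (h : p % 3 = 1) : ¬ ((p : ℤ) ∣ 2 * (-3)) := by
  intro hd
  have h1 : (p : ℤ) ∣ 6 := by
    have e : (2 : ℤ) * (-3) = -6 := by norm_num
    rw [e] at hd
    exact (dvd_neg (a := (p : ℤ)) (b := 6)).1 hd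
  have h2 : p ∣ 6 := by exact_mod_cast h1
  have h3 : p ∣ 2 * 3 := h2
  rcases (hp.dvd_mul).1 h3 with h4 | h4
  · have := (Nat.prime_dvd_prime_iff_eq hp Nat.prime_two).1 h4
    omega
  · have := (Nat.prime_dvd_prime_iff_eq hp Nat.prime_three).1 h4
    omega

end W_DK

open W_DK in
theorem t_DK : DK := by
  classical
  intro hfin h2 h4 hpit K _ _ A B hA hB
  have hT : ∀ (F : Type) [Field F] [NumberField F], Tendsto (fun N : ℕ =>
      (∑ p ∈ pr N, (hK F p : ℝ)) / (Nat.primeCounting N : ℝ)) atTop (𝓝 1) := fun F _ _ => hpit F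
  have hFA : A → ∃ (F : Type) (_ : Field F) (_ : NumberField F), ∀ p : ℕ, p.Prime → p % 4 = 1 →
      2 * hK K p ≤ hK F p := by
    intro ha
    obtain ⟨F, iF, nF, hF⟩ := h2 K (-1) (by norm_num) (by
      rintro ⟨x, hx⟩
      exact hA ha ⟨x, by rw [hx]; push_cast; rfl⟩)
    exact ⟨F, iF, nF, fun p hp h => hF p hp (ndvd_neg_one hp h) (sq_neg_one hp h)⟩
  have hFB : B → ∃ (F : Type) (_ : Field F) (_ : NumberField F), ∀ p : ℕ, p.Prime → p % 3 = 1 →
      2 * hK K p ≤ hK F p := by
    intro hb
    obtain ⟨F, iF, nF, hF⟩ := h2 K (-3) (by norm_num) (by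
      rintro ⟨x, hx⟩
      exact hB hb ⟨x, by rw [hx]; push_cast; rfl⟩)
    exact ⟨F, iF, nF, fun p hp h => hF p hp (ndvd_neg_three hp h) (sq_neg_three hp h)⟩
  have mod4 : ∀ p : ℕ, p.Prime → 4 ≤ p → p % 4 = 1 ∨ p % 4 = 3 := by
    intro p hp h4p
    have := hp.eq_two_or_odd
    omega
  have mod3 : ∀ p : ℕ, p.Prime → 4 ≤ p → p % 3 = 1 ∨ p % 3 = 2 := by
    intro p hp h4p
    have : ¬ 3 ∣ p := by
      intro hd
      have := (Nat.prime_dvd_prime_iff_eq Nat.prime_three hp).1 hd
      omega
    omega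
  by_cases ha : A
  · obtain ⟨F1, iF1, nF1, hF1⟩ := hFA ha
    by_cases hb : B
    · obtain ⟨F3, iF3, nF3, hF3⟩ := hFB hb
      obtain ⟨M, iM, nM, p0, hM⟩ := h4 K
      refine final hfin K A B (fun p => (hK K p : ℝ) - 1 / 2 * (hK F1 p : ℝ) -
        1 / 2 * (hK F3 p : ℝ) + 1 / 4 * (hK M p : ℝ))
        (fun p => if p < p0 + 4 then (hK K p : ℝ) + 1 / 4 * (hK M p : ℝ) else 0)
        (1 - 1 / 2 * 1 - 1 / 2 * 1 + 1 / 4 * 1) (by norm_num) ?_ (p0 + 4) ?_ ?_
      · have := (((hT K).sub ((hT F1).const_mul (1 / 2))).sub ((hT F3).const_mul (1 / 2))).add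
          ((hT M).const_mul (1 / 4))
        refine this.congr fun N => ?_
        simp only [Finset.sum_add_distrib, Finset.sum_sub_distrib, ← Finset.mul_sum]
        ring
      · intro p hp
        rw [if_neg (by omega)]
      · intro p hp
        have n1 : (0 : ℝ) ≤ hK K p := Nat.cast_nonneg _
        have n2 : (0 : ℝ) ≤ hK F1 p := Nat.cast_nonneg _
        have n3 : (0 : ℝ) ≤ hK F3 p := Nat.cast_nonneg _
        have n4 : (0 : ℝ) ≤ hK M p := Nat.cast_nonneg _
        have hcn : (0 : ℝ) ≤ (if CondP A B p then (hK K p : ℝ) else 0) := by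
          split_ifs <;> simp
        by_cases hs : p < p0 + 4
        · simp only [if_pos hs]
          linarith
        · simp only [if_neg hs, zero_add]
          have hp4 : 4 ≤ p := by omega
          obtain ⟨m1, m2⟩ := hM p hp (by omega)
          have m1' : (hK M p : ℝ) ≤ 4 * hK K p := by exact_mod_cast m1
          have hm0 : p % 12 ≠ 1 → (hK M p : ℝ) = 0 := by
            intro h12
            by_contra hne
            exact h12 (m2 (by exact_mod_cast hne))
          rcases mod4 p hp hp4 with h4p | h4p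
          · have q1 : (2 : ℝ) * hK K p ≤ hK F1 p := by exact_mod_cast hF1 p hp h4p
            rcases mod3 p hp hp4 with h3p | h3p
            · have q3 : (2 : ℝ) * hK K p ≤ hK F3 p := by exact_mod_cast hF3 p hp h3p
              linarith
            · have := hm0 (by omega)
              linarith
          · have hz := hm0 (by omega)
            rcases mod3 p hp hp4 with h3p | h3p
            · have q3 : (2 : ℝ) * hK K p ≤ hK F3 p := by exact_mod_cast hF3 p hp h3p
              linarith
            · rw [if_pos (show CondP A B p from ⟨fun _ => h4p, fun _ => h3p⟩)]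
              linarith
    · refine final hfin K A B (fun p => (hK K p : ℝ) - 1 / 2 * (hK F1 p : ℝ))
        (fun p => if p < 4 then (hK K p : ℝ) else 0)
        (1 - 1 / 2 * 1) (by norm_num) ?_ 4 ?_ ?_
      · have := ((hT K).sub ((hT F1).const_mul (1 / 2)))
        refine this.congr fun N => ?_
        simp only [Finset.sum_sub_distrib, ← Finset.mul_sum]
        ring
      · intro p hp
        rw [if_neg (by omega)]
      · intro p hp
        have n1 : (0 : ℝ) ≤ hK K p := Nat.cast_nonneg _
        have n2 : (0 : ℝ) ≤ hK F1 p := Nat.cast_nonneg _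
        have hcn : (0 : ℝ) ≤ (if CondP A B p then (hK K p : ℝ) else 0) := by
          split_ifs <;> simp
        by_cases hs : p < 4
        · simp only [if_pos hs]
          linarith
        · simp only [if_neg hs, zero_add]
          have hp4 : 4 ≤ p := by omega
          rcases mod4 p hp hp4 with h4p | h4p
          · have q1 : (2 : ℝ) * hK K p ≤ hK F1 p := by exact_mod_cast hF1 p hp h4p
            linarith
          · rw [if_pos (show CondP A B p from ⟨fun _ => h4p, fun h => absurd h hb⟩)]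
            linarith
  · by_cases hb : B
    · obtain ⟨F3, iF3, nF3, hF3⟩ := hFB hb
      refine final hfin K A B (fun p => (hK K p : ℝ) - 1 / 2 * (hK F3 p : ℝ))
        (fun p => if p < 4 then (hK K p : ℝ) else 0)
        (1 - 1 / 2 * 1) (by norm_num) ?_ 4 ?_ ?_
      · have := ((hT K).sub ((hT F3).const_mul (1 / 2)))
        refine this.congr fun N => ?_
        simp only [Finset.sum_sub_distrib, ← Finset.mul_sum]
        ring
      · intro p hp
        rw [if_neg (by omega)]
      · intro p hp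
        have n1 : (0 : ℝ) ≤ hK K p := Nat.cast_nonneg _
        have n2 : (0 : ℝ) ≤ hK F3 p := Nat.cast_nonneg _
        have hcn : (0 : ℝ) ≤ (if CondP A B p then (hK K p : ℝ) else 0) := by
          split_ifs <;> simp
        by_cases hs : p < 4
        · simp only [if_pos hs]
          linarith
        · simp only [if_neg hs, zero_add]
          have hp4 : 4 ≤ p := by omega
          rcases mod3 p hp hp4 with h3p | h3p
          · have q3 : (2 : ℝ) * hK K p ≤ hK F3 p := by exact_mod_cast hF3 p hp h3p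
            linarith
          · rw [if_pos (show CondP A B p from ⟨fun h => absurd h ha, fun _ => h3p⟩)]
            linarith
    · refine final hfin K A B (fun p => (hK K p : ℝ)) (fun _ => 0) 1 (by norm_num) (hT K) 0
        (fun _ _ => rfl) ?_
      intro p hp
      rw [if_pos (show CondP A B p from ⟨fun h => absurd h ha, fun h => absurd h hb⟩)]
      linarith

end Pool.Agent.H901R3.MS
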