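import Pool.Agent.H901R3.MS.Stm2

/-!
Project MS, task H2 (helper408).
-/

set_option autoImplicit false

namespace Pool.Agent.H901R3.MS.W_H2

open NumberField

variable {K : Type} [Field K] [NumberField K] {d : ℤ}

theorem fact_of (h : ¬ ∃ x : K, x ^ 2 = (d : K)) : Fact (∀ r : K, r ^ 2 ≠ (d : K) + 0 * r) :=
  ⟨fun r hr => h ⟨r, by rw [hr]; ring⟩⟩

section

variable [Fact (∀ r : K, r ^ 2 ≠ (d : K) + 0 * r)]

variable (K d) in
/-- `K(√d)` -/
abbrev QF : Type := QuadraticAlgebra K (d : K) 0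

instance charZ : CharZero (QF K d) :=
  charZero_of_injective_algebraMap (R := K) (A := QF K d) QuadraticAlgebra.algebraMap_injective

instance numF : NumberField (QF K d) where
  to_charZero := inferInstance
  to_finiteDimensional := by
    have : IsScalarTower ℚ K (QF K d) := IsScalarTower.of_algebraMap_eq' (Subsingleton.elim _ _)
    exact Module.Finite.trans K (QF K d)

theorem int_re (z : QF K d) (hz : IsIntegral ℤ z) : IsIntegral ℤ (2 * z.re : K) := by
  have h1 : IsIntegral ℤ (star z) := hz.map (starRingEnd (QF K d)).toIntAlgHom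
  have h2 := hz.add h1
  have h3 : z + star z = algebraMap K (QF K d) (2 * z.re) := by
    ext
    · simp [two_mul]
    · simp
  rw [h3] at h2
  exact (isIntegral_algebraMap_iff (R := ℤ) (A := K) (B := QF K d)
    QuadraticAlgebra.algebraMap_injective).mp h2

theorem int_om : IsIntegral ℤ (QuadraticAlgebra.omega : QF K d) := by
  refine ⟨Polynomial.X ^ 2 - Polynomial.C d, Polynomial.monic_X_pow_sub_C d (by norm_num), ?_⟩
  simp only [Polynomial.eval₂_sub, Polynomial.eval₂_pow, Polynomial.eval₂_X, Polynomial.eval₂_C]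
  rw [pow_two, QuadraticAlgebra.omega_mul_omega_eq_mk]
  ext <;> simp

theorem int_im (z : QF K d) (hz : IsIntegral ℤ z) : IsIntegral ℤ (2 * (d : K) * z.im : K) := by
  have h1 : IsIntegral ℤ (star z) := hz.map (starRingEnd (QF K d)).toIntAlgHom
  have h2 := (int_om (K := K) (d := d)).mul (hz.sub h1)
  have h3 : (QuadraticAlgebra.omega : QF K d) * (z - star z) =
      algebraMap K (QF K d) (2 * (d : K) * z.im) := by
    ext
    · simp; ring
    · simp
  rw [h3] at h2
  exact (isIntegral_algebraMap_iff (R := ℤ) (A := K) (B := QF K d)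
    QuadraticAlgebra.algebraMap_injective).mp h2

/-- `2 re` -/
noncomputable def U (z : 𝓞 (QF K d)) : 𝓞 K :=
  ⟨2 * (z : QF K d).re, int_re _ (RingOfIntegers.isIntegral_coe z)⟩

/-- `2 d im` -/
noncomputable def V (z : 𝓞 (QF K d)) : 𝓞 K :=
  ⟨2 * (d : K) * (z : QF K d).im, int_im _ (RingOfIntegers.isIntegral_coe z)⟩

theorem coe_U (z : 𝓞 (QF K d)) : ((U z : 𝓞 K) : K) = 2 * (z : QF K d).re := rfl

theorem coe_V (z : 𝓞 (QF K d)) : ((V z : 𝓞 K) : K) = 2 * (d : K) * (z : QF K d).im := rfl

theorem U_add (z w : 𝓞 (QF K d)) : U (z + w) = U z + U w := by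
  apply RingOfIntegers.ext
  simp only [map_add, coe_U, QuadraticAlgebra.re_add]
  ring

theorem V_add (z w : 𝓞 (QF K d)) : V (z + w) = V z + V w := by
  apply RingOfIntegers.ext
  simp only [map_add, coe_V, QuadraticAlgebra.im_add]
  ring

theorem U_mul (z w : 𝓞 (QF K d)) : 2 * (d : 𝓞 K) * U (z * w) = d * (U z * U w) + V z * V w := by
  apply RingOfIntegers.ext
  simp only [map_add, map_mul, coe_U, coe_V, QuadraticAlgebra.re_mul, map_intCast, map_ofNat]
  ring

theorem V_mul (z w : 𝓞 (QF K d)) : 2 * V (z * w) = U z * V w + V z * U w := by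
  apply RingOfIntegers.ext
  simp only [map_add, map_mul, coe_U, coe_V, QuadraticAlgebra.im_mul, map_intCast, map_ofNat]
  ring

theorem U_one : U (1 : 𝓞 (QF K d)) = 2 := by
  apply RingOfIntegers.ext
  simp only [coe_U, map_one, QuadraticAlgebra.re_one, map_ofNat]
  ring

theorem V_one : V (1 : 𝓞 (QF K d)) = 0 := by
  apply RingOfIntegers.ext
  simp only [coe_V, map_one, QuadraticAlgebra.im_one, map_zero]
  ring

theorem U_zero : U (0 : 𝓞 (QF K d)) = 0 := by
  apply RingOfIntegers.ext
  simp only [coe_U, map_zero, QuadraticAlgebra.re_zero]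
  ring

theorem V_zero : V (0 : 𝓞 (QF K d)) = 0 := by
  apply RingOfIntegers.ext
  simp only [coe_V, map_zero, QuadraticAlgebra.im_zero]
  ring

/-- the extension of `φ` with `√d ↦ t` -/
noncomputable def psi {p : ℕ} [Fact p.Prime] (h2 : (2 : ZMod p) ≠ 0) (hd : (d : ZMod p) ≠ 0)
    (t : ZMod p) (ht : t ^ 2 = (d : ZMod p)) (φ : 𝓞 K →+* ZMod p) : 𝓞 (QF K d) →+* ZMod p where
  toFun z := ((d : ZMod p) * φ (U z) + t * φ (V z)) / (2 * (d : ZMod p))
  map_one' := by
    rw [U_one, V_one, map_zero, map_ofNat]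
    field_simp
    ring
  map_zero' := by
    rw [U_zero, V_zero, map_zero]
    simp
  map_add' z w := by
    rw [U_add, V_add, map_add, map_add]
    ring
  map_mul' z w := by
    have e1 := congrArg φ (U_mul z w)
    have e2 := congrArg φ (V_mul z w)
    simp only [map_add, map_mul, map_intCast, map_ofNat] at e1 e2
    rw [div_mul_div_comm, div_eq_div_iff (by simp [h2, hd]) (by simp [h2, hd])]
    linear_combination (2 * (d : ZMod p) * (d : ZMod p)) * e1 +
      (2 * (d : ZMod p)) * ((d : ZMod p) * t) * e2 -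
      (2 * (d : ZMod p)) * (φ (V z) * φ (V w)) * ht

theorem psi_apply {p : ℕ} [Fact p.Prime] (h2 : (2 : ZMod p) ≠ 0) (hd : (d : ZMod p) ≠ 0)
    (t : ZMod p) (ht : t ^ 2 = (d : ZMod p)) (φ : 𝓞 K →+* ZMod p) (z : 𝓞 (QF K d)) :
    psi h2 hd t ht φ z = ((d : ZMod p) * φ (U z) + t * φ (V z)) / (2 * (d : ZMod p)) := rfl

/-- the embedding of `𝓞 K` -/
noncomputable def emb (x : 𝓞 K) : 𝓞 (QF K d) :=
  ⟨algebraMap K (QF K d) x, (RingOfIntegers.isIntegral_coe x).algebraMap⟩

/-- `√d` as an integer -/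
noncomputable def om : 𝓞 (QF K d) := ⟨QuadraticAlgebra.omega, int_om⟩

theorem U_emb (x : 𝓞 K) : U (emb x : 𝓞 (QF K d)) = 2 * x := by
  apply RingOfIntegers.ext
  have e : ((emb x : 𝓞 (QF K d)) : QF K d).re = (x : K) := rfl
  simp only [coe_U, e, map_mul, map_ofNat]

theorem V_emb (x : 𝓞 K) : V (emb x : 𝓞 (QF K d)) = 0 := by
  apply RingOfIntegers.ext
  have e : ((emb x : 𝓞 (QF K d)) : QF K d).im = 0 := rfl
  simp only [coe_V, e, map_zero, mul_zero]

theorem U_om : U (om : 𝓞 (QF K d)) = 0 := by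
  apply RingOfIntegers.ext
  have e : ((om : 𝓞 (QF K d)) : QF K d).re = 0 := rfl
  simp only [coe_U, e, map_zero, mul_zero]

theorem V_om : V (om : 𝓞 (QF K d)) = 2 * (d : 𝓞 K) := by
  apply RingOfIntegers.ext
  have e : ((om : 𝓞 (QF K d)) : QF K d).im = 1 := rfl
  simp only [coe_V, e, map_mul, map_ofNat, map_intCast, mul_one]

theorem psi_emb {p : ℕ} [Fact p.Prime] (h2 : (2 : ZMod p) ≠ 0) (hd : (d : ZMod p) ≠ 0)
    (t : ZMod p) (ht : t ^ 2 = (d : ZMod p)) (φ : 𝓞 K →+* ZMod p) (x : 𝓞 K) :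
    psi h2 hd t ht φ (emb x) = φ x := by
  rw [psi_apply, U_emb, V_emb, map_zero, map_mul, map_ofNat]
  field_simp
  ring

theorem psi_om {p : ℕ} [Fact p.Prime] (h2 : (2 : ZMod p) ≠ 0) (hd : (d : ZMod p) ≠ 0)
    (t : ZMod p) (ht : t ^ 2 = (d : ZMod p)) (φ : 𝓞 K →+* ZMod p) :
    psi h2 hd t ht φ om = t := by
  rw [psi_apply, U_om, V_om, map_zero, map_mul, map_ofNat, map_intCast]
  field_simp
  ring

end

theorem fin_hom (F : Type) [Field F] [NumberField F] (p : ℕ) [Fact p.Prime] :
    Finite (𝓞 F →+* ZMod p) := by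
  let b := RingOfIntegers.basis F
  refine Finite.of_injective (fun (f : 𝓞 F →+* ZMod p) i => f (b i)) ?_
  intro f g h
  have h1 : f.toAddMonoidHom.toIntLinearMap = g.toAddMonoidHom.toIntLinearMap :=
    b.ext fun i => congrFun h i
  ext x
  exact LinearMap.congr_fun h1 x

end Pool.Agent.H901R3.MS.W_H2

namespace Pool.Agent.H901R3.MS

open NumberField W_H2

theorem t_H2 : H2 := by
  intro K _ _ d hd0 hns
  have := fact_of hns
  refine ⟨QF K d, inferInstance, numF, ?_⟩
  intro p hp hpd ht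
  have : Fact p.Prime := ⟨hp⟩
  obtain ⟨t, ht⟩ := ht
  have h2 : (2 : ZMod p) ≠ 0 := by
    intro h
    apply hpd
    have : ((2 : ℤ) : ZMod p) = 0 := by exact_mod_cast h
    rw [ZMod.intCast_zmod_eq_zero_iff_dvd] at this
    exact this.mul_right d
  have hd : (d : ZMod p) ≠ 0 := by
    intro h
    apply hpd
    rw [ZMod.intCast_zmod_eq_zero_iff_dvd] at h
    exact h.mul_left 2
  have ht0 : t ≠ 0 := by
    rintro rfl
    apply hd
    rw [← ht]
    ring
  have := fin_hom (QF K d) p
  have hs : ∀ b : Bool, (if b then t else -t) ^ 2 = (d : ZMod p) := by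
    intro b
    cases b
    · simpa using ht
    · simpa using ht
  have key := Nat.card_le_card_of_injective
    (fun q : Bool × (𝓞 K →+* ZMod p) => psi h2 hd (if q.1 then t else -t) (hs q.1) q.2) (by
      rintro ⟨b, φ⟩ ⟨b', φ'⟩ h
      simp only at h
      have e1 : φ = φ' := by
        ext x
        have := RingHom.congr_fun h (emb x)
        rwa [psi_emb, psi_emb] at this
      have e2 : (if b then t else -t) = (if b' then t else -t) := by
        have := RingHom.congr_fun h om
        rwa [psi_om, psi_om] at this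
      have e3 : t ≠ -t := by
        intro h3
        have : 2 * t = 0 := by linear_combination h3
        rcases mul_eq_zero.mp this with h4 | h4
        · exact h2 h4
        · exact ht0 h4
      have e4 : b = b' := by
        cases b <;> cases b' <;> simp_all
      rw [e1, e4])
  rw [Nat.card_prod, Nat.card_eq_fintype_card, Fintype.card_bool] at key
  exact key

end Pool.Agent.H901R3.MS
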