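import Pool.Agent.H901R3.MS.Stm2
import Pool.Agent.H901R3.MS.P_H2

/-!
Project MS, task H4 (helper954): the extension by `√-1` and `√-3`.
-/

set_option autoImplicit false

namespace Pool.Agent.H901R3.MS

open NumberField

namespace W_H4

open W_H2

section

variable {K : Type} [Field K] [NumberField K] {d : ℤ}
variable [Fact (∀ r : K, r ^ 2 ≠ (d : K) + 0 * r)]

theorem decomp (z : 𝓞 (QF K d)) :
    2 * (d : 𝓞 (QF K d)) * z =
      (d : 𝓞 (QF K d)) * RingOfIntegers.mapRingHom (algebraMap K (QF K d)) (U z) +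
        om * RingOfIntegers.mapRingHom (algebraMap K (QF K d)) (V z) := by
  apply RingOfIntegers.ext
  have e1 : ((RingOfIntegers.mapRingHom (algebraMap K (QF K d)) (U z) : 𝓞 (QF K d)) : QF K d) =
      algebraMap K (QF K d) (2 * (z : QF K d).re) := rfl
  have e2 : ((RingOfIntegers.mapRingHom (algebraMap K (QF K d)) (V z) : 𝓞 (QF K d)) : QF K d) =
      algebraMap K (QF K d) (2 * (d : K) * (z : QF K d).im) := rfl
  have e3 : ((om : 𝓞 (QF K d)) : QF K d) = QuadraticAlgebra.omega := rfl
  simp only [map_add, map_mul, e1, e2, e3, map_intCast, map_ofNat]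
  ext
  · simp; ring
  · simp; ring

theorem om_sq : (om : 𝓞 (QF K d)) ^ 2 = (d : 𝓞 (QF K d)) := by
  apply RingOfIntegers.ext
  have e3 : ((om : 𝓞 (QF K d)) : QF K d) = QuadraticAlgebra.omega := rfl
  simp only [map_pow, e3, map_intCast]
  rw [pow_two, QuadraticAlgebra.omega_mul_omega_eq_mk]
  ext <;> simp

theorem card_le (p : ℕ) [Fact p.Prime] (hpd : ¬ ((p : ℤ) ∣ 2 * d)) :
    hK (QF K d) p ≤ 2 * hK K p := by
  classical
  have h2 : (2 : ZMod p) ≠ 0 := by
    intro h
    apply hpd
    have : ((2 : ℤ) : ZMod p) = 0 := by exact_mod_cast h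
    rw [ZMod.intCast_zmod_eq_zero_iff_dvd] at this
    exact this.mul_right d
  have hd : (d : ZMod p) ≠ 0 := by
    intro h
    apply hpd
    rw [ZMod.intCast_zmod_eq_zero_iff_dvd] at h
    exact h.mul_left 2
  have homsq : ∀ ψ : 𝓞 (QF K d) →+* ZMod p, (ψ om) ^ 2 = (d : ZMod p) := by
    intro ψ
    have := congrArg ψ (om_sq (K := K) (d := d))
    rwa [map_pow, map_intCast] at this
  have := fin_hom K p
  by_cases hex : ∃ t : ZMod p, t ^ 2 = (d : ZMod p)
  · obtain ⟨t, ht⟩ := hex
    have hor : ∀ ψ : 𝓞 (QF K d) →+* ZMod p, ψ om = t ∨ ψ om = -t := by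
      intro ψ
      exact sq_eq_sq_iff_eq_or_eq_neg.1 ((homsq ψ).trans ht.symm)
    have key := Nat.card_le_card_of_injective
      (fun ψ : 𝓞 (QF K d) →+* ZMod p => ((decide (ψ om = t) : Bool),
        ψ.comp (RingOfIntegers.mapRingHom (algebraMap K (QF K d))))) (by
        intro ψ ψ' h
        simp only [Prod.mk.injEq] at h
        obtain ⟨h1, h3⟩ := h
        have e1 : ψ om = ψ' om := by
          by_cases hc : ψ om = t
          · have : ψ' om = t := by
              rw [decide_eq_decide] at h1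
              exact h1.1 hc
            rw [hc, this]
          · have : ¬ ψ' om = t := by
              rw [decide_eq_decide] at h1
              exact fun hh => hc (h1.2 hh)
            rw [(hor ψ).resolve_left hc, (hor ψ').resolve_left this]
        ext z
        have d1 := congrArg ψ (decomp z)
        have d2 := congrArg ψ' (decomp z)
        simp only [map_add, map_mul, map_intCast, map_ofNat] at d1 d2
        have f1 := RingHom.congr_fun h3 (U z)
        have f2 := RingHom.congr_fun h3 (V z)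
        simp only [RingHom.comp_apply] at f1 f2
        rw [f1, f2, e1] at d1
        have h4 : (2 * (d : ZMod p)) * ψ z = (2 * (d : ZMod p)) * ψ' z := by
          rw [d1, d2]
        exact mul_left_cancel₀ (mul_ne_zero h2 hd) h4)
    have hb : Nat.card Bool = 2 := by simp
    rw [Nat.card_prod, hb] at key
    exact key
  · have he : IsEmpty (𝓞 (QF K d) →+* ZMod p) := ⟨fun ψ => hex ⟨_, homsq ψ⟩⟩
    unfold hK
    rw [Nat.card_of_isEmpty]
    exact Nat.zero_le _

end

/-- one quadratic step -/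
theorem step (K : Type) [Field K] [NumberField K] (d : ℤ) :
    ∃ (F : Type) (_ : Field F) (_ : NumberField F) (_ : 𝓞 K →+* 𝓞 F) (t : 𝓞 F),
      t ^ 2 = (d : 𝓞 F) ∧ ∀ p : ℕ, p.Prime → ¬ ((p : ℤ) ∣ 2 * d) → hK F p ≤ 2 * hK K p := by
  by_cases h : ∃ x : K, x ^ 2 = (d : K)
  · obtain ⟨x, hx⟩ := h
    have hint : IsIntegral ℤ x := by
      refine ⟨Polynomial.X ^ 2 - Polynomial.C d, Polynomial.monic_X_pow_sub_C d (by norm_num), ?_⟩
      simp only [Polynomial.eval₂_sub, Polynomial.eval₂_pow, Polynomial.eval₂_X,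
        Polynomial.eval₂_C]
      rw [hx]
      simp
    obtain ⟨y, hy⟩ : ∃ y : 𝓞 K, (y : K) = x := ⟨⟨x, hint⟩, rfl⟩
    refine ⟨K, inferInstance, inferInstance, RingHom.id _, y, ?_, ?_⟩
    · apply RingOfIntegers.ext
      simp only [map_intCast]
      show (y : K) ^ 2 = (d : K)
      rw [hy]
      exact hx
    · intro p _ _
      omega
  · have := fact_of h
    refine ⟨QF K d, inferInstance, numF, RingOfIntegers.mapRingHom (algebraMap K (QF K d)), om,
      om_sq, ?_⟩
    intro p hp hpd
    have : Fact p.Prime := ⟨hp⟩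
    exact card_le p hpd

end W_H4

open W_H4 in
theorem t_H4 : H4 := by
  intro K _ _
  obtain ⟨F, fF, nF, ι, i, hi, hF⟩ := step K (-1)
  obtain ⟨M, fM, nM, κ, s, hs, hM⟩ := step F (-3)
  refine ⟨M, fM, nM, 5, ?_⟩
  intro p hp hp5
  have : Fact p.Prime := ⟨hp⟩
  have d1 : ¬ ((p : ℤ) ∣ 2 * (-1)) := by
    intro h
    have := Int.le_of_dvd (by norm_num) ((dvd_neg.2 h : (p : ℤ) ∣ -(2 * (-1))))
    norm_num at this
    omega
  have d3 : ¬ ((p : ℤ) ∣ 2 * (-3)) := by
    intro h
    have h1 : (p : ℤ) ∣ 6 := by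
      have := dvd_neg.2 h
      norm_num at this
      exact this
    have h2 : p ∣ 6 := by exact_mod_cast h1
    have h3 := Nat.le_of_dvd (by norm_num) h2
    interval_cases p
    · norm_num at h2
    · norm_num at hp
  refine ⟨?_, ?_⟩
  · have h1 := hF p hp d1
    have h2 := hM p hp d3
    omega
  · intro hne
    obtain ⟨⟨ψ⟩, -⟩ := Nat.card_ne_zero.1 hne
    have e1 : (ψ (κ i)) ^ 2 = -1 := by
      rw [← map_pow, ← map_pow, hi, map_intCast, map_intCast]
      norm_num
    have e2 : (ψ s) ^ 2 = -3 := by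
      rw [← map_pow, hs, map_intCast]
      norm_num
    have hodd : p % 2 = 1 := hp.eq_two_or_odd.resolve_left (by omega)
    have h4 : p % 4 ≠ 3 := by
      rw [← ZMod.exists_sq_eq_neg_one_iff]
      exact ⟨ψ (κ i), by rw [← e1, pow_two]⟩
    have h20 : (2 : ZMod p) ≠ 0 := by
      intro h
      have h5 : ((2 : ℕ) : ZMod p) = 0 := by exact_mod_cast h
      rw [ZMod.natCast_eq_zero_iff] at h5
      have := Nat.le_of_dvd (by norm_num) h5
      omega
    have h30 : (3 : ZMod p) ≠ 0 := by
      intro h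
      have h5 : ((3 : ℕ) : ZMod p) = 0 := by exact_mod_cast h
      rw [ZMod.natCast_eq_zero_iff] at h5
      have := Nat.le_of_dvd (by norm_num) h5
      omega
    obtain ⟨w, hw⟩ : ∃ w : ZMod p, w = (-1 + ψ s) / 2 := ⟨_, rfl⟩
    have hw1 : w ^ 2 + w + 1 = 0 := by
      rw [hw]
      field_simp
      linear_combination e2
    have hw3 : w ^ 3 = 1 := by linear_combination (w - 1) * hw1
    have hwne : w ≠ 1 := by
      intro h
      rw [h] at hw1
      apply h30
      linear_combination hw1
    have hw0 : w ≠ 0 := by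
      intro h
      rw [h] at hw1
      norm_num at hw1
    have ho : orderOf w = 3 := orderOf_eq_prime hw3 hwne
    have h3 : 3 ∣ p - 1 := by
      rw [← ho]
      exact ZMod.orderOf_dvd_card_sub_one hw0
    omega

end Pool.Agent.H901R3.MS
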