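import Pool.Agent.H901R3.MS.Stm2

/-! HFIN: the number of homomorphisms `𝓞 K → F_p` is at most `[K : ℚ]` (Dedekind's lemma). -/

set_option autoImplicit false

namespace Pool.Agent.H901R3.MS

open NumberField

namespace W_HFIN

theorem main (K : Type) [Field K] [NumberField K] (p : ℕ) [Fact p.Prime] :
    hK K p ≤ Module.finrank ℚ K ∧ Finite (𝓞 K →+* ZMod p) := by
  classical
  let b := RingOfIntegers.basis K
  let E : (Module.Free.ChooseBasisIndex ℤ (𝓞 K) → ZMod p) →ₗ[ZMod p] (𝓞 K → ZMod p) :=
    { toFun := fun g x => ∑ i, ((b.repr x i : ℤ) : ZMod p) * g i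
      map_add' := by
        intro g h
        ext x
        simp only [Pi.add_apply, mul_add, Finset.sum_add_distrib]
      map_smul' := by
        intro c g
        ext x
        simp only [Pi.smul_apply, smul_eq_mul, RingHom.id_apply, Finset.mul_sum]
        exact Finset.sum_congr rfl fun i _ => by ring }
  let w : (𝓞 K →+* ZMod p) → (Module.Free.ChooseBasisIndex ℤ (𝓞 K) → ZMod p) :=
    fun φ i => φ (b i)
  have hE : ∀ φ : 𝓞 K →+* ZMod p, E (w φ) = (φ : 𝓞 K → ZMod p) := by
    intro φ
    ext x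
    have hx : x = ∑ i, b.repr x i • b i := (b.sum_repr x).symm
    have h1 : φ x = ∑ i, ((b.repr x i : ℤ) : ZMod p) * φ (b i) := by
      conv_lhs => rw [hx, map_sum]
      exact Finset.sum_congr rfl fun i _ => by rw [map_zsmul, zsmul_eq_mul]
    exact h1.symm
  have hli : LinearIndependent (ZMod p)
      (fun φ : 𝓞 K →+* ZMod p => (φ : 𝓞 K → ZMod p)) := by
    refine (linearIndependent_monoidHom (𝓞 K) (ZMod p)).comp
      (fun φ : 𝓞 K →+* ZMod p => (φ : 𝓞 K →* ZMod p)) ?_
    intro φ ψ h
    ext x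
    exact DFunLike.congr_fun h x
  have hw : LinearIndependent (ZMod p) w := by
    refine LinearIndependent.of_comp E ?_
    have : (E ∘ w) = fun φ : 𝓞 K →+* ZMod p => (φ : 𝓞 K → ZMod p) := by
      funext φ
      exact hE φ
    rw [this]
    exact hli
  have hfin : Finite (𝓞 K →+* ZMod p) := hw.finite
  refine ⟨?_, hfin⟩
  have := Fintype.ofFinite (𝓞 K →+* ZMod p)
  have h1 := hw.fintype_card_le_finrank
  rw [Module.finrank_fintype_fun_eq_card] at h1
  unfold hK
  rw [Nat.card_eq_fintype_card, ← RingOfIntegers.rank K, Module.finrank_eq_card_chooseBasisIndex]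
  exact h1

end W_HFIN

theorem t_HFIN : HFIN := by
  intro K _ _ p hp
  haveI : Fact p.Prime := ⟨hp⟩
  exact W_HFIN.main K p

end Pool.Agent.H901R3.MS
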