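import Mathlib
import Pool.Agent.H901R3.MS.Stm

/-!
Project MS (helper901), second part: number fields.
-/

set_option autoImplicit false

namespace Pool.Agent.H901R3.MS

open WeierstrassCurve NumberField

/-! ### Reduction of points at a place, coefficients in the valuation ring -/

/-- R1K: integrality of the coordinates -/
def R1K : Prop := ∀ (K k : Type) [Field K] [Field k] (v : Place K k) (a b : K), a ∈ v.A → b ∈ v.A →
  ∀ (x y : K), Eqn a b x y →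
    (x ∈ v.A → y ∈ v.A) ∧
    (x ∉ v.A → x ≠ 0 ∧ y ≠ 0 ∧ x⁻¹ ∈ v.A ∧ v.r x⁻¹ = 0 ∧ x / y ∈ v.A ∧ v.r (x / y) = 0 ∧
      y⁻¹ ∈ v.A ∧ v.r y⁻¹ = 0)

/-- R2K: sum of two integral points with different reductions of the `x`-coordinates -/
def R2K : Prop := ∀ (K k : Type) [Field K] [Field k] [DecidableEq K] [DecidableEq k]
  (v : Place K k) (a b : K), a ∈ v.A → b ∈ v.A → ∀ (x₁ y₁ x₂ y₂ : K)
  (h₁ : (CV a b).toAffine.Nonsingular x₁ y₁) (h₂ : (CV a b).toAffine.Nonsingular x₂ y₂)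
  (g₁ : (CV (v.r a) (v.r b)).toAffine.Nonsingular (v.r x₁) (v.r y₁))
  (g₂ : (CV (v.r a) (v.r b)).toAffine.Nonsingular (v.r x₂) (v.r y₂)),
  x₁ ∈ v.A → y₁ ∈ v.A → x₂ ∈ v.A → y₂ ∈ v.A → v.r x₁ ≠ v.r x₂ →
    ∃ (x₃ y₃ : K) (h₃ : (CV a b).toAffine.Nonsingular x₃ y₃)
      (g₃ : (CV (v.r a) (v.r b)).toAffine.Nonsingular (v.r x₃) (v.r y₃)),
      x₃ ∈ v.A ∧ y₃ ∈ v.A ∧
      (Affine.Point.some x₁ y₁ h₁ + Affine.Point.some x₂ y₂ h₂ : Pt a b) =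
        Affine.Point.some x₃ y₃ h₃ ∧
      (Affine.Point.some _ _ g₁ + Affine.Point.some _ _ g₂ : Pt (v.r a) (v.r b)) =
        Affine.Point.some _ _ g₃

/-- R3K: sum of two integral points with equal reductions of the `x`-coordinates, not opposite -/
def R3K : Prop := ∀ (K k : Type) [Field K] [Field k] [DecidableEq K] [DecidableEq k]
  (v : Place K k) (a b : K), a ∈ v.A → b ∈ v.A → ∀ (x₁ y₁ x₂ y₂ : K)
  (h₁ : (CV a b).toAffine.Nonsingular x₁ y₁) (h₂ : (CV a b).toAffine.Nonsingular x₂ y₂)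
  (g₁ : (CV (v.r a) (v.r b)).toAffine.Nonsingular (v.r x₁) (v.r y₁))
  (g₂ : (CV (v.r a) (v.r b)).toAffine.Nonsingular (v.r x₂) (v.r y₂)),
  x₁ ∈ v.A → y₁ ∈ v.A → x₂ ∈ v.A → y₂ ∈ v.A → v.r x₁ = v.r x₂ → v.r y₁ ≠ -v.r y₂ →
    ∃ (x₃ y₃ : K) (h₃ : (CV a b).toAffine.Nonsingular x₃ y₃)
      (g₃ : (CV (v.r a) (v.r b)).toAffine.Nonsingular (v.r x₃) (v.r y₃)),
      x₃ ∈ v.A ∧ y₃ ∈ v.A ∧
      (Affine.Point.some x₁ y₁ h₁ + Affine.Point.some x₂ y₂ h₂ : Pt a b) =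
        Affine.Point.some x₃ y₃ h₃ ∧
      (Affine.Point.some _ _ g₁ + Affine.Point.some _ _ g₂ : Pt (v.r a) (v.r b)) =
        Affine.Point.some _ _ g₃

/-- R4K: sum of two integral points with opposite reductions -/
def R4K : Prop := ∀ (K k : Type) [Field K] [Field k] [DecidableEq K]
  (v : Place K k) (a b : K), a ∈ v.A → b ∈ v.A → Disc (v.r a) (v.r b) → ∀ (x₁ y₁ x₂ y₂ : K)
  (h₁ : (CV a b).toAffine.Nonsingular x₁ y₁) (h₂ : (CV a b).toAffine.Nonsingular x₂ y₂),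
  x₁ ∈ v.A → y₁ ∈ v.A → x₂ ∈ v.A → y₂ ∈ v.A → v.r x₁ = v.r x₂ → v.r y₁ = -v.r y₂ →
    (Affine.Point.some x₁ y₁ h₁ + Affine.Point.some x₂ y₂ h₂ : Pt a b) = 0 ∨
    ∃ (x₃ y₃ : K) (h₃ : (CV a b).toAffine.Nonsingular x₃ y₃),
      x₃ ∉ v.A ∧ (Affine.Point.some x₁ y₁ h₁ + Affine.Point.some x₂ y₂ h₂ : Pt a b) =
        Affine.Point.some x₃ y₃ h₃

/-- R5K: the sum of a non-integral and an integral point is integral -/
def R5K : Prop := ∀ (K k : Type) [Field K] [Field k] [DecidableEq K]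
  (v : Place K k) (a b : K), a ∈ v.A → b ∈ v.A → ∀ (x₁ y₁ x₂ y₂ : K)
  (h₁ : (CV a b).toAffine.Nonsingular x₁ y₁) (h₂ : (CV a b).toAffine.Nonsingular x₂ y₂),
  x₁ ∉ v.A → x₂ ∈ v.A → y₂ ∈ v.A →
    ∃ (x₃ y₃ : K) (h₃ : (CV a b).toAffine.Nonsingular x₃ y₃),
      x₃ ∈ v.A ∧ (Affine.Point.some x₁ y₁ h₁ + Affine.Point.some x₂ y₂ h₂ : Pt a b) =
        Affine.Point.some x₃ y₃ h₃

/-- `red` is the reduction map at the place `v` -/
def IsRedK {K k : Type} [Field K] [Field k] (v : Place K k) (a b : K)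
    (red : Pt a b → Pt (v.r a) (v.r b)) : Prop :=
  red Affine.Point.zero = Affine.Point.zero ∧
  (∀ (x y : K) (h : (CV a b).toAffine.Nonsingular x y), x ∉ v.A →
    red (Affine.Point.some x y h) = Affine.Point.zero) ∧
  (∀ (x y : K) (h : (CV a b).toAffine.Nonsingular x y), x ∈ v.A →
    y ∈ v.A ∧ ∃ g : (CV (v.r a) (v.r b)).toAffine.Nonsingular (v.r x) (v.r y),
      red (Affine.Point.some x y h) = Affine.Point.some _ _ g)

/-- R6K: the reduction map exists and is a homomorphism -/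
def R6K : Prop := R1K → R2K → R3K → R4K → R5K →
  ∀ (K k : Type) [Field K] [Field k] [DecidableEq K] [DecidableEq k] (v : Place K k) (a b : K),
    a ∈ v.A → b ∈ v.A → Disc (v.r a) (v.r b) →
      ∃ red : Pt a b →+ Pt (v.r a) (v.r b), IsRedK v a b red

/-- R7K: homogeneous coordinates of the reduction -/
def R7K : Prop := R1K → ∀ (K k : Type) [Field K] [Field k] (v : Place K k) (a b : K), a ∈ v.A →
  b ∈ v.A → ∀ (red : Pt a b → Pt (v.r a) (v.r b)), IsRedK v a b red → ∀ P : Pt a b,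
    ∃ u : K, u ≠ 0 ∧ ∀ j, u * rep P j ∈ v.A ∧ v.r (u * rep P j) = rep (red P) j

/-- PLK: the place of a number field defined by a homomorphism `𝓞 K → F_p` -/
def PLK : Prop := ∀ (K : Type) [Field K] [NumberField K] (p : ℕ) [Fact p.Prime]
  (φ : 𝓞 K →+* ZMod p), ∃ v : Place K (ZMod p), ∀ x : 𝓞 K, (x : K) ∈ v.A ∧ v.r (x : K) = φ x

/-- C1K -/
def C1K : Prop := ∀ (p : ℕ) [Fact p.Prime], p % 4 = 3 → ∀ a b : ZMod p, b = 0 → a ≠ 0 →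
  ∀ P : Pt a b, (p + 1) • P = 0

/-- C2K -/
def C2K : Prop := ∀ (p : ℕ) [Fact p.Prime], p % 3 = 2 → p ≠ 2 → ∀ a b : ZMod p, a = 0 → b ≠ 0 →
  ∀ P : Pt a b, (p + 1) • P = 0

/-! ### Forms with coefficients in a ring `A`, evaluated through `φ : A → F` -/

/-- the value of a form with coefficients in `A` through `φ : A →+* F` -/
noncomputable def evR {A F : Type} [CommRing A] [Field F] (φ : A →+* F) {r : ℕ}
    (f : Expo r →₀ A) (V : Fin r → Fin 3 → F) : F :=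
  f.sum (fun e n => φ n * mono e V)

/-- `f` is multihomogeneous of multidegree `d` -/
def HomogR {A : Type} [CommRing A] {r : ℕ} (f : Expo r →₀ A) (d : Fin r → ℕ) : Prop :=
  ∀ e ∈ f.support, ∀ i, ∑ j, e i j = d i

/-- `F_c = Σ c_s f_s` -/
noncomputable def FcR {A F : Type} [CommRing A] [Field F] (φ : A →+* F) {r : ℕ} {S : Type}
    [Fintype S] (f : S → (Expo r →₀ A)) (c : S → ℤ) (V : Fin r → Fin 3 → F) : F :=
  ∑ s, (c s : F) * evR φ (f s) V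

/-- HOK: scaling -/
def HOK : Prop := ∀ (A F : Type) [CommRing A] [Field F] (φ : A →+* F) (r : ℕ) (S : Type) [Fintype S]
  (f : S → (Expo r →₀ A)) (d : Fin r → ℕ), (∀ s, HomogR (f s) d) →
    ∀ (c : S → ℤ) (V : Fin r → Fin 3 → F) (u : Fin r → F),
      FcR φ f c (fun i j => u i * V i j) = (∏ i, u i ^ d i) * FcR φ f c V

/-- EVRK: reduction of the values of the forms -/
def EVRK : Prop := ∀ (A K k : Type) [CommRing A] [Field K] [Field k] (ι : A →+* K) (φ : A →+* k)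
  (v : Place K k), (∀ x : A, ι x ∈ v.A ∧ v.r (ι x) = φ x) → ∀ (r : ℕ) (S : Type) [Fintype S]
  (f : S → (Expo r →₀ A)) (c : S → ℤ) (V : Fin r → Fin 3 → K), (∀ i j, V i j ∈ v.A) →
    FcR ι f c V ∈ v.A ∧ v.r (FcR ι f c V) = FcR φ f c (fun i j => v.r (V i j))

/-- LCK: the local condition -/
def LCK : Prop := HOK → EVRK → ∀ (A K k : Type) [CommRing A] [Field K] [Field k] (ι : A →+* K)
  (φ : A →+* k) (v : Place K k), (∀ x : A, ι x ∈ v.A ∧ v.r (ι x) = φ x) → ∀ (r : ℕ)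
  (V : Fin r → Fin 3 → K) (W : Fin r → Fin 3 → k),
  (∀ i, ∃ u : K, u ≠ 0 ∧ ∀ j, u * V i j ∈ v.A ∧ v.r (u * V i j) = W i j) →
  ∀ m : ℕ, 1 ≤ m → ∀ (S : Type) [Fintype S] (f : S → (Expo r →₀ A)) (d : Fin r → ℕ),
    (∀ i, m ∣ d i) → (∀ s, HomogR (f s) d) → ∀ (c : S → ℤ) (w : K),
      w ^ m = FcR ι f c V → ∃ t : k, t ^ m = FcR φ f c W

/-- the homogeneous Weierstrass equation over a field -/
def OnK {K : Type} [Field K] (a b : K) (V : Fin 3 → K) : Prop :=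
  V ≠ 0 ∧ V 1 ^ 2 * V 2 = V 0 ^ 3 + a * V 0 * V 2 ^ 2 + b * V 2 ^ 3

/-- PTSK -/
def PTSK : Prop := ∀ (K : Type) [Field K] (a b : K) (V : Fin 3 → K), Disc a b → OnK a b V →
  ∃ (P : Pt a b) (u : K), u ≠ 0 ∧ ∀ j, V j = u * rep P j

/-- the variety `w ^ m = F_c (P)`, `P ∈ E_1 × ... × E_r`, has a `K`-rational point -/
def HasPtK {K : Type} [Field K] [NumberField K] {r : ℕ} (a b : Fin r → 𝓞 K) (m : ℕ) {S : Type}
    [Fintype S] (f : S → (Expo r →₀ 𝓞 K)) (c : S → ℤ) : Prop :=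
  ∃ (V : Fin r → Fin 3 → K) (w : K), (∀ i, OnK (a i : K) (b i : K) (V i)) ∧
    w ^ m = FcR (algebraMap (𝓞 K) K) f c V

/-- HPK: a rational point of the cover gives rational points `P_i` -/
def HPK : Prop := HOK → PTSK → ∀ (K : Type) [Field K] [NumberField K] (r : ℕ) (a b : Fin r → 𝓞 K),
  (∀ i, Disc (a i : K) (b i : K)) →
  ∀ m : ℕ, 1 ≤ m → ∀ (S : Type) [Fintype S] (f : S → (Expo r →₀ 𝓞 K)) (d : Fin r → ℕ),
    (∀ i, m ∣ d i) → (∀ s, HomogR (f s) d) → ∀ c : S → ℤ, HasPtK a b m f c →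
      ∃ (P : ∀ i, Pt (a i : K) (b i : K)) (w : K),
        w ^ m = FcR (algebraMap (𝓞 K) K) f c (fun i => rep (P i))

/-- M1K: the Mordell-Weil theorem for `y ^ 2 = x ^ 3 + a x + b` over a number field -/
def M1K : Prop := ∀ (K : Type) [Field K] [NumberField K] [DecidableEq K] (a b : K), Disc a b →
  AddGroup.FG (Pt a b)

/-- the conditions on `p` -/
def CondP (A B : Prop) (p : ℕ) : Prop := (A → p % 4 = 3) ∧ (B → p % 3 = 2)

/-- ZLK: roots of unity and degree one primes -/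
def ZLK : Prop := ∀ (K : Type) [Field K] [NumberField K] (l : ℕ), l.Prime → l ≠ 2 →
  (∃ ζ : K, IsPrimitiveRoot ζ l) → ∀ (p : ℕ) [Fact p.Prime], p ≠ l →
    ∀ _ : 𝓞 K →+* ZMod p, p % l = 1

/-- the forms `f_s` have no common zero on the reductions of `E_1 × ... × E_r` -/
def NoZeroK {K : Type} [Field K] [NumberField K] {r : ℕ} (a b : Fin r → 𝓞 K) {S : Type}
    (f : S → (Expo r →₀ 𝓞 K)) (p : ℕ) [Fact p.Prime] (φ : 𝓞 K →+* ZMod p) : Prop :=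
  ∀ P : (i : Fin r) → Pt (φ (a i)) (φ (b i)), ∃ s, evR φ (f s) (fun i => rep (P i)) ≠ 0

/-- the sieve inequality over a number field -/
def SieveK : Prop := ∀ (K : Type) [Field K] [NumberField K] (r : ℕ) (a b : Fin r → 𝓞 K),
  (∀ i, (b i = 0 ∧ a i ≠ 0) ∨ (a i = 0 ∧ b i ≠ 0)) →
  ∀ l m : ℕ, l.Prime → l ∣ m → 1 ≤ m → ∀ (S : Type) [Fintype S] [DecidableEq S]
    (f : S → (Expo r →₀ 𝓞 K)) (d : Fin r → ℕ), (∀ i, m ∣ d i) → (∀ s, HomogR (f s) d) →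
    ∃ p₀ R : ℕ, ∀ T : Finset ℕ,
      (∀ (p : ℕ) (hp : p.Prime), p ∈ T → p₀ ≤ p ∧ CondP (∃ i, b i = 0) (∃ i, a i = 0) p ∧
        (l = 2 ∨ p % l = 1) ∧ ∃ φ : 𝓞 K →+* ZMod p, @NoZeroK K _ _ r a b S f p ⟨hp⟩ φ) →
      (∀ p ∈ T, p.Prime) → ∀ L : ℕ, 1 ≤ L → (∀ p ∈ T, p + 1 ∣ L) → ∀ H : ℕ,
        ∏ p ∈ T, p ≤ 2 * H + 1 →
        (({c : S → ℤ | c ∈ Box S H ∧ HasPtK a b m f c}.ncard : ℕ) : ℝ) ≤
          (2 * (2 * (H : ℝ) + 1)) ^ Fintype.card S * ((L : ℝ) ^ R * (2 / 3) ^ T.card)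

/-- Z0K: assembly of the sieve inequality -/
def Z0K : Prop :=
  (∀ (K k : Type) [Field K] [Field k] [DecidableEq K] [DecidableEq k] (v : Place K k) (a b : K),
    a ∈ v.A → b ∈ v.A → Disc (v.r a) (v.r b) →
      ∃ red : Pt a b →+ Pt (v.r a) (v.r b), IsRedK v a b red) →
  (∀ (K k : Type) [Field K] [Field k] (v : Place K k) (a b : K), a ∈ v.A →
    b ∈ v.A → ∀ (red : Pt a b → Pt (v.r a) (v.r b)), IsRedK v a b red → ∀ P : Pt a b,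
      ∃ u : K, u ≠ 0 ∧ ∀ j, u * rep P j ∈ v.A ∧ v.r (u * rep P j) = rep (red P) j) →
  PLK → C1K → C2K → HOK → EVRK → LCK → PTSK → HPK → M1K → M2 → MP → LF → BOX → SieveK

/-! ### Primes of degree one -/

/-- the number of homomorphisms `𝓞 K → F_p` (primes of degree one above `p`) -/
noncomputable def hK (K : Type) [Field K] [NumberField K] (p : ℕ) : ℕ := Nat.card (𝓞 K →+* ZMod p)

/-- HFIN: `hK K p ≤ [K : ℚ]` -/
def HFIN : Prop := ∀ (K : Type) [Field K] [NumberField K] (p : ℕ), p.Prime →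
  hK K p ≤ Module.finrank ℚ K ∧ Finite (𝓞 K →+* ZMod p)

/-- H2: quadratic extensions by `√d`: two extensions of each homomorphism when `d` is a square -/
def H2 : Prop := ∀ (K : Type) [Field K] [NumberField K] (d : ℤ), d ≠ 0 →
  (¬ ∃ x : K, x ^ 2 = (d : K)) → ∃ (F : Type) (_ : Field F) (_ : NumberField F),
    ∀ p : ℕ, p.Prime → ¬ ((p : ℤ) ∣ 2 * d) → (∃ t : ZMod p, t ^ 2 = (d : ZMod p)) →
      2 * hK K p ≤ hK F p

/-- H4: the extension by `√-1` and `√-3` -/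
def H4 : Prop := ∀ (K : Type) [Field K] [NumberField K],
  ∃ (M : Type) (_ : Field M) (_ : NumberField M), ∃ p₀ : ℕ, ∀ p : ℕ, p.Prime → p₀ ≤ p →
    hK M p ≤ 4 * hK K p ∧ (hK M p ≠ 0 → p % 12 = 1)

/-- the prime ideal theorem -/
def PITK : Prop := ∀ (K : Type) [Field K] [NumberField K],
  Filter.Tendsto (fun N : ℕ => (∑ p ∈ (Finset.range (N + 1)).filter Nat.Prime,
      (hK K p : ℝ)) / (Nat.primeCounting N : ℝ)) Filter.atTop (nhds 1)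

open Classical in
/-- the primes `p ≤ y` with a degree one prime of `K` above them satisfying `CondP A B` -/
noncomputable def DegP (K : Type) [Field K] [NumberField K] (A B : Prop) (y : ℕ) : Finset ℕ :=
  (Finset.Icc 1 y).filter (fun p : ℕ => p.Prime ∧ CondP A B p ∧ Nonempty (𝓞 K →+* ZMod p))

/-- DK: density of the degree one primes with `p ≡ 3 (mod 4)` and (or) `p ≡ 2 (mod 3)` -/
def DK : Prop := HFIN → H2 → H4 → PITK → ∀ (K : Type) [Field K] [NumberField K] (A B : Prop),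
  (A → ¬ ∃ x : K, x ^ 2 = -1) → (B → ¬ ∃ x : K, x ^ 2 = -3) →
    ∃ κ : ℝ, 0 < κ ∧ ∃ Y : ℕ, ∀ y : ℕ, Y ≤ y →
      κ * (Nat.primeCounting y : ℝ) ≤ ((DegP K A B y).card : ℝ)

open Classical in
/-- the primes `p ≤ y` such that `p + 1` has a prime factor larger than `y ^ τ` -/
noncomputable def RoughP (τ : ℝ) (y : ℕ) : Finset ℕ :=
  (Finset.Icc 1 y).filter (fun p : ℕ => p.Prime ∧
    ∃ q : ℕ, q.Prime ∧ q ∣ p + 1 ∧ ⌊(y : ℝ) ^ τ⌋₊ < q)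

/-- RO: few primes `p` with `p + 1` having a very large prime factor -/
def RO : Prop := ∃ C : ℝ, 0 < C ∧ ∀ η : ℝ, 0 < η → η ≤ 1 / 4 → ∃ Y : ℕ, ∀ y : ℕ, Y ≤ y →
  ((RoughP (1 - η) y).card : ℝ) ≤ C * η * (y / Real.log y)

/-- SPK: a positive proportion of smooth shifted primes of degree one -/
def SPK : Prop := ∀ (K : Type) [Field K] [NumberField K] (A B : Prop),
  (A → ¬ ∃ x : K, x ^ 2 = -1) → (B → ¬ ∃ x : K, x ^ 2 = -3) →
    ∃ τ : ℝ, 0 < τ ∧ τ < 1 ∧ ∃ κ : ℝ, 0 < κ ∧ ∃ Y : ℕ, ∀ y : ℕ, Y ≤ y →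
      κ * (y / Real.log y) ≤ ((DegP K A B y \ RoughP τ y).card : ℝ)

/-- SPKX -/
def SPKX : Prop := (∀ (K : Type) [Field K] [NumberField K] (A B : Prop),
  (A → ¬ ∃ x : K, x ^ 2 = -1) → (B → ¬ ∃ x : K, x ^ 2 = -3) →
    ∃ κ : ℝ, 0 < κ ∧ ∃ Y : ℕ, ∀ y : ℕ, Y ≤ y →
      κ * (Nat.primeCounting y : ℝ) ≤ ((DegP K A B y).card : ℝ)) → RO → SPK

/-- ASYK: the final inequality, with an arbitrary exponent `τ < 1` -/
def ASYK : Prop := ∀ (s R : ℕ) (κ τ : ℝ), 0 < κ → 0 < τ → τ < 1 →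
  ∃ c : ℝ, 0 < c ∧ ∃ H₀ : ℕ, 3 ≤ H₀ ∧
  ∀ H : ℕ, H₀ ≤ H → ∀ (y t L : ℕ), y = ⌊Real.log (2 * H + 1) / Real.log 4⌋₊ →
    κ * (y / Real.log y) ≤ (t : ℝ) → (L : ℝ) ≤ ((y : ℝ) + 1) ^ ⌊(y : ℝ) ^ τ⌋₊ →
      (2 * (2 * (H : ℝ) + 1)) ^ s * ((L : ℝ) ^ R * (2 / 3) ^ t) ≤
        (2 * (H : ℝ) + 1) ^ s * Real.exp (-c * (Real.log H / Real.log (Real.log H)))

/-- the general theorem over a number field -/
def GenK : Prop := ∀ (K : Type) [Field K] [NumberField K] (r : ℕ) (a b : Fin r → 𝓞 K),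
  (∀ i, (b i = 0 ∧ a i ≠ 0 ∧ ¬ ∃ x : K, x ^ 2 = -1) ∨ (a i = 0 ∧ b i ≠ 0 ∧ ¬ ∃ x : K, x ^ 2 = -3)) →
  ∀ l m : ℕ, l.Prime → l ∣ m → 1 ≤ m → (l = 2 ∨ ∃ ζ : K, IsPrimitiveRoot ζ l) →
    ∀ (S : Type) [Fintype S] [DecidableEq S]
    (f : S → (Expo r →₀ 𝓞 K)) (d : Fin r → ℕ), (∀ i, m ∣ d i) → (∀ s, HomogR (f s) d) →
    (∃ p₁ : ℕ, ∀ (p : ℕ) (hp : p.Prime), p₁ ≤ p → CondP (∃ i, b i = 0) (∃ i, a i = 0) p →
      ∀ φ : 𝓞 K →+* ZMod p, @NoZeroK K _ _ r a b S f p ⟨hp⟩ φ) →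
    ∃ c : ℝ, 0 < c ∧ ∃ H₀ : ℕ, ∀ H : ℕ, H₀ ≤ H →
      (({c : S → ℤ | c ∈ Box S H ∧ HasPtK a b m f c}.ncard : ℕ) : ℝ) ≤
        (2 * (H : ℝ) + 1) ^ Fintype.card S *
          Real.exp (-c * (Real.log H / Real.log (Real.log H)))

/-- Z1K: assembly of the general theorem -/
def Z1K : Prop := SieveK → SPK → LY → ASYK → ZLK → GenK

/-- MAIN K: complete linear systems (more generally systems of monomials) with coefficients in the
ring of integers `𝓞 K` -/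
def MainK : Prop := ∀ (K : Type) [Field K] [NumberField K] (n : ℕ) (ω : Module.Basis (Fin n) ℤ (𝓞 K))
  (r : ℕ) (a b : Fin r → 𝓞 K),
  (∀ i, (b i = 0 ∧ a i ≠ 0 ∧ ¬ ∃ x : K, x ^ 2 = -1) ∨ (a i = 0 ∧ b i ≠ 0 ∧ ¬ ∃ x : K, x ^ 2 = -3)) →
  ∀ l m : ℕ, l.Prime → l ∣ m → 1 ≤ m → (l = 2 ∨ ∃ ζ : K, IsPrimitiveRoot ζ l) →
    ∀ d : Fin r → ℕ, (∀ i, m ∣ d i) → ∀ S : Finset (Expo r),
      (∀ e ∈ S, ∀ i, ∑ j, e i j = d i) →
      (∀ σ : Fin r → Fin 3, (fun i j => if j = σ i then d i else 0) ∈ S) →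
    ∃ c : ℝ, 0 < c ∧ ∃ H₀ : ℕ, ∀ H : ℕ, H₀ ≤ H →
      (({c : S → Fin n → ℤ | (∀ e j, |c e j| ≤ H) ∧ ∃ (V : Fin r → Fin 3 → K) (w : K),
          (∀ i, OnK (a i : K) (b i : K) (V i)) ∧
            w ^ m = ∑ e : S, ((∑ j, c e j • ω j : 𝓞 K) : K) * ∏ i, ∏ j, V i j ^ e.1 i j}.ncard : ℕ)
              : ℝ) ≤
        (2 * (H : ℝ) + 1) ^ (S.card * n) *
          Real.exp (-c * (Real.log H / Real.log (Real.log H)))

/-- ZAK: MAIN K from the general theorem -/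
def ZAK : Prop := GenK → MainK

end Pool.Agent.H901R3.MS
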