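import Mathlib
import Pool.Agent.H901R3.MS.Stm2

set_option autoImplicit false

namespace Pool.Agent.H901R3.MS

open NumberField

/-- HPK: a rational point of the cover gives rational points `P_i` -/
theorem t_HPK : HPK := by
  intro hHO hPTS K _ _ r a b hD m hm S _ f d hd hf c hpt
  obtain ⟨V, w, hV, hw⟩ := hpt
  choose P u hu hPu using fun i => hPTS K (a i : K) (b i : K) (V i) (hD i) (hV i)
  choose k hk using hd
  have hVe : V = fun i j => u i * rep (P i) j := by
    funext i j
    exact hPu i j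
  have h1 := hHO (𝓞 K) K (algebraMap (𝓞 K) K) r S f d hf c (fun i => rep (P i)) u
  rw [hVe, h1] at hw
  have h2 : (∏ i, u i ^ d i) = (∏ i, u i ^ k i) ^ m := by
    rw [← Finset.prod_pow]
    refine Finset.prod_congr rfl fun i _ => ?_
    rw [hk i, ← pow_mul, mul_comm]
  have h3 : (∏ i, u i ^ k i) ≠ 0 :=
    Finset.prod_ne_zero_iff.2 fun i _ => pow_ne_zero _ (hu i)
  refine ⟨P, w / ∏ i, u i ^ k i, ?_⟩
  rw [div_pow, hw, h2, mul_div_cancel_left₀ _ (pow_ne_zero _ h3)]

end Pool.Agent.H901R3.MS
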