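import Mathlib
import Pool.Agent.H901R3.MS.Stm2

set_option autoImplicit false

namespace Pool.Agent.H901R3.MS

open NumberField

/-- LCK: the local condition -/
theorem t_LCK : LCK := by
  intro hHO hEVR A K k _ _ _ ι φ v hv r V W hV m hm S _ f d hmd hH c w hw
  choose u hu0 hu using hV
  choose kk hkk using hmd
  have h1 : (w * ∏ i, u i ^ kk i) ^ m = FcR ι f c (fun i j => u i * V i j) := by
    rw [hHO A K ι r S f d hH c V u, ← hw, mul_pow, ← Finset.prod_pow, mul_comm]
    congr 1
    apply Finset.prod_congr rfl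
    intro i _
    rw [← pow_mul, hkk i, mul_comm]
  obtain ⟨h2, h3⟩ := hEVR A K k ι φ v hv r S f c (fun i j => u i * V i j) (fun i j => (hu i j).1)
  have h4 : (w * ∏ i, u i ^ kk i) ∈ v.A := v.mem_of_pow_mem hm (by rw [h1]; exact h2)
  refine ⟨v.r (w * ∏ i, u i ^ kk i), ?_⟩
  rw [← v.r_pow h4, h1, h3]
  congr 1
  funext i j
  exact (hu i j).2

end Pool.Agent.H901R3.MS
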