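import Pool.Agent.H901R3.MS.Stm2
import Pool.Agent.H484R2.Pit

set_option autoImplicit false

namespace Pool.Agent.H901R3.MS

theorem t_PITK : PITK := Pool.Agent.H484R2.pit

end Pool.Agent.H901R3.MS
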