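import Pool.Agent.H901R3.MS.Stm2

/-! PLK (helper355): the place of a number field defined by a homomorphism `𝓞 K → F_p`. -/

set_option autoImplicit false

namespace Pool.Agent.H901R3.MS

open NumberField

namespace W_PLK

/-- the place defined by a homomorphism from a valuation ring to a field which is nonzero outside
the maximal ideal -/
theorem place_of {K k R : Type} [Field K] [Field k] [CommRing R] [IsDomain R] [ValuationRing R]
    [Algebra R K] [IsFractionRing R K] (h : R →+* k) (hu : ∀ r : R, h r ≠ 0 → IsUnit r) :
    ∃ v : Place K k, ∀ r : R, algebraMap R K r ∈ v.A ∧ v.r (algebraMap R K r) = h r := by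
  have hinj : Function.Injective (algebraMap R K) := IsFractionRing.injective R K
  let e : R ≃+* (algebraMap R K).range :=
    RingEquiv.ofBijective (algebraMap R K).rangeRestrict
      ⟨fun a b hab => hinj (congrArg Subtype.val hab), (algebraMap R K).rangeRestrict_surjective⟩
  have he : ∀ (r : R) (y : (algebraMap R K).range), algebraMap R K r = y →
      h.comp (e.symm : (algebraMap R K).range →+* R) y = h r := by
    intro r y hr
    have h1 : y = e r := Subtype.ext hr.symm
    rw [h1, RingHom.comp_apply]
    congr 1
    exact e.symm_apply_apply r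
  have hinv : ∀ r : R, h r ≠ 0 → (algebraMap R K r)⁻¹ ∈ (algebraMap R K).range := by
    intro r hr
    obtain ⟨u, hu'⟩ := hu r hr
    refine ⟨((u⁻¹ : Rˣ) : R), ?_⟩
    rw [← hu']
    refine eq_inv_of_mul_eq_one_left ?_
    rw [← map_mul, Units.inv_mul, map_one]
  let v : Place K k :=
    { A := (algebraMap R K).range
      ρ := h.comp (e.symm : (algebraMap R K).range →+* R)
      inv_of_notMem := by
        intro x hx
        rcases ValuationRing.isInteger_or_isInteger R x with hi | hi
        · obtain ⟨r, hr⟩ := hi
          exact absurd ⟨r, hr⟩ hx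
        · obtain ⟨r, hr⟩ := hi
          have hmem : x⁻¹ ∈ (algebraMap R K).range := ⟨r, hr⟩
          refine ⟨hmem, ?_⟩
          rw [he r ⟨x⁻¹, hmem⟩ hr]
          by_contra hne
          have h2 := hinv r hne
          rw [hr, inv_inv] at h2
          exact hx h2
      inv_of_ne := by
        intro y hx
        obtain ⟨r, hr⟩ := y.2
        rw [he r y hr] at hx
        rw [← hr]
        exact hinv r hx }
  refine ⟨v, fun r => ?_⟩
  have hmem : algebraMap R K r ∈ v.A := ⟨r, rfl⟩
  refine ⟨hmem, ?_⟩
  unfold Place.r
  rw [dif_pos hmem]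
  exact he r _ rfl

end W_PLK

open W_PLK in
theorem t_PLK : PLK := by
  intro K _ _ p _ φ
  have hprime : (RingHom.ker φ).IsPrime := RingHom.ker_isPrime φ
  generalize hP : RingHom.ker φ = P at hprime
  have hPne : P ≠ ⊥ := by
    intro h0
    have h1 : ((p : ℕ) : 𝓞 K) ∈ P := by
      rw [← hP, RingHom.mem_ker, map_natCast, ZMod.natCast_self]
    rw [h0, Ideal.mem_bot, Nat.cast_eq_zero] at h1
    exact (Fact.out : p.Prime).ne_zero h1
  have hmem : ∀ x : 𝓞 K, x ∈ P ↔ φ x = 0 := fun x => by rw [← hP, RingHom.mem_ker]
  haveI : IsDiscreteValuationRing (Localization.AtPrime P) :=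
    IsLocalization.AtPrime.isDiscreteValuationRing_of_dedekind_domain (𝓞 K) hPne _
  have hg : ∀ y : P.primeCompl, IsUnit (algebraMap (𝓞 K) K y) := by
    intro y
    rw [isUnit_iff_ne_zero, Ne, FaithfulSMul.algebraMap_eq_zero_iff]
    intro h0
    exact y.2 (h0 ▸ P.zero_mem)
  have hφ : ∀ y : P.primeCompl, IsUnit (φ y) := by
    intro y
    rw [isUnit_iff_ne_zero]
    intro h0
    exact y.2 ((hmem _).2 h0)
  letI : Algebra (Localization.AtPrime P) K :=
    (IsLocalization.lift (M := P.primeCompl) hg : Localization.AtPrime P →+* K).toAlgebra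
  haveI : IsScalarTower (𝓞 K) (Localization.AtPrime P) K :=
    IsScalarTower.of_algebraMap_eq fun x => (IsLocalization.lift_eq hg x).symm
  haveI : IsFractionRing (Localization.AtPrime P) K :=
    IsFractionRing.isFractionRing_of_isDomain_of_isLocalization P.primeCompl _ K
  obtain ⟨v, hv⟩ := place_of (K := K) (k := ZMod p) (R := Localization.AtPrime P)
    (IsLocalization.lift (M := P.primeCompl) hφ) (by
      intro r hr
      obtain ⟨⟨a, s⟩, rfl⟩ := IsLocalization.mk'_surjective P.primeCompl r
      have ha : a ∈ P.primeCompl := by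
        intro haP
        apply hr
        rw [IsLocalization.lift_mk'_spec, mul_zero]
        exact (hmem a).1 haP
      exact (IsLocalization.AtPrime.isUnit_mk'_iff (Localization.AtPrime P) P a s).2 ha)
  refine ⟨v, fun x => ?_⟩
  have h1 := hv (algebraMap (𝓞 K) _ x)
  rw [← IsScalarTower.algebraMap_apply, IsLocalization.lift_eq] at h1
  exact h1

end Pool.Agent.H901R3.MS
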