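import Pool.Agent.H901R3.MS.Stm2

/-!
# The reduction homomorphism exists, coefficients in the valuation ring (helper880, adapted from
helper742)
-/

set_option autoImplicit false

namespace Pool.Agent.H901R3.MS

open WeierstrassCurve

namespace W_R6K

section
variable {K k : Type} [Field K] [Field k] (v : Place K k) (a b : K)

/-- integral points -/
def IntP (P : Pt a b) : Prop :=
  ∃ (x y : K) (h : (CV a b).toAffine.Nonsingular x y), P = Affine.Point.some x y h ∧ x ∈ v.A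

theorem exists_red (ha : a ∈ v.A) (hb : b ∈ v.A) (hR1 : R1K) (hD : Disc (v.r a) (v.r b)) (P : Pt a b) :
    ∃ Q : Pt (v.r a) (v.r b), (¬ IntP v a b P → Q = Affine.Point.zero) ∧
      ∀ (x y : K) (h : (CV a b).toAffine.Nonsingular x y), P = Affine.Point.some x y h →
        x ∈ v.A → y ∈ v.A ∧ ∃ g : (CV (v.r a) (v.r b)).toAffine.Nonsingular (v.r x) (v.r y),
          Q = Affine.Point.some _ _ g := by
  by_cases hP : IntP v a b P
  · obtain ⟨x, y, h, rfl, hx⟩ := hP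
    have he := eqn_of h
    have hy : y ∈ v.A := (hR1 K k v a b ha hb x y he).1 hx
    have g : (CV (v.r a) (v.r b)).toAffine.Nonsingular (v.r x) (v.r y) := by
      rw [nonsingular_iff hD]
      unfold Eqn at he ⊢
      have h1 := congrArg v.r he
      rw [v.r_pow hy, v.r_add (v.A.add_mem (v.A.pow_mem hx 3) (v.A.mul_mem ha hx)) hb,
        v.r_add (v.A.pow_mem hx 3) (v.A.mul_mem ha hx), v.r_pow hx, v.r_mul ha hx] at h1
      exact h1
    refine ⟨Affine.Point.some _ _ g, fun hn => absurd ⟨x, y, h, rfl, hx⟩ hn, ?_⟩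
    intro x' y' h' he' _
    have hxx : x = x' ∧ y = y' := by
      simpa using he'
    obtain ⟨rfl, rfl⟩ := hxx
    exact ⟨hy, g, rfl⟩
  · refine ⟨Affine.Point.zero, fun _ => rfl, ?_⟩
    intro x y h he hx
    exact absurd ⟨x, y, h, he, hx⟩ hP

end

end W_R6K

open W_R6K in
theorem t_R6K : R6K := by
  intro hR1 hR2 hR3 hR4 hR5 K k _ _ _ _ v a b ha hb hD
  choose red hred0 hred1 using exists_red v a b ha hb hR1 hD
  have hzero : ∀ P, ¬ IntP v a b P → red P = 0 := fun P hP => hred0 P hP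
  have h00 : ¬ IntP v a b (0 : Pt a b) := by
    rintro ⟨x, y, h, he, -⟩
    exact Affine.Point.some_ne_zero h he.symm
  have hnon : ∀ (x y : K) (h : (CV a b).toAffine.Nonsingular x y), x ∉ v.A →
      ¬ IntP v a b (Affine.Point.some x y h) := by
    rintro x y h hx ⟨x', y', h', he, hx'⟩
    have hxx : x = x' ∧ y = y' := by simpa using he
    rw [hxx.1] at hx
    exact hx hx'
  -- sums of integral points
  have L1 : ∀ P Q, IntP v a b P → IntP v a b Q → red (P + Q) = red P + red Q := by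
    rintro P Q ⟨x₁, y₁, h₁, rfl, hx₁⟩ ⟨x₂, y₂, h₂, rfl, hx₂⟩
    obtain ⟨hy₁, g₁, e₁⟩ := hred1 _ x₁ y₁ h₁ rfl hx₁
    obtain ⟨hy₂, g₂, e₂⟩ := hred1 _ x₂ y₂ h₂ rfl hx₂
    rw [e₁, e₂]
    by_cases hx : v.r x₁ = v.r x₂
    · by_cases hy : v.r y₁ = -v.r y₂
      · rw [add_opp g₁ g₂ hx hy]
        apply hzero
        rcases hR4 K k v a b ha hb hD x₁ y₁ x₂ y₂ h₁ h₂ hx₁ hy₁ hx₂ hy₂ hx hy with h | ⟨x₃, y₃, h₃, h4, h5⟩
        · rw [h]; exact h00
        · rw [h5]; exact hnon x₃ y₃ h₃ h4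
      · obtain ⟨x₃, y₃, h₃, g₃, hx₃, hy₃, es, er⟩ :=
          hR3 K k v a b ha hb x₁ y₁ x₂ y₂ h₁ h₂ g₁ g₂ hx₁ hy₁ hx₂ hy₂ hx hy
        rw [er]
        obtain ⟨-, g, e⟩ := hred1 _ x₃ y₃ h₃ es hx₃
        rw [e]
    · obtain ⟨x₃, y₃, h₃, g₃, hx₃, hy₃, es, er⟩ :=
        hR2 K k v a b ha hb x₁ y₁ x₂ y₂ h₁ h₂ g₁ g₂ hx₁ hy₁ hx₂ hy₂ hx
      rw [er]
      obtain ⟨-, g, e⟩ := hred1 _ x₃ y₃ h₃ es hx₃
      rw [e]
  -- negation
  have hnegI : ∀ P, IntP v a b P → IntP v a b (-P) := by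
    rintro P ⟨x, y, h, rfl, hx⟩
    have h' : (CV a b).toAffine.Nonsingular x (-y) := by
      have h0 := (Affine.nonsingular_neg ..).mpr h
      have e : (CV a b).toAffine.negY x y = -y := by simp [Affine.negY, CV]
      rwa [e] at h0
    exact ⟨x, -y, h', neg_some' h h', hx⟩
  have hnegN : ∀ P, ¬ IntP v a b P → ¬ IntP v a b (-P) := by
    intro P hP hI
    apply hP
    have := hnegI _ hI
    rwa [neg_neg] at this
  have L2 : ∀ P, IntP v a b P → red (-P) = -red P := by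
    rintro P ⟨x, y, h, rfl, hx⟩
    obtain ⟨hy, g, e⟩ := hred1 _ x y h rfl hx
    have h' : (CV a b).toAffine.Nonsingular x (-y) := by
      have h0 := (Affine.nonsingular_neg ..).mpr h
      have e : (CV a b).toAffine.negY x y = -y := by simp [Affine.negY, CV]
      rwa [e] at h0
    obtain ⟨-, g', e'⟩ := hred1 _ x (-y) h' (neg_some' h h') hx
    rw [e', e]
    have g'' : (CV (v.r a) (v.r b)).toAffine.Nonsingular (v.r x) (-(v.r y)) := by
      have := g'
      rwa [v.r_neg hy] at this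
    rw [neg_some' g g'']
    congr 1
    exact v.r_neg hy
  -- a non-integral plus an integral point
  have L3 : ∀ P Q, ¬ IntP v a b P → IntP v a b Q → IntP v a b (P + Q) := by
    intro P Q hP hQ
    obtain ⟨x₂, y₂, h₂, rfl, hx₂⟩ := hQ
    obtain ⟨hy₂, -, -⟩ := hred1 _ x₂ y₂ h₂ rfl hx₂
    rcases P with _ | ⟨x₁, y₁, h₁⟩
    · have e : (Affine.Point.zero + Affine.Point.some x₂ y₂ h₂ : Pt a b) =
          Affine.Point.some x₂ y₂ h₂ := zero_add _
      rw [e]
      exact ⟨x₂, y₂, h₂, rfl, hx₂⟩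
    · have hx₁ : x₁ ∉ v.A := fun hx => hP ⟨x₁, y₁, h₁, rfl, hx⟩
      obtain ⟨x₃, y₃, h₃, hx₃, es⟩ := hR5 K k v a b ha hb x₁ y₁ x₂ y₂ h₁ h₂ hx₁ hx₂ hy₂
      exact ⟨x₃, y₃, h₃, es, hx₃⟩
  have L4 : ∀ P Q, ¬ IntP v a b P → IntP v a b Q → red (P + Q) = red P + red Q := by
    intro P Q hP hQ
    have h1 := L1 (P + Q) (-Q) (L3 P Q hP hQ) (hnegI Q hQ)
    rw [add_neg_cancel_right, hzero P hP, L2 Q hQ] at h1
    rw [hzero P hP, zero_add]
    exact (add_neg_eq_zero.mp h1.symm)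
  have L5 : ∀ P Q, ¬ IntP v a b P → ¬ IntP v a b Q → red (P + Q) = red P + red Q := by
    intro P Q hP hQ
    have h1 : ¬ IntP v a b (P + Q) := by
      intro hI
      apply hP
      have h2 := L3 (-Q) (P + Q) (hnegN Q hQ) hI
      have e : -Q + (P + Q) = P := by abel
      rwa [e] at h2
    rw [hzero _ h1, hzero P hP, hzero Q hQ, add_zero]
  have hadd : ∀ P Q, red (P + Q) = red P + red Q := by
    intro P Q
    by_cases hP : IntP v a b P
    · by_cases hQ : IntP v a b Q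
      · exact L1 P Q hP hQ
      · rw [add_comm P Q, L4 Q P hQ hP, add_comm]
    · by_cases hQ : IntP v a b Q
      · exact L4 P Q hP hQ
      · exact L5 P Q hP hQ
  refine ⟨AddMonoidHom.mk' red hadd, ?_, ?_, ?_⟩
  · exact hzero _ h00
  · intro x y h hx
    exact hzero _ (hnon x y h hx)
  · intro x y h hx
    exact hred1 _ x y h rfl hx

end Pool.Agent.H901R3.MS
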