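import Pool.Agent.H901R3.MS.Stm2

/-!
# Homogeneous coordinates of the reduction, coefficients in the valuation ring (helper856)
-/

set_option autoImplicit false

namespace Pool.Agent.H901R3.MS

open WeierstrassCurve

theorem t_R7K : R7K := by
  intro hR1 K k _ _ v a b ha hb red hred P
  obtain ⟨h0, h1, h2⟩ := hred
  match P with
  | Affine.Point.zero =>
    refine ⟨1, one_ne_zero, fun j => ?_⟩
    rw [h0]
    fin_cases j <;> simp [rep, v.A.zero_mem, v.A.one_mem]
  | Affine.Point.some x y h =>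
    by_cases hx : x ∈ v.A
    · obtain ⟨hy, g, hg⟩ := h2 x y h hx
      refine ⟨1, one_ne_zero, fun j => ?_⟩
      rw [hg]
      fin_cases j <;> simp [rep, hx, hy, v.A.one_mem]
    · obtain ⟨-, hy0, -, -, h3, h4, h5, h6⟩ := (hR1 K k v a b ha hb x y (eqn_of h)).2 hx
      refine ⟨y⁻¹, inv_ne_zero hy0, fun j => ?_⟩
      rw [h1 x y h hx]
      have h7 : y⁻¹ * x = x / y := by rw [div_eq_mul_inv, mul_comm]
      fin_cases j
      · change y⁻¹ * x ∈ v.A ∧ v.r (y⁻¹ * x) = 0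
        rw [h7]
        exact ⟨h3, h4⟩
      · change y⁻¹ * y ∈ v.A ∧ v.r (y⁻¹ * y) = 1
        rw [inv_mul_cancel₀ hy0]
        exact ⟨v.A.one_mem, v.r_one⟩
      · change y⁻¹ * 1 ∈ v.A ∧ v.r (y⁻¹ * 1) = 0
        rw [mul_one]
        exact ⟨h5, h6⟩

end Pool.Agent.H901R3.MS
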