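import Pool.Agent.H901R3.MS.Stm2
import Pool.Agent.Erdos456.Smooth2

/-!
RO: few primes `p` with `p + 1` having a prime factor larger than `y^(1-η)`. (helper677)
-/

set_option autoImplicit false

namespace Pool.Agent.H901R3.MS

open Finset Filter

namespace W_RO

open Pool.Agent.Erdos456

/-- `∑_{m ≤ M} G(m)^2 / m ≤ C (1 + log M)` as a finite real sum -/
theorem sum_fin : ∃ C : ℝ, 0 < C ∧ ∀ M : ℕ,
    ∑ m ∈ Icc 1 M, GG m ^ 2 * (m : ℝ)⁻¹ ≤ C * (1 + Real.log M) := by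
  obtain ⟨C, hC, h⟩ := sum_GG_sq_div_le
  refine ⟨C, hC, fun M => ?_⟩
  have h1 := h M
  have h2 : ∑' b : ℕ, (if 1 ≤ b ∧ b ≤ M then ENNReal.ofReal (GG b ^ 2 * (b : ℝ)⁻¹) else 0) =
      ENNReal.ofReal (∑ m ∈ Icc 1 M, GG m ^ 2 * (m : ℝ)⁻¹) := by
    rw [tsum_eq_sum (s := Finset.Icc 1 M)]
    · rw [ENNReal.ofReal_sum_of_nonneg (fun i _ => by positivity)]
      refine Finset.sum_congr rfl fun s hs => ?_
      rw [Finset.mem_Icc] at hs
      rw [if_pos hs]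
    · intro s hs
      rw [Finset.mem_Icc] at hs
      rw [if_neg hs]
  rw [h2] at h1
  have h3 : 0 ≤ C * (1 + Real.log M) := by
    have : 0 ≤ Real.log M := Real.log_natCast_nonneg M
    positivity
  exact (ENNReal.ofReal_le_ofReal_iff h3).1 h1

/-- the sieve bound for one cofactor `m` -/
theorem one_m : ∃ C : ℝ, 0 < C ∧ ∀ m N : ℕ, 1 ≤ m → 2 ≤ N →
    (((Icc 1 N).filter (fun n => (n + 1).Prime ∧ (m * n + (m - 1)).Prime)).card : ℝ) ≤
      C * GG m ^ 2 * N / (Real.log N) ^ 2 := by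
  obtain ⟨C, hC, h⟩ := sieve_two'
  refine ⟨C, hC, fun m N hm hN => ?_⟩
  have h1 := h 1 1 m (m - 1) N one_pos hm (Nat.coprime_one_left _)
    ((Nat.coprime_self_sub_right hm).2 (Nat.coprime_one_right m)) (by omega) hN
  have e1 : (((1 * (m - 1) : ℕ) : ℤ) - ((m * 1 : ℕ) : ℤ)).natAbs = 1 := by omega
  rw [e1] at h1
  simpa only [one_mul, mul_one] using h1

open Classical in
theorem subset_union (η : ℝ) (y M : ℕ) (hη : 0 < η) (hy : 16 ≤ y) (hη4 : η ≤ 1 / 4)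
    (hM : ∀ m : ℕ, (m : ℝ) ≤ 2 * (y : ℝ) ^ η → m ≤ M) :
    RoughP (1 - η) y ⊆ (Icc 1 M).biUnion fun m =>
      ((Icc 1 ((y + 1) / m)).filter (fun n => (n + 1).Prime ∧ (m * n + (m - 1)).Prime)).image
        (fun n => m * n + (m - 1)) := by
  intro p hp
  unfold RoughP at hp
  rw [mem_filter, mem_Icc] at hp
  obtain ⟨⟨hp1, hpy⟩, hpp, q, hq, ⟨m, hm⟩, hqF⟩ := hp
  have hy0 : (0 : ℝ) < y := by
    have : (16 : ℝ) ≤ y := by exact_mod_cast hy
    linarith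
  have hm1 : 1 ≤ m := by
    rcases Nat.eq_zero_or_pos m with h0 | h0
    · rw [h0, Nat.mul_zero] at hm
      omega
    · exact h0
  have hqr : (y : ℝ) ^ (1 - η) < q := Nat.lt_of_floor_lt hqF
  have hmM : m ≤ M := by
    apply hM
    have h1 : (m : ℝ) * q ≤ 2 * y := by
      have : (q : ℝ) * m = p + 1 := by exact_mod_cast hm.symm
      have h2 : (p : ℝ) ≤ y := by exact_mod_cast hpy
      have h3 : (1 : ℝ) ≤ y := by
        have : (16 : ℝ) ≤ y := by exact_mod_cast hy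
        linarith
      nlinarith
    have h2 : (y : ℝ) ^ (1 - η) * (y : ℝ) ^ η = y := by
      rw [← Real.rpow_add hy0]
      simp
    have h3 : (0 : ℝ) < (y : ℝ) ^ (1 - η) := Real.rpow_pos_of_pos hy0 _
    have h4 : (m : ℝ) * (y : ℝ) ^ (1 - η) ≤ 2 * (y : ℝ) ^ η * (y : ℝ) ^ (1 - η) := by
      calc (m : ℝ) * (y : ℝ) ^ (1 - η) ≤ (m : ℝ) * q := by gcongr
        _ ≤ 2 * y := h1
        _ = 2 * (y : ℝ) ^ η * (y : ℝ) ^ (1 - η) := by
          rw [mul_assoc, mul_comm ((y : ℝ) ^ η), h2]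
    exact le_of_mul_le_mul_right h4 h3
  have hq2 := hq.two_le
  have hpe : m * (q - 1) + (m - 1) = p := by
    obtain ⟨k, rfl⟩ : ∃ k, q = k + 1 := ⟨q - 1, by omega⟩
    have : (k + 1) * m = m * k + m := by ring
    rw [this] at hm
    rw [Nat.add_sub_cancel]
    omega
  have hm0 : m ≠ 0 := by omega
  rw [mem_biUnion]
  refine ⟨m, mem_Icc.2 ⟨hm1, hmM⟩, ?_⟩
  rw [mem_image]
  refine ⟨q - 1, ?_, hpe⟩
  rw [mem_filter, mem_Icc]
  refine ⟨⟨by omega, ?_⟩, ?_, ?_⟩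
  · rw [Nat.le_div_iff_mul_le hm1]
    calc (q - 1) * m ≤ q * m := Nat.mul_le_mul_right m (by omega)
      _ = p + 1 := hm.symm
      _ ≤ y + 1 := by omega
  · rw [Nat.sub_add_cancel (by omega)]
    exact hq
  · rw [hpe]
    exact hpp

/-- the size of `(y + 1) / m` -/
theorem size_N (y m : ℕ) (hy : 256 ≤ y) (hm1 : 1 ≤ m) (hm : (m : ℝ) ≤ 2 * (y : ℝ) ^ ((1 : ℝ) / 4)) :
    2 ≤ (y + 1) / m ∧ Real.log y / 2 ≤ Real.log (((y + 1) / m : ℕ) : ℝ) ∧
      (((y + 1) / m : ℕ) : ℝ) ≤ 2 * y * (m : ℝ)⁻¹ := by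
  obtain ⟨t, ht⟩ : ∃ t : ℝ, t = (y : ℝ) ^ ((1 : ℝ) / 4) := ⟨_, rfl⟩
  have hyr : (256 : ℝ) ≤ y := by exact_mod_cast hy
  have hy0 : (0 : ℝ) < y := by linarith
  have ht4 : t ^ 4 = y := by
    rw [ht, ← Real.rpow_natCast, ← Real.rpow_mul hy0.le]
    norm_num
  have ht0 : 0 < t := by rw [ht]; exact Real.rpow_pos_of_pos hy0 _
  have ht1 : 4 ≤ t := by
    by_contra hlt
    push Not at hlt
    have : t ^ 4 < 4 ^ 4 := by gcongr
    rw [ht4] at this
    norm_num at this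
    linarith
  rw [← ht] at hm
  have hm0 : (0 : ℝ) < m := by exact_mod_cast hm1
  have hlow : t ^ 2 ≤ (((y + 1) / m : ℕ) : ℝ) := by
    have h1 : ((y + 1 : ℕ) : ℝ) < ((((y + 1) / m : ℕ) : ℝ) + 1) * m := by
      have : y + 1 < ((y + 1) / m + 1) * m := by
        rw [Nat.add_mul, one_mul]
        exact Nat.lt_div_mul_add hm1
      exact_mod_cast this
    push_cast at h1
    have h2 : t ^ 4 < ((((y + 1) / m : ℕ) : ℝ) + 1) * (2 * t) := by
      have h3 : (0:ℝ) ≤ (((y + 1) / m : ℕ) : ℝ) + 1 := by positivity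
      calc t ^ 4 = y := ht4
        _ < y + 1 := by linarith
        _ < ((((y + 1) / m : ℕ) : ℝ) + 1) * m := h1
        _ ≤ ((((y + 1) / m : ℕ) : ℝ) + 1) * (2 * t) := by gcongr
    have h3 : t ^ 3 < ((((y + 1) / m : ℕ) : ℝ) + 1) * 2 := by
      have : t ^ 3 * t < ((((y + 1) / m : ℕ) : ℝ) + 1) * 2 * t := by
        calc t ^ 3 * t = t ^ 4 := by ring
          _ < _ := h2
          _ = _ := by ring
      exact lt_of_mul_lt_mul_right this ht0.le
    nlinarith [mul_nonneg ht0.le ht0.le, mul_nonneg (mul_nonneg ht0.le ht0.le) (by linarith : (0:ℝ) ≤ t - 4)]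
  refine ⟨?_, ?_, ?_⟩
  · have : (2 : ℝ) ≤ (((y + 1) / m : ℕ) : ℝ) := by nlinarith
    exact_mod_cast this
  · have h1 : Real.log y / 2 = Real.log (t ^ 2) := by
      rw [← ht4, Real.log_pow, Real.log_pow]
      push_cast
      ring
    rw [h1]
    exact Real.log_le_log (by positivity) hlow
  · have h1 : (((y + 1) / m : ℕ) : ℝ) ≤ ((y + 1 : ℕ) : ℝ) / m := Nat.cast_div_le
    calc (((y + 1) / m : ℕ) : ℝ) ≤ ((y + 1 : ℕ) : ℝ) / m := h1
      _ ≤ (2 * y) / m := by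
        push_cast
        gcongr
        linarith
      _ = 2 * y * (m : ℝ)⁻¹ := by rw [div_eq_mul_inv]

end W_RO

open W_RO Pool.Agent.Erdos456 in
theorem t_RO : RO := by
  obtain ⟨C1, hC1, h1⟩ := one_m
  obtain ⟨C2, hC2, h2⟩ := sum_fin
  refine ⟨16 * C1 * C2, by positivity, fun η hη hη4 => ?_⟩
  obtain ⟨Y, hY⟩ : ∃ Y : ℕ, ∀ y : ℕ, Y ≤ y → 2 / η ≤ Real.log y := by
    have := (Real.tendsto_log_atTop.comp tendsto_natCast_atTop_atTop).eventually_ge_atTop (2 / η)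
    obtain ⟨Y, hY⟩ := eventually_atTop.1 this
    exact ⟨Y, fun y hy => hY y hy⟩
  refine ⟨max Y 256, fun y hy => ?_⟩
  have hyY : Y ≤ y := (le_max_left _ _).trans hy
  have hy256 : 256 ≤ y := (le_max_right _ _).trans hy
  have hyr : (256 : ℝ) ≤ y := by exact_mod_cast hy256
  have hy0 : (0 : ℝ) < y := by linarith
  have hlog : 2 / η ≤ Real.log y := hY y hyY
  have hlog0 : 0 < Real.log y := lt_of_lt_of_le (by positivity) hlog
  obtain ⟨M, hMdef⟩ : ∃ M : ℕ, M = ⌊2 * (y : ℝ) ^ η⌋₊ := ⟨_, rfl⟩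
  have hyη1 : (1 : ℝ) ≤ (y : ℝ) ^ η := Real.one_le_rpow (by linarith) hη.le
  have hMle : (M : ℝ) ≤ 2 * (y : ℝ) ^ η := by
    rw [hMdef]
    exact Nat.floor_le (by positivity)
  have hM1 : 1 ≤ M := by
    rw [hMdef]
    apply Nat.le_floor
    push_cast
    linarith
  have hsub := subset_union η y M hη (by omega) hη4 (fun m hm => by
    rw [hMdef]
    exact Nat.le_floor hm)
  have hcard : ((RoughP (1 - η) y).card : ℝ) ≤ ∑ m ∈ Icc 1 M,
      (((Icc 1 ((y + 1) / m)).filter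
        (fun n => (n + 1).Prime ∧ (m * n + (m - 1)).Prime)).card : ℝ) := by
    have h3 := (card_le_card hsub).trans card_biUnion_le
    have h4 : (RoughP (1 - η) y).card ≤ ∑ m ∈ Icc 1 M,
      ((Icc 1 ((y + 1) / m)).filter
        (fun n => (n + 1).Prime ∧ (m * n + (m - 1)).Prime)).card :=
      h3.trans (sum_le_sum fun m _ => card_image_le)
    exact_mod_cast h4
  have hterm : ∀ m ∈ Icc 1 M, (((Icc 1 ((y + 1) / m)).filter
        (fun n => (n + 1).Prime ∧ (m * n + (m - 1)).Prime)).card : ℝ) ≤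
        8 * C1 * (y / Real.log y ^ 2) * (GG m ^ 2 * (m : ℝ)⁻¹) := by
    intro m hm
    rw [mem_Icc] at hm
    have hm4 : (m : ℝ) ≤ 2 * (y : ℝ) ^ ((1 : ℝ) / 4) := by
      calc (m : ℝ) ≤ M := by exact_mod_cast hm.2
        _ ≤ 2 * (y : ℝ) ^ η := hMle
        _ ≤ 2 * (y : ℝ) ^ ((1 : ℝ) / 4) := by
          have : (y : ℝ) ^ η ≤ (y : ℝ) ^ ((1 : ℝ) / 4) :=
            Real.rpow_le_rpow_of_exponent_le (by linarith) hη4
          linarith
    obtain ⟨hN2, hNlog, hNle⟩ := size_N y m hy256 hm.1 hm4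
    have h3 := h1 m ((y + 1) / m) hm.1 hN2
    have hNl0 : 0 < Real.log (((y + 1) / m : ℕ) : ℝ) := lt_of_lt_of_le (by positivity) hNlog
    have h4 : (Real.log y / 2) ^ 2 ≤ Real.log (((y + 1) / m : ℕ) : ℝ) ^ 2 := by gcongr
    calc (((Icc 1 ((y + 1) / m)).filter
        (fun n => (n + 1).Prime ∧ (m * n + (m - 1)).Prime)).card : ℝ)
        ≤ C1 * GG m ^ 2 * (((y + 1) / m : ℕ) : ℝ) / Real.log (((y + 1) / m : ℕ) : ℝ) ^ 2 := h3
      _ ≤ C1 * GG m ^ 2 * (2 * y * (m : ℝ)⁻¹) / (Real.log y / 2) ^ 2 := by gcongr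
      _ = 8 * C1 * (y / Real.log y ^ 2) * (GG m ^ 2 * (m : ℝ)⁻¹) := by
        field_simp
        ring
  have hlogM : 1 + Real.log M ≤ 2 * η * Real.log y := by
    have h3 : Real.log M ≤ Real.log 2 + η * Real.log y := by
      have hM0 : (0 : ℝ) < M := by exact_mod_cast hM1
      calc Real.log M ≤ Real.log (2 * (y : ℝ) ^ η) := Real.log_le_log hM0 hMle
        _ = Real.log 2 + η * Real.log y := by
          rw [Real.log_mul (by norm_num) (by positivity), Real.log_rpow hy0]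
    have h4 : 2 ≤ η * Real.log y := by
      rw [div_le_iff₀ hη] at hlog
      linarith
    have h5 : Real.log 2 < 1 := by
      have := Real.log_two_lt_d9
      linarith
    linarith
  calc ((RoughP (1 - η) y).card : ℝ) ≤ _ := hcard
    _ ≤ ∑ m ∈ Icc 1 M, 8 * C1 * (y / Real.log y ^ 2) * (GG m ^ 2 * (m : ℝ)⁻¹) :=
      sum_le_sum hterm
    _ = 8 * C1 * (y / Real.log y ^ 2) * ∑ m ∈ Icc 1 M, GG m ^ 2 * (m : ℝ)⁻¹ := by
      rw [mul_sum]
    _ ≤ 8 * C1 * (y / Real.log y ^ 2) * (C2 * (1 + Real.log M)) := by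
      gcongr
      exact h2 M
    _ ≤ 8 * C1 * (y / Real.log y ^ 2) * (C2 * (2 * η * Real.log y)) := by
      gcongr
    _ = 16 * C1 * C2 * η * (y / Real.log y) := by
      field_simp
      ring

end Pool.Agent.H901R3.MS
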