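import Pool.Agent.H901R3.MS.Stm2

/-!
Project MS, task SPKX (helper954): smooth shifted degree one primes.
-/

set_option autoImplicit false

namespace Pool.Agent.H901R3.MS

open WeierstrassCurve NumberField

namespace W_SPKX

theorem cheb (y : ℕ) (hy : 30 ≤ y) :
    1 / 2 * ((y : ℝ) / Real.log y) ≤ (Nat.primeCounting y : ℝ) := by
  have hyR : (30 : ℝ) ≤ y := by exact_mod_cast hy
  have hlog : 0 < Real.log y := Real.log_pos (by linarith)
  refine le_trans ?_ (Chebyshev.pi_ge y)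
  have h1 : 1 / 2 * ((y : ℝ) / Real.log y) = (1 / 2 * y) / Real.log y := by ring
  rw [h1]
  apply div_le_div_of_nonneg_right _ hlog.le
  have h2 := Real.log_two_gt_d9
  have h3 : Real.log ((y : ℝ) + 1) ≤ ((y : ℝ) + 1) / 8 + 3 * Real.log 2 - 1 := by
    have h4 : (y : ℝ) + 1 = (((y : ℝ) + 1) / 8) * 2 ^ 3 := by ring
    have h5 : Real.log ((y : ℝ) + 1) = Real.log (((y : ℝ) + 1) / 8) + 3 * Real.log 2 := by
      conv_lhs => rw [h4]
      rw [Real.log_mul (by positivity) (by positivity), Real.log_pow]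
      push_cast
      ring
    rw [h5]
    have := Real.log_le_sub_one_of_pos (show (0 : ℝ) < ((y : ℝ) + 1) / 8 by positivity)
    linarith
  have h6 := Real.log_two_lt_d9
  nlinarith

end W_SPKX

open W_SPKX in
theorem t_SPKX : SPKX := by
  intro hDK hRO K _ _ A B hA hB
  obtain ⟨κ, hκ, Y₁, hY₁⟩ := hDK K A B hA hB
  obtain ⟨C, hC, hR⟩ := hRO
  obtain ⟨η, hη⟩ : ∃ η : ℝ, η = min (1 / 4) (κ / (4 * C)) := ⟨_, rfl⟩
  have hη0 : 0 < η := by rw [hη]; positivity
  have hη1 : η ≤ 1 / 4 := by rw [hη]; exact min_le_left _ _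
  have hη2 : C * η ≤ κ / 4 := by
    have : η ≤ κ / (4 * C) := by rw [hη]; exact min_le_right _ _
    calc C * η ≤ C * (κ / (4 * C)) := by gcongr
      _ = κ / 4 := by field_simp
  obtain ⟨Y₂, hY₂⟩ := hR η hη0 hη1
  refine ⟨1 - η, by linarith, by linarith, κ / 4, by positivity, max (max Y₁ Y₂) 30, ?_⟩
  intro y hy
  have hy1 : Y₁ ≤ y := le_trans (le_trans (le_max_left _ _) (le_max_left _ _)) hy
  have hy2 : Y₂ ≤ y := le_trans (le_trans (le_max_right _ _) (le_max_left _ _)) hy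
  have hy3 : 30 ≤ y := le_trans (le_max_right _ _) hy
  have h1 := hY₁ y hy1
  have h2 := hY₂ y hy2
  have h3 := cheb y hy3
  have hyR : (30 : ℝ) ≤ y := by exact_mod_cast hy3
  have hlog : 0 < Real.log y := Real.log_pos (by linarith)
  have hq : 0 ≤ (y : ℝ) / Real.log y := by positivity
  have h4 : ((DegP K A B y).card : ℝ) - ((RoughP (1 - η) y).card : ℝ) ≤
      ((DegP K A B y \ RoughP (1 - η) y).card : ℝ) := by
    have := Finset.le_card_sdiff (RoughP (1 - η) y) (DegP K A B y)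
    have h5 : (DegP K A B y).card ≤ (DegP K A B y \ RoughP (1 - η) y).card +
        (RoughP (1 - η) y).card := by omega
    have h6 : ((DegP K A B y).card : ℝ) ≤ ((DegP K A B y \ RoughP (1 - η) y).card : ℝ) +
        ((RoughP (1 - η) y).card : ℝ) := by exact_mod_cast h5
    linarith
  have h5 : κ * (1 / 2 * ((y : ℝ) / Real.log y)) ≤ κ * (Nat.primeCounting y : ℝ) := by gcongr
  have h6 : C * η * (y / Real.log y) ≤ κ / 4 * (y / Real.log y) := by gcongr
  have h7 : κ / 4 * ((y : ℝ) / Real.log y) =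
      κ * (1 / 2 * ((y : ℝ) / Real.log y)) - κ / 4 * (y / Real.log y) := by ring
  linarith

end Pool.Agent.H901R3.MS
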