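import Pool.Agent.H901R3.MS.Stm2

/-!
Project MS (helper901), task Z0K: assembly of the sieve inequality over a number field
(helper92, after helper524).
-/

set_option autoImplicit false

namespace Pool.Agent.H901R3.MS

open WeierstrassCurve NumberField

namespace W_Z0K

/-- the type of the curve, over any ring -/
def CMr {A : Type} [CommRing A] (a b : A) : Prop := (b = 0 ∧ a ≠ 0) ∨ (a = 0 ∧ b ≠ 0)

theorem disc_of {F : Type} [Field F] (h2 : (2 : F) ≠ 0) (h3 : (3 : F) ≠ 0) {a b : F}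
    (h : CMr a b) : Disc a b := by
  unfold Disc
  rcases h with ⟨hb, ha⟩ | ⟨ha, hb⟩
  · subst hb
    have h4 : (2 : F) * (4 * a ^ 3 + 27 * 0 ^ 2) = 2 ^ 3 * a ^ 3 := by ring
    rw [h4]
    exact mul_ne_zero (pow_ne_zero _ h2) (pow_ne_zero _ ha)
  · subst ha
    have h4 : (2 : F) * (4 * 0 ^ 3 + 27 * b ^ 2) = 2 * (3 ^ 3 * b ^ 2) := by ring
    rw [h4]
    exact mul_ne_zero h2 (mul_ne_zero (pow_ne_zero _ h3) (pow_ne_zero _ hb))

theorem cast_ne {p : ℕ} {n : ℕ} (ha : n ≠ 0) (hp : n < p) : (n : ZMod p) ≠ 0 := by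
  intro h
  rw [ZMod.natCast_eq_zero_iff] at h
  have h2 := Nat.le_of_dvd (Nat.pos_of_ne_zero ha) h
  omega

/-- the norm of an integer -/
noncomputable def nm {K : Type} [Field K] [NumberField K] (a : 𝓞 K) : ℕ :=
  Ideal.absNorm (Ideal.span {a} : Ideal (𝓞 K))

theorem phi_ne {K : Type} [Field K] [NumberField K] {p : ℕ} (φ : 𝓞 K →+* ZMod p) {a : 𝓞 K}
    (ha : a ≠ 0) (hp : nm a < p) : φ a ≠ 0 := by
  intro h
  have h1 : ((nm a : ℕ) : 𝓞 K) ∈ (Ideal.span {a} : Ideal (𝓞 K)) := Ideal.absNorm_mem _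
  rw [Ideal.mem_span_singleton] at h1
  obtain ⟨c, hc⟩ := h1
  have h2 : φ ((nm a : ℕ) : 𝓞 K) = 0 := by rw [hc, map_mul, h, zero_mul]
  rw [map_natCast] at h2
  refine cast_ne ?_ hp h2
  unfold nm
  rw [Ne, Ideal.absNorm_eq_zero_iff, Ideal.span_singleton_eq_bot]
  exact ha

theorem transport {K : Type} [Field K] [NumberField K] {r : ℕ} {a b : Fin r → 𝓞 K} {S : Type}
    {f : S → (Expo r →₀ 𝓞 K)} {p : ℕ} [Fact p.Prime] {φ : 𝓞 K →+* ZMod p}
    (h : NoZeroK a b f p φ) (α β : Fin r → ZMod p) (hα : α = fun i => φ (a i))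
    (hβ : β = fun i => φ (b i)) (P : (i : Fin r) → Pt (α i) (β i)) :
    ∃ s, evR φ (f s) (fun i => rep (P i)) ≠ 0 := by
  subst hα hβ
  exact h P

/-- the local data at a prime `p` -/
theorem loc
    (hRed : ∀ (K k : Type) [Field K] [Field k] [DecidableEq K] [DecidableEq k] (v : Place K k)
      (a b : K), a ∈ v.A → b ∈ v.A → Disc (v.r a) (v.r b) →
        ∃ red : Pt a b →+ Pt (v.r a) (v.r b), IsRedK v a b red)
    (hRep : ∀ (K k : Type) [Field K] [Field k] (v : Place K k) (a b : K), a ∈ v.A →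
      b ∈ v.A → ∀ (red : Pt a b → Pt (v.r a) (v.r b)), IsRedK v a b red → ∀ P : Pt a b,
        ∃ u : K, u ≠ 0 ∧ ∀ j, u * rep P j ∈ v.A ∧ v.r (u * rep P j) = rep (red P) j)
    (hPL : PLK) (hC1 : C1K) (hC2 : C2K) (hHO : HOK) (hEVR : EVRK) (hLC : LCK)
    {K : Type} [Field K] [NumberField K] [DecidableEq K]
    {r : ℕ} {a b : Fin r → 𝓞 K} (hCM : ∀ i, CMr (a i) (b i)) {m : ℕ} (hm : 1 ≤ m)
    {S : Type} [Fintype S] (f : S → (Expo r →₀ 𝓞 K)) (d : Fin r → ℕ) (hd : ∀ i, m ∣ d i)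
    (hf : ∀ s, HomogR (f s) d) (p : ℕ) [Fact p.Prime] (hp5 : 5 ≤ p)
    (ha : ∀ i, nm (a i) < p) (hb : ∀ i, nm (b i) < p)
    (hOK : CondP (∃ i, b i = 0) (∃ i, a i = 0) p) (φ : 𝓞 K →+* ZMod p)
    (hNZ : NoZeroK a b f p φ) (L : ℕ) (hL : p + 1 ∣ L) :
    ∃ Φ : (∀ i, Pt (a i : K) (b i : K)) → S → ZMod p, (∀ κ, ∃ s, Φ κ s ≠ 0) ∧
      ∀ (κ δ : ∀ i, Pt (a i : K) (b i : K)) (c : S → ℤ) (w : K),
        w ^ m = FcR (algebraMap (𝓞 K) K) f c (fun i => rep (κ i + L • δ i)) →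
          ∃ t : ZMod p, t ^ m = ∑ s, (c s : ZMod p) * Φ κ s := by
  obtain ⟨v, hv⟩ := hPL K p φ
  have h2 : (2 : ZMod p) ≠ 0 := by
    have := @cast_ne p 2 (by norm_num) (by omega)
    simpa using this
  have h3 : (3 : ZMod p) ≠ 0 := by
    have := @cast_ne p 3 (by norm_num) (by omega)
    simpa using this
  have hra : ∀ i, v.r (a i : K) = φ (a i) := fun i => (hv (a i)).2
  have hrb : ∀ i, v.r (b i : K) = φ (b i) := fun i => (hv (b i)).2
  have hcm : ∀ i, CMr (v.r (a i : K)) (v.r (b i : K)) := by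
    intro i
    rw [hra, hrb]
    rcases hCM i with ⟨hb0, ha0⟩ | ⟨ha0, hb0⟩
    · exact Or.inl ⟨by rw [hb0, map_zero], phi_ne φ ha0 (ha i)⟩
    · exact Or.inr ⟨by rw [ha0, map_zero], phi_ne φ hb0 (hb i)⟩
  have hdisc : ∀ i, Disc (v.r (a i : K)) (v.r (b i : K)) := fun i => disc_of h2 h3 (hcm i)
  have h1 : ∀ i, ∃ red : Pt (a i : K) (b i : K) →+ Pt (v.r (a i : K)) (v.r (b i : K)),
      IsRedK v (a i : K) (b i : K) red := fun i =>
    hRed K (ZMod p) v (a i) (b i) (hv (a i)).1 (hv (b i)).1 (hdisc i)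
  choose red hred using h1
  have hkill : ∀ i, ∀ P : Pt (v.r (a i : K)) (v.r (b i : K)), (p + 1) • P = 0 := by
    intro i
    rcases hCM i with ⟨hb0, ha0⟩ | ⟨ha0, hb0⟩
    · exact hC1 p (hOK.1 ⟨i, hb0⟩) _ _ (by rw [hrb, hb0, map_zero])
        (by rw [hra]; exact phi_ne φ ha0 (ha i))
    · exact hC2 p (hOK.2 ⟨i, ha0⟩) (by omega) _ _ (by rw [hra, ha0, map_zero])
        (by rw [hrb]; exact phi_ne φ hb0 (hb i))
  have hredL : ∀ i, ∀ κ δ : Pt (a i : K) (b i : K), red i (κ + L • δ) = red i κ := by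
    intro i κ δ
    obtain ⟨k, hk⟩ := hL
    rw [map_add, map_nsmul, hk, mul_comm, mul_smul, hkill i, smul_zero, add_zero]
  refine ⟨fun κ s => evR φ (f s) (fun i => rep (red i (κ i))), fun κ =>
    transport hNZ _ _ (funext hra) (funext hrb) _, ?_⟩
  intro κ δ c w hw
  obtain ⟨t, ht⟩ := hLC hHO hEVR (𝓞 K) K (ZMod p) (algebraMap (𝓞 K) K) φ v hv r
    (fun i => rep (κ i + L • δ i)) (fun i => rep (red i (κ i + L • δ i)))
    (fun i => hRep K (ZMod p) v (a i) (b i) (hv (a i)).1 (hv (b i)).1 (red i) (hred i) _)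
    m hm S f d hd hf c w hw
  refine ⟨t, ?_⟩
  rw [ht]
  unfold FcR
  refine Finset.sum_congr rfl fun s _ => ?_
  simp only [hredL]

theorem disc_K {K : Type} [Field K] [NumberField K] {a b : 𝓞 K} (h : CMr a b) :
    Disc (a : K) (b : K) := by
  apply disc_of two_ne_zero three_ne_zero
  rcases h with ⟨hb, ha⟩ | ⟨ha, hb⟩
  · refine Or.inl ⟨by rw [hb]; rfl, fun h => ha ?_⟩
    exact RingOfIntegers.ext (by rw [h]; rfl)
  · refine Or.inr ⟨by rw [ha]; rfl, fun h => hb ?_⟩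
    exact RingOfIntegers.ext (by rw [h]; rfl)

end W_Z0K

open W_Z0K in
theorem t_Z0K : Z0K := by
  intro hRed hRep hPL hC1 hC2 hHO hEVR hLC hPTS hHP hM1 hM2 hMP hLF hBOX
  intro K _ _ r a b hCM l m hl hlm hm S _ _ f d hd hf
  classical
  have h1 : ∀ i, ∃ R : ℕ, ∀ L : ℕ, 1 ≤ L → ∃ A : Finset (Pt (a i : K) (b i : K)),
      A.card ≤ L ^ R ∧ ∀ g : Pt (a i : K) (b i : K), ∃ κ ∈ A, ∃ δ : Pt (a i : K) (b i : K),
        g = κ + L • δ := by
    intro i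
    exact hM2 _ (hM1 K (a i : K) (b i : K) (disc_K (hCM i)))
  choose R hR using h1
  refine ⟨5 + ∑ i, (nm (a i) + nm (b i)) + 1, ∑ i, R i, ?_⟩
  intro T hT hTp L hL hTL H hH
  have h2 : ∀ i, ∃ A : Finset (Pt (a i : K) (b i : K)),
      A.card ≤ L ^ (R i) ∧ ∀ g : Pt (a i : K) (b i : K), ∃ κ ∈ A, ∃ δ : Pt (a i : K) (b i : K),
        g = κ + L • δ := fun i => hR i L hL
  choose A hAc hAr using h2
  have hle : ∀ i, nm (a i) + nm (b i) ≤ ∑ i, (nm (a i) + nm (b i)) := fun i =>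
    Finset.single_le_sum (f := fun i => nm (a i) + nm (b i)) (fun _ _ => Nat.zero_le _)
      (Finset.mem_univ i)
  have key : ∀ p : ℕ, p ∈ T → ∃ Φ : (∀ i, Pt (a i : K) (b i : K)) → S → ZMod p,
      (∀ κ, ∃ s, Φ κ s ≠ 0) ∧
      ∀ (κ δ : ∀ i, Pt (a i : K) (b i : K)) (c : S → ℤ) (w : K),
        w ^ m = FcR (algebraMap (𝓞 K) K) f c (fun i => rep (κ i + L • δ i)) →
          ∃ t : ZMod p, t ^ m = ∑ s, (c s : ZMod p) * Φ κ s := by
    intro p hp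
    have hpp := hTp p hp
    haveI : Fact p.Prime := ⟨hpp⟩
    obtain ⟨h3, h4, _, φ, h5⟩ := hT p hpp hp
    refine loc hRed hRep hPL hC1 hC2 hHO hEVR hLC hCM hm f d hd hf p (by omega) ?_ ?_ h4
      φ h5 L (hTL p hp)
    · intro i
      have := hle i
      omega
    · intro i
      have := hle i
      omega
  choose Φ hΦ1 hΦ2 using key
  let G : (∀ i, Pt (a i : K) (b i : K)) → (p : ℕ) → Set (S → ZMod p) := fun κ p =>
    {c | ∃ hp : p ∈ T, ∃ t : ZMod p, t ^ m = ∑ s, c s * Φ p hp κ s}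
  have hG : ∀ κ, ∀ p ∈ T, (((G κ p).ncard : ℕ) : ℝ) ≤ 2 / 3 * (p : ℝ) ^ Fintype.card S := by
    intro κ p hp
    have hpp := hTp p hp
    haveI : Fact p.Prime := ⟨hpp⟩
    obtain ⟨h3, _, h4, _⟩ := hT p hpp hp
    have h6 := hLF hMP p (by omega) l m hl hlm h4 S (Φ p hp κ) (hΦ1 p hp κ)
    have h7 : G κ p = {c : S → ZMod p | ∃ t : ZMod p, t ^ m = ∑ s, c s * Φ p hp κ s} := by
      ext c
      constructor
      · rintro ⟨_, h⟩
        exact h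
      · intro h
        exact ⟨hp, h⟩
    rw [h7]
    exact h6
  have hB : ∀ κ, (({c : S → ℤ | c ∈ Box S H ∧ ∀ p ∈ T, (fun s => (c s : ZMod p)) ∈ G κ p}.ncard
      : ℕ) : ℝ) ≤ (2 * (2 * (H : ℝ) + 1)) ^ Fintype.card S * (2 / 3) ^ T.card := fun κ =>
    hBOX S T hTp (G κ) (2 / 3) (by norm_num) (hG κ) H hH
  have hsub : {c : S → ℤ | c ∈ Box S H ∧ HasPtK a b m f c} ⊆ ⋃ κ ∈ Fintype.piFinset A,
      {c : S → ℤ | c ∈ Box S H ∧ ∀ p ∈ T, (fun s => (c s : ZMod p)) ∈ G κ p} := by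
    rintro c ⟨hc1, hc2⟩
    obtain ⟨P, w, hw⟩ := hHP hHO hPTS K r a b (fun i => disc_K (hCM i)) m hm S f d hd hf c hc2
    have h3 : ∀ i, ∃ κ ∈ A i, ∃ δ : Pt (a i : K) (b i : K), P i = κ + L • δ := fun i =>
      hAr i (P i)
    choose κ hκ δ hδ using h3
    rw [Set.mem_iUnion₂]
    refine ⟨κ, Fintype.mem_piFinset.2 hκ, hc1, ?_⟩
    intro p hp
    refine ⟨hp, ?_⟩
    refine hΦ2 p hp κ δ c w ?_
    rw [hw]
    congr 1
    funext i
    rw [hδ i]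
  have hfin : (⋃ κ ∈ Fintype.piFinset A,
      {c : S → ℤ | c ∈ Box S H ∧ ∀ p ∈ T, (fun s => (c s : ZMod p)) ∈ G κ p}).Finite := by
    apply Set.Finite.subset (Box S H).finite_toSet
    intro c hc
    rw [Set.mem_iUnion₂] at hc
    obtain ⟨_, _, hc, _⟩ := hc
    exact hc
  have hcard : (((Fintype.piFinset A).card : ℕ) : ℝ) ≤ (L : ℝ) ^ (∑ i, R i) := by
    rw [Fintype.card_piFinset]
    push_cast
    rw [← Finset.prod_pow_eq_pow_sum]
    refine Finset.prod_le_prod (fun i _ => by positivity) fun i _ => ?_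
    exact_mod_cast hAc i
  calc (({c : S → ℤ | c ∈ Box S H ∧ HasPtK a b m f c}.ncard : ℕ) : ℝ)
      ≤ (((⋃ κ ∈ Fintype.piFinset A, {c : S → ℤ | c ∈ Box S H ∧
          ∀ p ∈ T, (fun s => (c s : ZMod p)) ∈ G κ p}).ncard : ℕ) : ℝ) := by
        exact_mod_cast Set.ncard_le_ncard hsub hfin
    _ ≤ ((∑ κ ∈ Fintype.piFinset A, {c : S → ℤ | c ∈ Box S H ∧
          ∀ p ∈ T, (fun s => (c s : ZMod p)) ∈ G κ p}.ncard : ℕ) : ℝ) := by
        exact_mod_cast Finset.set_ncard_biUnion_le _ _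
    _ = ∑ κ ∈ Fintype.piFinset A, (({c : S → ℤ | c ∈ Box S H ∧
          ∀ p ∈ T, (fun s => (c s : ZMod p)) ∈ G κ p}.ncard : ℕ) : ℝ) := by
        push_cast
        rfl
    _ ≤ ∑ κ ∈ Fintype.piFinset A, (2 * (2 * (H : ℝ) + 1)) ^ Fintype.card S *
          (2 / 3) ^ T.card := Finset.sum_le_sum fun κ _ => hB κ
    _ = (((Fintype.piFinset A).card : ℕ) : ℝ) * ((2 * (2 * (H : ℝ) + 1)) ^ Fintype.card S *
          (2 / 3) ^ T.card) := by rw [Finset.sum_const, nsmul_eq_mul]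
    _ ≤ (L : ℝ) ^ (∑ i, R i) * ((2 * (2 * (H : ℝ) + 1)) ^ Fintype.card S *
          (2 / 3) ^ T.card) := mul_le_mul_of_nonneg_right hcard (by positivity)
    _ = (2 * (2 * (H : ℝ) + 1)) ^ Fintype.card S * ((L : ℝ) ^ (∑ i, R i) *
          (2 / 3) ^ T.card) := by ring

end Pool.Agent.H901R3.MS
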