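import Mathlib
import Pool.Agent.H901R3.MS.Stm2

/-!
Project MS (helper901), task Z1K (helper956): assembly of the general theorem over a number field
(adaptation of helper276's P_Z1).
-/

set_option autoImplicit false

namespace Pool.Agent.H901R3.MS

open WeierstrassCurve NumberField

namespace W_Z1K

/-- `y / log y → ∞`, explicit -/
theorem div_log_ge {y : ℝ} (hy : 3 ≤ y) : Real.sqrt y / 2 ≤ y / Real.log y := by
  have hy0 : 0 < y := by linarith
  have hlog : 0 < Real.log y := Real.log_pos (by linarith)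
  have h1 : Real.log y ≤ y ^ (1 / 2 : ℝ) / (1 / 2 : ℝ) :=
    Real.log_le_rpow_div hy0.le (by norm_num)
  rw [← Real.sqrt_eq_rpow] at h1
  have h2 : Real.log y ≤ 2 * Real.sqrt y := by linarith
  rw [le_div_iff₀ hlog]
  have hs : 0 ≤ Real.sqrt y := Real.sqrt_nonneg _
  have hss : Real.sqrt y * Real.sqrt y = y := Real.mul_self_sqrt hy0.le
  calc Real.sqrt y / 2 * Real.log y ≤ Real.sqrt y / 2 * (2 * Real.sqrt y) :=
        mul_le_mul_of_nonneg_left h2 (by positivity)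
    _ = Real.sqrt y * Real.sqrt y := by ring
    _ = y := hss

theorem pow_le_of_floor (H : ℕ) :
    4 ^ ⌊Real.log (2 * H + 1) / Real.log 4⌋₊ ≤ 2 * H + 1 := by
  have hl4 : 0 < Real.log 4 := Real.log_pos (by norm_num)
  have h2H : (1 : ℝ) ≤ 2 * (H : ℝ) + 1 := by
    have : (0 : ℝ) ≤ H := Nat.cast_nonneg H
    linarith
  have hlog : 0 ≤ Real.log (2 * H + 1) := Real.log_nonneg h2H
  have h1 : ((⌊Real.log (2 * H + 1) / Real.log 4⌋₊ : ℕ) : ℝ) ≤
      Real.log (2 * H + 1) / Real.log 4 := Nat.floor_le (div_nonneg hlog hl4.le)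
  rw [le_div_iff₀ hl4] at h1
  have h2 : ((4 : ℝ)) ^ ⌊Real.log (2 * H + 1) / Real.log 4⌋₊ ≤ 2 * (H : ℝ) + 1 := by
    rw [← Real.log_le_log_iff (by positivity) (by linarith), Real.log_pow]
    exact h1
  exact_mod_cast h2

theorem le_floor_of_pow {y₀ H : ℕ} (h : 4 ^ y₀ ≤ H) :
    y₀ ≤ ⌊Real.log (2 * H + 1) / Real.log 4⌋₊ := by
  have hl4 : 0 < Real.log 4 := Real.log_pos (by norm_num)
  apply Nat.le_floor
  rw [le_div_iff₀ hl4, ← Real.log_pow]
  apply Real.log_le_log (by positivity)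
  have h1 : ((4 : ℝ)) ^ y₀ ≤ (H : ℝ) := by exact_mod_cast h
  have h2 : (0 : ℝ) ≤ H := Nat.cast_nonneg H
  linarith

end W_Z1K

theorem t_Z1K : Z1K := by
  intro hSieve hSP hLY hASY hZL K _ _ r a b hCM l m hl hlm hm hζ S _ _ f d hd hf hNZ
  obtain ⟨p₁, hp₁⟩ := hNZ
  obtain ⟨p₀, R, hS⟩ := hSieve K r a b
    (fun i => (hCM i).imp (fun h => ⟨h.1, h.2.1⟩) (fun h => ⟨h.1, h.2.1⟩))
    l m hl hlm hm S f d hd hf
  have hA' : (∃ i, b i = 0) → ¬ ∃ x : K, x ^ 2 = -1 := by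
    rintro ⟨i, hi⟩
    rcases hCM i with h | h
    · exact h.2.2
    · exact absurd hi h.2.1
  have hB' : (∃ i, a i = 0) → ¬ ∃ x : K, x ^ 2 = -3 := by
    rintro ⟨i, hi⟩
    rcases hCM i with h | h
    · exact absurd hi h.2.1
    · exact h.2.2
  obtain ⟨τ, hτ0, hτ1, κ, hκ, Y, hY⟩ := hSP K (∃ i, b i = 0) (∃ i, a i = 0) hA' hB'
  obtain ⟨c, hc, H₀, hH3, hA⟩ := hASY (Fintype.card S) R (κ / 2) τ (by positivity) hτ0 hτ1
  set M : ℕ := max (max p₀ p₁) (l + 1) with hM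
  set N : ℕ := ⌈(4 * (M : ℝ) / κ) ^ 2⌉₊ with hN
  refine ⟨c, hc, max H₀ (4 ^ (max Y (max 3 N))), ?_⟩
  intro H hH
  have hH0 : H₀ ≤ H := (le_max_left _ _).trans hH
  have hH1 : 4 ^ (max Y (max 3 N)) ≤ H := (le_max_right _ _).trans hH
  have hy0 := W_Z1K.le_floor_of_pow hH1
  have hpow := W_Z1K.pow_le_of_floor H
  set y : ℕ := ⌊Real.log (2 * H + 1) / Real.log 4⌋₊ with hy
  have hyY : Y ≤ y := (le_max_left _ _).trans hy0
  have hy3 : 3 ≤ y := ((le_max_left _ _).trans (le_max_right _ _)).trans hy0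
  have hyN : N ≤ y := ((le_max_right _ _).trans (le_max_right _ _)).trans hy0
  classical
  set T : Finset ℕ := (DegP K (∃ i, b i = 0) (∃ i, a i = 0) y \ RoughP τ y).filter
    (fun p => M ≤ p) with hT
  have hmemT : ∀ p ∈ T, (1 ≤ p ∧ p ≤ y) ∧ (p.Prime ∧ CondP (∃ i, b i = 0) (∃ i, a i = 0) p ∧
      Nonempty (𝓞 K →+* ZMod p)) ∧
      (∀ q : ℕ, q.Prime → q ∣ p + 1 → q ≤ ⌊(y : ℝ) ^ τ⌋₊) ∧ M ≤ p := by
    intro p hp
    rw [hT, Finset.mem_filter, Finset.mem_sdiff] at hp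
    obtain ⟨⟨h1, h3⟩, h2⟩ := hp
    unfold DegP at h1
    rw [Finset.mem_filter, Finset.mem_Icc] at h1
    refine ⟨h1.1, h1.2, ?_, h2⟩
    intro q hq hqp
    by_contra hcon
    apply h3
    unfold RoughP
    rw [Finset.mem_filter, Finset.mem_Icc]
    exact ⟨h1.1, h1.2.1, q, hq, hqp, not_le.1 hcon⟩
  -- cardinality
  have hcard : ((DegP K (∃ i, b i = 0) (∃ i, a i = 0) y \ RoughP τ y).card : ℝ) ≤
      (T.card : ℝ) + M := by
    have h1 : DegP K (∃ i, b i = 0) (∃ i, a i = 0) y \ RoughP τ y ⊆ T ∪ Finset.range M := by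
      intro p hp
      rw [Finset.mem_union]
      by_cases hpM : M ≤ p
      · left
        rw [hT, Finset.mem_filter]
        exact ⟨hp, hpM⟩
      · right
        rw [Finset.mem_range]
        omega
    have h2 := (Finset.card_le_card h1).trans (Finset.card_union_le _ _)
    rw [Finset.card_range] at h2
    exact_mod_cast h2
  have hκy := hY y hyY
  have hyr3 : (3 : ℝ) ≤ (y : ℝ) := by exact_mod_cast hy3
  have hMy : (M : ℝ) ≤ κ / 2 * (y / Real.log y) := by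
    have h1 := W_Z1K.div_log_ge hyr3
    have h2 : 4 * (M : ℝ) / κ ≤ Real.sqrt y := by
      apply Real.le_sqrt_of_sq_le
      have h3 : (4 * (M : ℝ) / κ) ^ 2 ≤ (N : ℝ) := Nat.le_ceil _
      have h4 : (N : ℝ) ≤ (y : ℝ) := by exact_mod_cast hyN
      exact h3.trans h4
    have h5 : 4 * (M : ℝ) ≤ Real.sqrt y * κ := by
      rwa [div_le_iff₀ hκ] at h2
    have h6 : κ / 2 * (Real.sqrt y / 2) ≤ κ / 2 * (y / Real.log y) :=
      mul_le_mul_of_nonneg_left h1 (by positivity)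
    nlinarith
  have hTcard : κ / 2 * (y / Real.log y) ≤ (T.card : ℝ) := by
    have h1 : κ * (y / Real.log y) = κ / 2 * (y / Real.log y) + κ / 2 * (y / Real.log y) := by ring
    linarith
  -- the integer L
  obtain ⟨L, hL1, hL2, hL3⟩ := hLY y ⌊(y : ℝ) ^ τ⌋₊
  have hL2' : (L : ℝ) ≤ ((y : ℝ) + 1) ^ ⌊(y : ℝ) ^ τ⌋₊ := by exact_mod_cast hL2
  have hdiv : ∀ p ∈ T, p + 1 ∣ L := by
    intro p hp
    obtain ⟨h1, h2, h3, h4⟩ := hmemT p hp
    exact hL3 (p + 1) (by omega) (by omega) h3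
  have hprime : ∀ p ∈ T, p.Prime := fun p hp => (hmemT p hp).2.1.1
  have hcond : ∀ (p : ℕ) (hp : p.Prime), p ∈ T →
      p₀ ≤ p ∧ CondP (∃ i, b i = 0) (∃ i, a i = 0) p ∧ (l = 2 ∨ p % l = 1) ∧
        ∃ φ : 𝓞 K →+* ZMod p, @NoZeroK K _ _ r a b S f p ⟨hp⟩ φ := by
    intro p hp hpT
    obtain ⟨h1, ⟨h2, h3, ⟨φ⟩⟩, h4, h5⟩ := hmemT p hpT
    have e1 : max p₀ p₁ ≤ p := (le_max_left _ _).trans h5
    have e2 : l + 1 ≤ p := (le_max_right _ _).trans h5
    refine ⟨(le_max_left _ _).trans e1, h3, ?_, φ, hp₁ p hp ((le_max_right _ _).trans e1) h3 φ⟩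
    by_cases hl2 : l = 2
    · exact Or.inl hl2
    · right
      rcases hζ with h | h
      · exact absurd h hl2
      · have : Fact p.Prime := ⟨hp⟩
        exact hZL K l hl hl2 h p (by omega) φ
  have hprod : ∏ p ∈ T, p ≤ 2 * H + 1 := by
    have h1 : ∏ p ∈ T, p ≤ primorial y := by
      unfold primorial
      apply Finset.prod_le_prod_of_subset_of_one_le'
      · intro p hp
        obtain ⟨h1, h2, h3, h4⟩ := hmemT p hp
        rw [Finset.mem_filter, Finset.mem_range]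
        exact ⟨by omega, h2.1⟩
      · intro p hp _
        exact (Finset.mem_filter.1 hp).2.one_lt.le
    exact (h1.trans (primorial_le_four_pow y)).trans hpow
  have hfin := hS T hcond hprime L hL1 hdiv H hprod
  exact hfin.trans (hA H hH0 y T.card L hy hTcard hL2')

end Pool.Agent.H901R3.MS
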