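import Pool.Agent.H901R3.MS.Stm2

/-!
Project MS, task ZAK (helper954): MAIN K from the general theorem over a number field.
-/

set_option autoImplicit false

namespace Pool.Agent.H901R3.MS

open WeierstrassCurve NumberField

namespace W_ZAK

variable {K : Type} [Field K] [NumberField K] {n r : ℕ}

/-- the family of monomials times basis elements -/
noncomputable def fSK (ω : Module.Basis (Fin n) ℤ (𝓞 K)) (S : Finset (Expo r)) (s : S × Fin n) :
    Expo r →₀ 𝓞 K := Finsupp.single s.1.1 (ω s.2)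

theorem evR_fSK {F : Type} [Field F] (φ : 𝓞 K →+* F) (ω : Module.Basis (Fin n) ℤ (𝓞 K))
    (S : Finset (Expo r)) (s : S × Fin n) (V : Fin r → Fin 3 → F) :
    evR φ (fSK ω S s) V = φ (ω s.2) * mono s.1.1 V := by
  unfold evR fSK
  rw [Finsupp.sum_single_index (by simp)]

theorem homog_fSK (ω : Module.Basis (Fin n) ℤ (𝓞 K)) {S : Finset (Expo r)} {d : Fin r → ℕ}
    (hS : ∀ e ∈ S, ∀ i, ∑ j, e i j = d i) (s : S × Fin n) : HomogR (fSK ω S s) d := by
  intro e' he' i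
  have h1 : e' ∈ ({s.1.1} : Finset (Expo r)) := Finsupp.support_single_subset he'
  rw [Finset.mem_singleton] at h1
  rw [h1]
  exact hS s.1.1 s.1.2 i

theorem rep_ne {F : Type} [Field F] {a b : F} (P : Pt a b) : ∃ j, rep P j ≠ 0 := by
  cases P with
  | zero => exact ⟨1, by show (1 : F) ≠ 0; exact one_ne_zero⟩
  | some x y h => exact ⟨2, by show (1 : F) ≠ 0; exact one_ne_zero⟩

theorem basis_ne {F : Type} [Field F] (φ : 𝓞 K →+* F) (ω : Module.Basis (Fin n) ℤ (𝓞 K)) :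
    ∃ j, φ (ω j) ≠ 0 := by
  by_contra h
  push Not at h
  have h1 : φ 1 = 0 := by
    rw [← ω.sum_repr 1, map_sum]
    refine Finset.sum_eq_zero fun j _ => ?_
    rw [map_zsmul, h j, smul_zero]
  rw [map_one] at h1
  exact one_ne_zero h1

theorem noZero (ω : Module.Basis (Fin n) ℤ (𝓞 K)) (a b : Fin r → 𝓞 K) {d : Fin r → ℕ}
    {S : Finset (Expo r)}
    (hσ : ∀ σ : Fin r → Fin 3, (fun i j => if j = σ i then d i else 0) ∈ S)
    (p : ℕ) [Fact p.Prime] (φ : 𝓞 K →+* ZMod p) : NoZeroK a b (fSK ω S) p φ := by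
  intro P
  choose σ hσ' using fun i => rep_ne (P i)
  obtain ⟨j, hj⟩ := basis_ne φ ω
  refine ⟨(⟨_, hσ σ⟩, j), ?_⟩
  rw [evR_fSK]
  refine mul_ne_zero hj ?_
  unfold mono
  refine Finset.prod_ne_zero_iff.2 fun i _ => Finset.prod_ne_zero_iff.2 fun j _ => ?_
  show rep (P i) j ^ (if j = σ i then d i else 0) ≠ 0
  by_cases hj : j = σ i
  · rw [if_pos hj, hj]
    exact pow_ne_zero _ (hσ' i)
  · rw [if_neg hj, pow_zero]
    exact one_ne_zero

theorem fc_eq (ω : Module.Basis (Fin n) ℤ (𝓞 K)) (S : Finset (Expo r)) (c : S → Fin n → ℤ)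
    (V : Fin r → Fin 3 → K) :
    FcR (algebraMap (𝓞 K) K) (fSK ω S) (fun s => c s.1 s.2) V =
      ∑ e : S, ((∑ j, c e j • ω j : 𝓞 K) : K) * ∏ i, ∏ j, V i j ^ e.1 i j := by
  unfold FcR
  rw [Fintype.sum_prod_type]
  refine Finset.sum_congr rfl fun e _ => ?_
  have h1 : ((∑ j, c e j • ω j : 𝓞 K) : K) = ∑ j, (c e j : K) * ((ω j : 𝓞 K) : K) := by
    have h2 : ((∑ j, c e j • ω j : 𝓞 K) : K) = algebraMap (𝓞 K) K (∑ j, c e j • ω j) := rfl
    rw [h2, map_sum]
    refine Finset.sum_congr rfl fun j _ => ?_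
    rw [map_zsmul, zsmul_eq_mul]
  rw [h1, Finset.sum_mul]
  refine Finset.sum_congr rfl fun j _ => ?_
  rw [evR_fSK, ← mul_assoc]
  rfl

end W_ZAK

open W_ZAK in
theorem t_ZAK : ZAK := by
  intro hGen K _ _ n ω r a b hab l m hl hlm hm hl3 d hd S hS hσ
  obtain ⟨c, hc, H₀, hH⟩ := hGen K r a b hab l m hl hlm hm hl3 (S × Fin n) (fSK ω S) d hd
    (homog_fSK ω hS) ⟨0, fun p hp _ _ φ => @noZero K _ _ n r ω a b d S hσ p ⟨hp⟩ φ⟩
  refine ⟨c, hc, H₀, fun H hHH => ?_⟩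
  have h1 := hH H hHH
  have hset : {c : S → Fin n → ℤ | (∀ e j, |c e j| ≤ H) ∧ ∃ (V : Fin r → Fin 3 → K) (w : K),
          (∀ i, OnK (a i : K) (b i : K) (V i)) ∧
            w ^ m = ∑ e : S, ((∑ j, c e j • ω j : 𝓞 K) : K) * ∏ i, ∏ j, V i j ^ e.1 i j} =
      (Equiv.curry S (Fin n) ℤ) ''
        {c : S × Fin n → ℤ | c ∈ Box (S × Fin n) H ∧ HasPtK a b m (fSK ω S) c} := by
    ext c
    rw [Set.mem_image_equiv]
    have e0 : (Equiv.curry S (Fin n) ℤ).symm c = fun s => c s.1 s.2 := rfl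
    rw [e0]
    have e1 : (fun s : S × Fin n => c s.1 s.2) ∈ Box (S × Fin n) H ↔ ∀ e j, |c e j| ≤ H := by
      unfold Box
      rw [Fintype.mem_piFinset]
      constructor
      · intro h e j
        have := h (e, j)
        rw [Finset.mem_Icc] at this
        exact abs_le.2 this
      · intro h s
        rw [Finset.mem_Icc]
        exact abs_le.1 (h s.1 s.2)
    have e2 : HasPtK a b m (fSK ω S) (fun s => c s.1 s.2) ↔
        ∃ (V : Fin r → Fin 3 → K) (w : K), (∀ i, OnK (a i : K) (b i : K) (V i)) ∧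
          w ^ m = ∑ e : S, ((∑ j, c e j • ω j : 𝓞 K) : K) * ∏ i, ∏ j, V i j ^ e.1 i j := by
      unfold HasPtK
      simp only [fc_eq]
    exact (and_congr e1 e2).symm
  rw [hset, Set.ncard_image_of_injective _ (Equiv.injective _)]
  rw [Fintype.card_prod, Fintype.card_coe, Fintype.card_fin] at h1
  exact h1

end Pool.Agent.H901R3.MS
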