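import Mathlib
import Pool.Agent.H901R3.MS.Stm2

/-! Project MS (helper901), task ZLK: roots of unity and degree one primes. -/

set_option autoImplicit false

namespace Pool.Agent.H901R3.MS

open NumberField

theorem t_ZLK : ZLK := by
  intro K _ _ l hl hl2 ⟨ζ, hζ⟩ p hp hpl φ
  have hint : IsIntegral ℤ ζ := hζ.isIntegral hl.pos
  let Z : 𝓞 K := ⟨ζ, hint⟩
  have hZ : ((Z : 𝓞 K) : K) = ζ := rfl
  have hinj : Function.Injective (algebraMap (𝓞 K) K) := RingOfIntegers.coe_injective
  have hZl : Z ^ l = 1 := by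
    apply hinj
    rw [map_pow, map_one]
    exact hζ.pow_eq_one
  have hsum : ∑ i ∈ Finset.range l, Z ^ i = 0 := by
    apply hinj
    rw [map_sum, map_zero]
    have h1 := hζ.geom_sum_eq_zero hl.one_lt
    rw [← h1]
    refine Finset.sum_congr rfl fun i _ => ?_
    rw [map_pow]
    rfl
  have hu : φ Z ^ l = 1 := by rw [← map_pow, hZl, map_one]
  have hu1 : φ Z ≠ 1 := by
    intro h1
    have h2 := congrArg φ hsum
    rw [map_sum, map_zero] at h2
    simp only [map_pow, h1, one_pow, Finset.sum_const, Finset.card_range, nsmul_eq_mul,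
      mul_one] at h2
    rw [ZMod.natCast_eq_zero_iff] at h2
    exact hpl ((Nat.prime_dvd_prime_iff_eq hp.out hl).1 h2)
  have hu0 : φ Z ≠ 0 := by
    intro h1
    rw [h1, zero_pow hl.ne_zero] at hu
    exact zero_ne_one hu
  have : Fact l.Prime := ⟨hl⟩
  have hord : orderOf (φ Z) = l := orderOf_eq_prime hu hu1
  have hdvd : l ∣ p - 1 := by
    rw [← hord]
    exact orderOf_dvd_of_pow_eq_one (ZMod.pow_card_sub_one_eq_one hu0)
  obtain ⟨k, hk⟩ := hdvd
  have hp1 := hp.out.one_lt
  have e : p = 1 + l * k := by omega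
  rw [e, Nat.add_mul_mod_self_left]
  exact Nat.mod_eq_of_lt hl.one_lt

end Pool.Agent.H901R3.MS
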