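import Mathlib
import Pool.Agent.H901R3.MS.All
import Pool.Agent.H901R3.MS.P_R1K
import Pool.Agent.H901R3.MS.P_R2K
import Pool.Agent.H901R3.MS.P_R3K
import Pool.Agent.H901R3.MS.P_R4K
import Pool.Agent.H901R3.MS.P_R5K
import Pool.Agent.H901R3.MS.P_R6K
import Pool.Agent.H901R3.MS.P_R7K
import Pool.Agent.H901R3.MS.P_PLK
import Pool.Agent.H901R3.MS.P_C1K
import Pool.Agent.H901R3.MS.P_C2K
import Pool.Agent.H901R3.MS.P_HOK
import Pool.Agent.H901R3.MS.P_EVRK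
import Pool.Agent.H901R3.MS.P_LCK
import Pool.Agent.H901R3.MS.P_PTSK
import Pool.Agent.H901R3.MS.P_HPK
import Pool.Agent.H901R3.MS.P_M1K
import Pool.Agent.H901R3.MS.P_ZLK
import Pool.Agent.H901R3.MS.P_Z0K
import Pool.Agent.H901R3.MS.P_HFIN
import Pool.Agent.H901R3.MS.P_H2
import Pool.Agent.H901R3.MS.P_H4
import Pool.Agent.H901R3.MS.P_PITK
import Pool.Agent.H901R3.MS.P_DK
import Pool.Agent.H901R3.MS.P_RO
import Pool.Agent.H901R3.MS.P_SPKX
import Pool.Agent.H901R3.MS.P_ASYK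
import Pool.Agent.H901R3.MS.P_Z1K
import Pool.Agent.H901R3.MS.P_ZAK

/-! Project MS (helper901): assembly of part 2 (number fields). -/

set_option autoImplicit false

namespace Pool.Agent.H901R3.MS

theorem sieveK : SieveK :=
  t_Z0K (t_R6K t_R1K t_R2K t_R3K t_R4K t_R5K) (t_R7K t_R1K) t_PLK t_C1K t_C2K t_HOK t_EVRK t_LCK
    t_PTSK t_HPK t_M1K t_M2 t_MP t_LF t_BOX

theorem spK : SPK := t_SPKX (t_DK t_HFIN t_H2 t_H4 t_PITK) t_RO

theorem genK : GenK := t_Z1K sieveK spK t_LY t_ASYK t_ZLK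

theorem mainK : MainK := t_ZAK genK

end Pool.Agent.H901R3.MS
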