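import Mathlib
import Pool.Agent.H901R3.MS.Stm
import Pool.Agent.H925R3.DC.Stubs

/-!
Project MS (helper901), third part: power saving for quadratic twists, from the abstract sieve
`Pool.Agent.H925R3.DC.ABS` of helper925.
-/

set_option autoImplicit false

namespace Pool.Agent.H901R3.MS

open WeierstrassCurve

/-- the integral value of the forms `f_s` at an integral vector -/
noncomputable def vz {r : ℕ} {S : Type} (f : S → (Expo r →₀ ℤ)) (V : Fin r → Fin 3 → ℤ) (s : S) : ℤ :=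
  (f s).sum (fun e n => n * ∏ i, ∏ j, V i j ^ e i j)

/-- TZ0: compatibility with casts -/
def TZ0 : Prop := ∀ (F : Type) [Field F] (r : ℕ) (S : Type) [Fintype S] (f : S → (Expo r →₀ ℤ))
  (V : Fin r → Fin 3 → ℤ),
  (∀ s, ((vz f V s : ℤ) : F) = ev (f s) (fun i j => (V i j : F))) ∧
  (∀ c : S → ℤ, ((∑ s, c s * vz f V s : ℤ) : F) = Fc f c (fun i j => (V i j : F)))

/-- TZ1: primitive integral homogeneous coordinates -/
def TZ1 : Prop := ∀ (a b : ℚ) (P : Pt a b), ∃ (V : Fin 3 → ℤ) (u : ℚ), u ≠ 0 ∧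
  (∀ j, (V j : ℚ) = u * rep P j) ∧ ∀ p : ℕ, p.Prime → ∃ j, ¬ (p : ℤ) ∣ V j

/-- TZ2: primitive coordinates modulo `p` -/
def TZ2 : Prop := ∀ (p : ℕ) [Fact p.Prime] (v : Place ℚ (ZMod p)) (a b : ℤ)
  (red : Pt (a : ℚ) (b : ℚ) → Pt (a : ZMod p) (b : ZMod p)),
  (∀ P : Pt (a : ℚ) (b : ℚ), ∃ u : ℚ, u ≠ 0 ∧
    ∀ j, u * rep P j ∈ v.A ∧ v.r (u * rep P j) = rep (red P) j) →
  ∀ (P : Pt (a : ℚ) (b : ℚ)) (V : Fin 3 → ℤ) (u : ℚ), u ≠ 0 → (∀ j, (V j : ℚ) = u * rep P j) →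
    (∃ j, ¬ (p : ℤ) ∣ V j) → ∃ lam : ZMod p, lam ≠ 0 ∧ ∀ j, (V j : ZMod p) = lam * rep (red P) j

/-- the abstract sieve applies to the values of the forms at primitive coordinates -/
def SV : Prop := ∀ (r : ℕ) (a b : Fin r → ℤ), (∀ i, CMt (a i) (b i)) →
  ∀ (S : Type) [Fintype S] (f : S → (Expo r →₀ ℤ)) (d : Fin r → ℕ), (∀ i, 2 ∣ d i) →
    (∀ s, Homog (f s) d) → ∀ M D : ℕ, 0 < M → 0 < D → 12 ∣ M →
    (∀ (p : ℕ) (hp : p.Prime), ¬ p ∣ D → M ∣ p + 1 → @NoZero r a b S f p ⟨hp⟩) →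
    ∀ (V : ∀ i, Pt (a i : ℚ) (b i : ℚ) → Fin 3 → ℤ) (u : ∀ i, Pt (a i : ℚ) (b i : ℚ) → ℚ),
      (∀ i P, u i P ≠ 0 ∧ (∀ j, (V i P j : ℚ) = u i P * rep P j) ∧
        ∀ p : ℕ, p.Prime → ∃ j, ¬ (p : ℤ) ∣ V i P j) →
      Pool.Agent.H925R3.DC.Sieveable 1 (G := ∀ i, Pt (a i : ℚ) (b i : ℚ)) (ι := S)
        (fun P s => vz f (fun i => V i (P i)) s)

/-- TZ3: proof of `SV` -/
def TZ3 : Prop :=
  (∀ (K k : Type) [Field K] [Field k] [DecidableEq K] [DecidableEq k] (v : Place K k) (a b : ℤ),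
    Disc (a : k) (b : k) → ∃ red : Pt (a : K) (b : K) →+ Pt (a : k) (b : k), IsRed v a b red) →
  (∀ (K k : Type) [Field K] [Field k] (v : Place K k) (a b : ℤ)
    (red : Pt (a : K) (b : K) → Pt (a : k) (b : k)), IsRed v a b red → ∀ P : Pt (a : K) (b : K),
      ∃ u : K, u ≠ 0 ∧ ∀ j, u * rep P j ∈ v.A ∧ v.r (u * rep P j) = rep (red P) j) →
  PL → C1 → C2 → HO → TZ0 → TZ2 → SV

/-- power saving for families of double covers -/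
def MainPS : Prop := ∀ (r : ℕ) (a b : Fin r → ℤ), (∀ i, CMt (a i) (b i)) →
  ∀ (S : Type) [Fintype S] [DecidableEq S] (f : S → (Expo r →₀ ℤ)) (d : Fin r → ℕ),
    (∀ i, 2 ∣ d i) → (∀ s, Homog (f s) d) → ∀ M D : ℕ, 0 < M → 0 < D → 12 ∣ M →
    (∀ (p : ℕ) (hp : p.Prime), ¬ p ∣ D → M ∣ p + 1 → @NoZero r a b S f p ⟨hp⟩) →
    ∀ ε : ℝ, 0 < ε → ∃ C : ℝ, ∀ H : ℕ, 1 ≤ H →
      (({c : S → ℤ | c ∈ Box S H ∧ HasPt a b 2 f c}.ncard : ℕ) : ℝ) ≤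
        C * (H : ℝ) ^ ((Fintype.card S : ℝ) - 1 / 4 + ε)

/-- TZ4: assembly -/
def TZ4 : Prop := Pool.Agent.H925R3.DC.ABS → M1 → HO → PTS → HP → TZ0 → TZ1 → SV → MainPS

end Pool.Agent.H901R3.MS
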