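import Mathlib
import Pool.Agent.H901R3.MS.Stm3

set_option autoImplicit false

namespace Pool.Agent.H901R3.MS

theorem b_TZ0 : TZ0 := by
  intro F _ r S _ f V
  have h1 : ∀ s, ((vz f V s : ℤ) : F) = ev (f s) (fun i j => (V i j : F)) := by
    intro s
    unfold vz ev mono Finsupp.sum
    push_cast
    rfl
  refine ⟨h1, fun c => ?_⟩
  unfold Fc
  push_cast
  exact Finset.sum_congr rfl fun s _ => by rw [h1 s]

end Pool.Agent.H901R3.MS
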