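import Mathlib
import Pool.Agent.H901R3.MS.Stm3

set_option autoImplicit false

namespace Pool.Agent.H901R3.MS

namespace B_TZ1

theorem prim (W : Fin 3 → ℚ) (hW : ∃ j, W j ≠ 0) : ∃ (V : Fin 3 → ℤ) (u : ℚ), u ≠ 0 ∧
    (∀ j, (V j : ℚ) = u * W j) ∧ ∀ p : ℕ, p.Prime → ∃ j, ¬ (p : ℤ) ∣ V j := by
  classical
  obtain ⟨⟨N, hN⟩, hX⟩ := IsLocalization.exist_integer_multiples_of_finite (nonZeroDivisors ℤ) W
  have hN0 : (N : ℚ) ≠ 0 := by
    exact_mod_cast nonZeroDivisors.ne_zero hN
  choose X hX' using hX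
  have hX1 : ∀ j, (X j : ℚ) = N * W j := by
    intro j
    have := hX' j
    simpa using this
  obtain ⟨V, hV, hg⟩ := Finset.extract_gcd (s := (Finset.univ : Finset (Fin 3))) X
    Finset.univ_nonempty
  set G : ℤ := Finset.univ.gcd X with hGdef
  have hG : (G : ℚ) ≠ 0 := by
    intro h
    have h0 : G = 0 := by exact_mod_cast h
    obtain ⟨j, hj⟩ := hW
    have h2 : X j = 0 := by
      rw [hV j (Finset.mem_univ j), h0, zero_mul]
    have h3 := hX1 j
    rw [h2] at h3
    have h4 : (N : ℚ) * W j = 0 := by rw [← h3]; simp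
    rcases mul_eq_zero.1 h4 with h5 | h5
    · exact hN0 h5
    · exact hj h5
  refine ⟨V, N / G, div_ne_zero hN0 hG, ?_, ?_⟩
  · intro j
    have h6 : (X j : ℚ) = G * V j := by
      have := hV j (Finset.mem_univ j)
      rw [this]
      push_cast
      rfl
    rw [hX1 j] at h6
    rw [div_mul_eq_mul_div, h6]
    field_simp
  · intro p hp
    by_contra hc
    push Not at hc
    have h7 : (p : ℤ) ∣ Finset.univ.gcd V := Finset.dvd_gcd fun j _ => hc j
    rw [hg] at h7
    have h8 := Int.isUnit_iff.1 (isUnit_of_dvd_one h7)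
    have := hp.two_le
    omega

end B_TZ1

theorem b_TZ1 : TZ1 := by
  intro a b P
  refine B_TZ1.prim (rep P) ?_
  cases P with
  | zero => exact ⟨1, by simp [rep]⟩
  | some x y h => exact ⟨2, by simp [rep]⟩

end Pool.Agent.H901R3.MS
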