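import Mathlib
import Pool.Agent.H901R3.MS.Stm3

/-!
TZ2 (proof by helper226): primitive coordinates modulo p
-/

set_option autoImplicit false

namespace Pool.Agent.H901R3.MS

namespace B_TZ2

theorem rep_ne {F : Type} [Field F] {a b : F} (P : Pt a b) : ∃ j, rep P j ≠ 0 := by
  cases P with
  | zero => exact ⟨1, by simp [rep]⟩
  | some x y h => exact ⟨2, by simp [rep]⟩

theorem core {K k : Type} [Field K] [Field k] (v : Place K k) (ρP : Fin 3 → K) (ρR : Fin 3 → k)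
    (h0 : ∃ j, ρR j ≠ 0) (u' : K) (hu' : u' ≠ 0)
    (h1 : ∀ j, u' * ρP j ∈ v.A ∧ v.r (u' * ρP j) = ρR j) (u : K) (V : Fin 3 → ℤ)
    (hV : ∀ j, (V j : K) = u * ρP j) (h2 : ∃ j, (V j : k) ≠ 0) :
    ∃ l : k, l ≠ 0 ∧ ∀ j, (V j : k) = l * ρR j := by
  obtain ⟨j0, hj0⟩ := h0
  obtain ⟨j1, hj1⟩ := h2
  have hc : ∀ j, (V j : K) = u / u' * (u' * ρP j) := by
    intro j
    rw [hV j]
    field_simp
  have hr0 : v.r (u' * ρP j0) ≠ 0 := by
    rw [(h1 j0).2]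
    exact hj0
  have hcA : u / u' ∈ v.A := by
    have h3 : u / u' = (V j0 : K) / (u' * ρP j0) := by
      rw [eq_div_iff (v.ne_zero_of_r_ne hr0)]
      exact (hc j0).symm
    rw [h3]
    exact v.div_mem (v.int_mem _) hr0
  have hres : ∀ j, (V j : k) = v.r (u / u') * ρR j := by
    intro j
    rw [← v.r_int, hc j, v.r_mul hcA (h1 j).1, (h1 j).2]
  refine ⟨v.r (u / u'), ?_, hres⟩
  intro hz
  apply hj1
  rw [hres j1, hz, zero_mul]

end B_TZ2

theorem b_TZ2 : TZ2 := by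
  intro p _ v a b red hred P V u _ hV hV'
  obtain ⟨u', hu', h1⟩ := hred P
  refine B_TZ2.core v (rep P) (rep (red P)) (B_TZ2.rep_ne (red P)) u' hu' h1 u V hV ?_
  obtain ⟨j, hj⟩ := hV'
  refine ⟨j, ?_⟩
  rw [Ne, ZMod.intCast_zmod_eq_zero_iff_dvd]
  exact hj

end Pool.Agent.H901R3.MS
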