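import Mathlib
import Pool.Agent.H901R3.MS.Stm3

set_option autoImplicit false

namespace Pool.Agent.H901R3.MS

open WeierstrassCurve

namespace B_TZ3

theorem ev_scale (hHO : HO) {F : Type} [Field F] {r : ℕ} (g : Expo r →₀ ℤ) (d : Fin r → ℕ)
    (hg : Homog g d) (V : Fin r → Fin 3 → F) (u : Fin r → F) :
    ev g (fun i j => u i * V i j) = (∏ i, u i ^ d i) * ev g V := by
  have h := hHO F r Unit (fun _ => g) d (fun _ => hg) (fun _ => 1) V u
  simpa [Fc] using h

end B_TZ3

open B_TZ3 in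
theorem b_TZ3 : TZ3 := by
  classical
  intro hRed hRep hPL hC1 hC2 hHO hTZ0 hTZ2
  intro r a b hCM S _ f d hd hf M D hM hD h12 hNZ V u hVu
  have hdisc0 : ∀ i, 4 * a i ^ 3 + 27 * b i ^ 2 ≠ 0 := by
    intro i
    rcases hCM i with ⟨h0, h1⟩ | ⟨h0, h1⟩
    · rw [h0]
      simpa using h1
    · rw [h0]
      simpa using h1
  have hpos : 0 < D * 6 * ∏ i, (4 * a i ^ 3 + 27 * b i ^ 2).natAbs := by
    refine Nat.mul_pos (by omega) (Nat.pos_of_ne_zero ?_)
    rw [Finset.prod_ne_zero_iff]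
    intro i _
    exact Int.natAbs_ne_zero.2 (hdisc0 i)
  refine ⟨M, D * 6 * ∏ i, (4 * a i ^ 3 + 27 * b i ^ 2).natAbs, hM, hpos, ?_⟩
  intro p hp h2 hpD hMp
  haveI : Fact p.Prime := ⟨hp⟩
  have hpD1 : ¬ p ∣ D := fun h => hpD ((h.mul_right _).mul_right _)
  have hpd : ∀ i, ¬ (p : ℤ) ∣ 4 * a i ^ 3 + 27 * b i ^ 2 := by
    intro i h
    apply hpD
    apply Dvd.dvd.mul_left
    exact (Int.natCast_dvd.1 h).trans (Finset.dvd_prod_of_mem _ (Finset.mem_univ i))
  have hMp' : M ∣ p + 1 := by exact_mod_cast hMp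
  have h12p : 12 ∣ p + 1 := h12.trans hMp'
  have hpd' : ∀ i, (4 : ZMod p) * (a i : ZMod p) ^ 3 + 27 * (b i : ZMod p) ^ 2 ≠ 0 := by
    intro i h
    apply hpd i
    rw [← ZMod.intCast_zmod_eq_zero_iff_dvd]
    push_cast
    exact h
  have h2p : (2 : ZMod p) ≠ 0 := by
    intro h
    have h3 : ((2 : ℕ) : ZMod p) = 0 := by exact_mod_cast h
    rw [ZMod.natCast_eq_zero_iff] at h3
    have := Nat.le_of_dvd (by norm_num) h3
    omega
  obtain ⟨v⟩ := hPL p
  have hdisc : ∀ i, Disc (a i : ZMod p) (b i : ZMod p) := fun i => mul_ne_zero h2p (hpd' i)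
  have h1 : ∀ i, ∃ red : Pt (a i : ℚ) (b i : ℚ) →+ Pt (a i : ZMod p) (b i : ZMod p),
      IsRed v (a i) (b i) red := fun i => hRed ℚ (ZMod p) v (a i) (b i) (hdisc i)
  choose red hred using h1
  have hkill : ∀ i, ∀ P : Pt (a i : ZMod p) (b i : ZMod p), (p + 1) • P = 0 := by
    intro i
    rcases hCM i with ⟨hb0, ha0⟩ | ⟨ha0, hb0⟩
    · refine hC1 p (by omega) (a i) (b i) hb0 ?_
      intro h
      apply hpd' i
      rw [h, hb0]
      simp
    · refine hC2 p (by omega) (by omega) (a i) (b i) ha0 ?_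
      intro h
      apply hpd' i
      rw [h, ha0]
      simp
  have hlam : ∀ (i : Fin r) (P : Pt (a i : ℚ) (b i : ℚ)), ∃ lam : ZMod p, lam ≠ 0 ∧
      ∀ j, (V i P j : ZMod p) = lam * rep (red i P) j := by
    intro i P
    exact hTZ2 p v (a i) (b i) (red i) (hRep ℚ (ZMod p) v (a i) (b i) (red i) (hred i)) P (V i P)
      (u i P) (hVu i P).1 (hVu i P).2.1 ((hVu i P).2.2 p hp)
  choose lam hlam0 hlam1 using hlam
  choose k hk using hd
  have hval : ∀ (P : ∀ i, Pt (a i : ℚ) (b i : ℚ)) (s : S),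
      ((vz f (fun i => V i (P i)) s : ℤ) : ZMod p) =
        (∏ i, lam i (P i) ^ k i) ^ 2 * ev (f s) (fun i => rep (red i (P i))) := by
    intro P s
    rw [(hTZ0 (ZMod p) r S f (fun i => V i (P i))).1 s]
    have h3 := ev_scale hHO (f s) d (hf s) (fun i => rep (red i (P i))) (fun i => lam i (P i))
    have h4 : (fun (i : Fin r) (j : Fin 3) => ((V i (P i) j : ℤ) : ZMod p)) =
        fun i j => lam i (P i) * rep (red i (P i)) j := by
      funext i j
      exact hlam1 i (P i) j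
    rw [h4, h3]
    congr 1
    rw [← Finset.prod_pow]
    refine Finset.prod_congr rfl fun i _ => ?_
    rw [← pow_mul, hk i, mul_comm]
  have hprod : ∀ P : (∀ i, Pt (a i : ℚ) (b i : ℚ)), (∏ i, lam i (P i) ^ k i) ≠ 0 := by
    intro P
    rw [Finset.prod_ne_zero_iff]
    intro i _
    exact pow_ne_zero _ (hlam0 i (P i))
  constructor
  · intro P P' R hP
    have h5 : ∀ i, red i (P i) = red i (P' i) := by
      intro i
      have hPi : P i = P' i + (p + 1) • R i := by
        rw [hP]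
        have : ((p : ℤ) + 1) • R = (p + 1) • R := by
          rw [← natCast_zsmul]
          push_cast
          rfl
        rw [this]
        rfl
      rw [hPi, map_add, map_nsmul, hkill i, add_zero]
    set U : ZMod p := (∏ i, lam i (P i) ^ k i) / (∏ i, lam i (P' i) ^ k i) with hU
    have hU0 : U ≠ 0 := div_ne_zero (hprod P) (hprod P')
    have hcast : (((U.val : ℕ) : ℤ) : ZMod p) = U := by
      rw [Int.cast_natCast, ZMod.natCast_val, ZMod.cast_id', id]
    refine ⟨((U.val : ℕ) : ℤ), ?_, ?_⟩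
    · rw [← ZMod.intCast_zmod_eq_zero_iff_dvd, hcast]
      exact hU0
    · intro s
      rw [← ZMod.intCast_zmod_eq_zero_iff_dvd]
      have hgoal : ((vz f (fun i => V i (P i)) s : ℤ) : ZMod p) =
          U ^ 2 * ((vz f (fun i => V i (P' i)) s : ℤ) : ZMod p) := by
        rw [hval P s, hval P' s]
        have h6 : (fun i => rep (red i (P i))) = fun i => rep (red i (P' i)) := by
          funext i
          rw [h5 i]
        rw [h6, ← mul_assoc, ← mul_pow, hU, div_mul_cancel₀ _ (hprod P')]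
      rw [Int.cast_sub, Int.cast_mul, Int.cast_pow, hcast, hgoal, sub_self]
  · intro P
    obtain ⟨s, hs⟩ := hNZ p hp hpD1 hMp' (fun i => red i (P i))
    refine ⟨s, ?_⟩
    rw [← ZMod.intCast_zmod_eq_zero_iff_dvd]
    have h7 := hval P s
    rw [h7]
    exact mul_ne_zero (pow_ne_zero _ (hprod P)) hs

end Pool.Agent.H901R3.MS
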