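import Mathlib
import Pool.Agent.H901R3.MS.Stm3
import Pool.Agent.H901R3.MS.P_Z0

set_option autoImplicit false

namespace Pool.Agent.H901R3.MS

open WeierstrassCurve

theorem b_TZ4 : TZ4 := by
  classical
  intro hABS hM1 hHO hPTS hHP hTZ0 hTZ1 hSV
  intro r a b hCM S _ _ f d hd hf M D hM hD h12 hNZ ε hε
  have hdisc : ∀ i, Disc (a i : ℚ) (b i : ℚ) := fun i => W_Z0.disc_rat (hCM i)
  have hfg : ∀ i, Module.Finite ℤ (Pt (a i : ℚ) (b i : ℚ)) := fun i =>
    Module.Finite.iff_addGroup_fg.2 (hM1 (a i) (b i) (hdisc i))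
  haveI hFG : AddGroup.FG ((i : Fin r) → Pt (a i : ℚ) (b i : ℚ)) :=
    Module.Finite.iff_addGroup_fg.1 inferInstance
  have hex : ∀ (i : Fin r) (P : Pt (a i : ℚ) (b i : ℚ)), ∃ (V : Fin 3 → ℤ) (u : ℚ), u ≠ 0 ∧
      (∀ j, (V j : ℚ) = u * rep P j) ∧ ∀ p : ℕ, p.Prime → ∃ j, ¬ (p : ℤ) ∣ V j :=
    fun i P => hTZ1 (a i) (b i) P
  choose V u hVu using hex
  have hS := hSV r a b hCM S f d hd hf M D hM hD h12 hNZ V u hVu
  obtain ⟨C, hC⟩ := hABS _ S 1 (Or.inl rfl) _ hS ε hε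
  refine ⟨C, fun H hH => ?_⟩
  refine le_trans ?_ (hC H hH)
  have hfin : {c : S → ℤ | (∀ j, |c j| ≤ (H : ℤ)) ∧ ∃ P : (∀ i, Pt (a i : ℚ) (b i : ℚ)),
      IsSquare (∑ j, c j * vz f (fun i => V i (P i)) j)}.Finite := by
    refine (Box S H).finite_toSet.subset ?_
    rintro c ⟨hc, -⟩
    rw [Finset.mem_coe]
    unfold Box
    rw [Fintype.mem_piFinset]
    intro j
    rw [Finset.mem_Icc]
    exact abs_le.1 (hc j)
  have hsub : {c : S → ℤ | c ∈ Box S H ∧ HasPt a b 2 f c} ⊆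
      {c : S → ℤ | (∀ j, |c j| ≤ (H : ℤ)) ∧ ∃ P : (∀ i, Pt (a i : ℚ) (b i : ℚ)),
      IsSquare (∑ j, c j * vz f (fun i => V i (P i)) j)} := by
    rintro c ⟨hc, hpt⟩
    refine ⟨?_, ?_⟩
    · intro j
      unfold Box at hc
      rw [Fintype.mem_piFinset] at hc
      have := hc j
      rw [Finset.mem_Icc] at this
      exact abs_le.2 this
    · obtain ⟨P, w, hw⟩ := hHP hHO hPTS r a b hdisc 2 (by norm_num) S f d hd hf c hpt
      refine ⟨P, ?_⟩
      rw [← Rat.isSquare_intCast_iff]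
      choose k hk using hd
      refine ⟨(∏ i, u i (P i) ^ k i) * w, ?_⟩
      have h2 := (hTZ0 ℚ r S f (fun i => V i (P i))).2 c
      rw [h2]
      have h4 : (fun (i : Fin r) (j : Fin 3) => ((V i (P i) j : ℤ) : ℚ)) =
          fun i j => u i (P i) * rep (P i) j := by
        funext i j
        exact (hVu i (P i)).2.1 j
      rw [h4, hHO ℚ r S f d hf c (fun i => rep (P i)) (fun i => u i (P i)), ← hw]
      have h5 : (∏ i, u i (P i) ^ d i) = (∏ i, u i (P i) ^ k i) * (∏ i, u i (P i) ^ k i) := by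
        rw [← Finset.prod_mul_distrib]
        refine Finset.prod_congr rfl fun i _ => ?_
        rw [hk i, two_mul, pow_add]
      rw [h5]
      ring
  have h3 := Set.ncard_le_ncard hsub hfin
  exact_mod_cast h3

end Pool.Agent.H901R3.MS
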