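import Mathlib
import Pool.Agent.H901R3.MS.All

/-! Project MS (helper901): an explicit family of quadratic twists. -/

set_option autoImplicit false

namespace Pool.Agent.H901R3.MS

open WeierstrassCurve

/-- the exponent of `∏ i, (V i (σ i)) ^ 2` with `σ i ∈ {1, 2}` -/
def twE {r : ℕ} (σ : Fin r → Bool) : Expo r :=
  fun i j => if j = (if σ i then 1 else 2) then 2 else 0

theorem twE_inj {r : ℕ} : Function.Injective (twE (r := r)) := by
  intro σ τ h
  funext i
  have h1 := congrFun (congrFun h i) 1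
  unfold twE at h1
  by_cases hs : σ i <;> by_cases ht : τ i <;> simp_all

/-- the form `∏ i, (Y_i ^ 2 + Z_i ^ 2)` -/
noncomputable def twF (r : ℕ) : Expo r →₀ ℤ :=
  ∑ σ : Fin r → Bool, Finsupp.single (twE σ) 1

theorem mono_twE {F : Type} [Field F] {r : ℕ} (σ : Fin r → Bool) (V : Fin r → Fin 3 → F) :
    mono (twE σ) V = ∏ i, (V i (if σ i then 1 else 2)) ^ 2 := by
  unfold mono twE
  refine Finset.prod_congr rfl fun i _ => ?_
  rw [Fin.prod_univ_three]
  by_cases h : σ i <;> simp [h]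

theorem ev_twF {F : Type} [Field F] {r : ℕ} (V : Fin r → Fin 3 → F) :
    ev (twF r) V = ∏ i, (V i 1 ^ 2 + V i 2 ^ 2) := by
  classical
  unfold ev twF
  rw [← Finsupp.sum_finsetSum_index (by intro e; simp) (by intro e x y; push_cast; ring)]
  have h : ∀ σ : Fin r → Bool, (Finsupp.single (twE σ) (1 : ℤ)).sum
      (fun e n => (n : F) * mono e V) = ∏ i, (V i (if σ i then 1 else 2)) ^ 2 := by
    intro σ
    rw [Finsupp.sum_single_index (by simp)]
    rw [mono_twE]
    simp
  rw [Finset.sum_congr rfl fun σ _ => h σ]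
  have h2 : ∀ i : Fin r, V i 1 ^ 2 + V i 2 ^ 2 =
      ∑ β : Bool, (V i (if β then 1 else 2)) ^ 2 := by
    intro i
    simp
  rw [Finset.prod_congr rfl fun i _ => h2 i]
  rw [Finset.prod_univ_sum]
  rw [Fintype.piFinset_univ]

theorem homog_twF (r : ℕ) : Homog (twF r) (fun _ => 2) := by
  classical
  intro e he i
  unfold twF at he
  have h1 := Finsupp.support_finset_sum he
  rw [Finset.mem_biUnion] at h1
  obtain ⟨σ, _, hσ⟩ := h1
  have h2 := Finsupp.support_single_subset hσ
  rw [Finset.mem_singleton] at h2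
  subst h2
  unfold twE
  rw [Fin.sum_univ_three]
  by_cases h : σ i <;> simp [h]

theorem rep_cases {F : Type} [Field F] {a b : F} (P : Pt a b) :
    (rep P 1 ≠ 0 ∧ rep P 2 = 0) ∨ rep P 2 = 1 := by
  cases P with
  | zero => left; simp [rep]
  | some x y h => right; simp [rep]

/-- For nonzero `a_i`: for `100 %` of the integers `n` the variety `n`-th twist
`w ^ 2 = n ∏ (y_i ^ 2 + 1)`, `y_i ^ 2 = x_i ^ 3 + a_i x_i`, has no rational point. -/
theorem twist (r : ℕ) (a : Fin r → ℤ) (ha : ∀ i, a i ≠ 0) :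
    ∃ c : ℝ, 0 < c ∧ ∃ N₀ : ℕ, ∀ N : ℕ, N₀ ≤ N →
      (({n : ℤ | |n| ≤ N ∧ ∃ (V : Fin r → Fin 3 → ℚ) (w : ℚ),
          (∀ i, OnE (a i) 0 (V i)) ∧ w ^ 2 = n * ∏ i, (V i 1 ^ 2 + V i 2 ^ 2)}.ncard : ℕ) : ℝ) ≤
        (2 * (N : ℝ) + 1) * Real.exp (-c * (Real.log N / Real.log (Real.log N))) := by
  have key := gen r a (fun _ => 0) (fun i => Or.inl ⟨rfl, ha i⟩) 2 2 Nat.prime_two dvd_rfl
    (by norm_num) Unit (fun _ => twF r) (fun _ => 2) (fun _ => dvd_rfl) (fun _ => homog_twF r)
    4 3 (by norm_num) (by norm_num) ?_ ?_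
  · obtain ⟨c, hc, N₀, h⟩ := key
    refine ⟨c, hc, N₀, fun N hN => ?_⟩
    have h1 := h N hN
    rw [Fintype.card_unit, pow_one] at h1
    refine le_trans (le_of_eq ?_) h1
    congr 1
    refine Set.ncard_congr (fun n _ => fun _ => n) ?_ ?_ ?_
    · rintro n ⟨hn, V, w, hV, hw⟩
      refine ⟨?_, V, w, hV, ?_⟩
      · unfold Box
        rw [Fintype.mem_piFinset]
        intro _
        rw [Finset.mem_Icc]
        exact abs_le.1 hn
      · rw [hw]
        unfold Fc
        simp [ev_twF]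
    · intro n n' _ _ h
      exact congrFun h ()
    · rintro c' ⟨hc', V, w, hV, hw⟩
      refine ⟨c' (), ⟨?_, V, w, hV, ?_⟩, ?_⟩
      · unfold Box at hc'
        rw [Fintype.mem_piFinset] at hc'
        have := hc' ()
        rw [Finset.mem_Icc] at this
        exact abs_le.2 this
      · rw [hw]
        unfold Fc
        simp [ev_twF]
      · rfl
  · intro p hp
    refine ⟨fun i _ => ?_, fun i hi => absurd hi (ha i), Or.inl rfl⟩
    simpa using hp
  · refine ⟨0, fun p hp _ hpm => ?_⟩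
    haveI : Fact p.Prime := ⟨hp⟩
    intro P
    refine ⟨(), ?_⟩
    rw [ev_twF]
    rw [Finset.prod_ne_zero_iff]
    intro i _ h0
    rcases rep_cases (P i) with ⟨h1, h2⟩ | h2
    · rw [h2] at h0
      apply h1
      simpa using h0
    · rw [h2] at h0
      have h3 : p % 4 = 3 := by simpa using hpm
      have h4 : (rep (P i) 1) ^ 2 = -1 := by linear_combination h0
      have h5 : IsSquare (-1 : ZMod p) := ⟨rep (P i) 1, by rw [← h4]; ring⟩
      exact ((ZMod.exists_sq_eq_neg_one_iff (p := p)).1 h5) h3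

end Pool.Agent.H901R3.MS
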