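import Mathlib
import Pool.Agent.H901R3.MS.Stm3
import Pool.Agent.H901R3.MS.Twist

/-! Project MS (helper901): quadratic twists, from `MainPS`. -/

set_option autoImplicit false

namespace Pool.Agent.H901R3.MS

open WeierstrassCurve

theorem twist_of (hPS : MainPS) (r : ℕ) (a b : Fin r → ℤ)
    (hE : ∀ i, (b i = 0 ∧ a i ≠ 0) ∨ (a i = 0 ∧ b i ≠ 0))
    (m : ℕ) (hm : 2 ∣ m) (f : Expo r →₀ ℤ) (d : Fin r → ℕ) (hd : ∀ i, m ∣ d i) (hf : Homog f d)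
    (M D : ℕ) (hM : 0 < M) (hD : 0 < D) (h12 : 12 ∣ M)
    (hF : ∀ (p : ℕ) (_ : Fact p.Prime), ¬ p ∣ D → M ∣ p + 1 →
      ∀ P : (i : Fin r) → Pt (a i : ZMod p) (b i : ZMod p), ev f (fun i => rep (P i)) ≠ 0)
    (ε : ℝ) (hε : 0 < ε) :
    ∃ C : ℝ, ∀ N : ℕ, 1 ≤ N →
      (({n : ℤ | |n| ≤ N ∧ ∃ (V : Fin r → Fin 3 → ℚ) (w : ℚ),
          (∀ i, OnE (a i) (b i) (V i)) ∧ w ^ m = n * ev f V}.ncard : ℕ) : ℝ) ≤
        C * (N : ℝ) ^ (3 / 4 + ε) := by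
  obtain ⟨C, hC⟩ := hPS r a b hE Unit (fun _ => f) d (fun i => hm.trans (hd i)) (fun _ => hf) M D
    hM hD h12 (fun p hp h1 h2 => by
      haveI : Fact p.Prime := ⟨hp⟩
      exact fun P => ⟨(), hF p ⟨hp⟩ h1 h2 P⟩) ε hε
  refine ⟨C, fun N hN => ?_⟩
  have h1 := hC N hN
  have hcard : ((Fintype.card Unit : ℕ) : ℝ) - 1 / 4 + ε = 3 / 4 + ε := by
    rw [Fintype.card_unit]; push_cast; ring
  rw [hcard] at h1
  refine le_trans ?_ h1
  have hfin : {c : Unit → ℤ | c ∈ Box Unit N ∧ HasPt a b 2 (fun _ => f) c}.Finite :=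
    (Box Unit N).finite_toSet.subset fun c hc => hc.1
  norm_cast
  refine Set.ncard_le_ncard_of_injOn (fun n _ => n) ?_ ?_ hfin
  · rintro n ⟨hn, V, w, hV, hw⟩
    obtain ⟨k, hk⟩ := hm
    refine ⟨?_, V, w ^ k, hV, ?_⟩
    · unfold Box
      rw [Fintype.mem_piFinset]
      intro _
      rw [Finset.mem_Icc]
      exact abs_le.1 hn
    · rw [← pow_mul, mul_comm, ← hk, hw]
      unfold Fc
      simp
  · intro n _ n' _ h
    exact congrFun h ()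

/-- the example in every dimension -/
theorem twist_exPS (hPS : MainPS) (r : ℕ) (a : Fin r → ℤ) (ha : ∀ i, a i ≠ 0) (ε : ℝ)
    (hε : 0 < ε) :
    ∃ C : ℝ, ∀ N : ℕ, 1 ≤ N →
      (({n : ℤ | |n| ≤ N ∧ ∃ (V : Fin r → Fin 3 → ℚ) (w : ℚ),
          (∀ i, OnE (a i) 0 (V i)) ∧ w ^ 2 = n * ∏ i, (V i 1 ^ 2 + V i 2 ^ 2)}.ncard : ℕ) : ℝ) ≤
        C * (N : ℝ) ^ (3 / 4 + ε) := by
  obtain ⟨C, hC⟩ := twist_of hPS r a (fun _ => 0) (fun i => Or.inl ⟨rfl, ha i⟩) 2 dvd_rfl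
    (twF r) (fun _ => 2) (fun _ => dvd_rfl) (homog_twF r) 12 1 (by norm_num) (by norm_num) dvd_rfl
    (by
      intro p _ _ h12 P
      rw [ev_twF, Finset.prod_ne_zero_iff]
      intro i _ h0
      rcases rep_cases (P i) with ⟨h1, h2⟩ | h2
      · rw [h2] at h0
        apply h1
        simpa using h0
      · rw [h2] at h0
        have h3 : p % 4 = 3 := by omega
        have h4 : (rep (P i) 1) ^ 2 = -1 := by linear_combination h0
        have h5 : IsSquare (-1 : ZMod p) := ⟨rep (P i) 1, by rw [← h4]; ring⟩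
        exact ((ZMod.exists_sq_eq_neg_one_iff (p := p)).1 h5) h3) ε hε
  refine ⟨C, fun N hN => ?_⟩
  have h := hC N hN
  refine le_trans (le_of_eq ?_) h
  congr 2
  ext n
  simp only [Set.mem_setOf_eq]
  refine and_congr_right fun _ => ?_
  refine exists_congr fun V => exists_congr fun w => ?_
  rw [ev_twF]

end Pool.Agent.H901R3.MS
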