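import Mathlib
import Pool.Agent.H901R3.MS.All
import Pool.Agent.H901R3.MS.B_TZ0
import Pool.Agent.H901R3.MS.B_TZ1
import Pool.Agent.H901R3.MS.B_TZ2
import Pool.Agent.H901R3.MS.B_TZ3
import Pool.Agent.H901R3.MS.B_TZ4
import Pool.Agent.H901R3.MS.TwistPS
import Pool.Agent.H925R3.DC.Final

/-! Project MS (helper901): assembly of part 3 (power saving; abstract sieve of helper925). -/

set_option autoImplicit false

namespace Pool.Agent.H901R3.MS

theorem sv : SV :=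
  b_TZ3 (t_R6 t_R1 t_R2 t_R3 t_R4 t_R5) (t_R7 t_R1) t_PL t_C1 t_C2 t_HO b_TZ0 b_TZ2

theorem mainPS : MainPS :=
  b_TZ4 Pool.Agent.H925R3.DC.absThm t_M1 t_HO t_PTS t_HP b_TZ0 b_TZ1 sv

end Pool.Agent.H901R3.MS
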