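import Mathlib
import Pool.Agent.H901R3.MS.Stm2

/-! Task ASYK: the final inequality with exponent `τ` (helper493; adaptation of P_ASY). -/

set_option autoImplicit false

namespace Pool.Agent.H901R3.MS

namespace W_ASYK

open Filter Real

theorem ev1 (s R : ℕ) (c τ : ℝ) (hc : 0 < c) (hτ1 : τ < 1) :
    ∀ᶠ x : ℝ in atTop, (s : ℝ) * log 2 + R * (x ^ τ * log (x + 1)) ≤ c * (x / log x) := by
  have hl2 : 0 < log 2 := log_pos (by norm_num)
  set δ : ℝ := c / (2 * (s * log 2 + 1)) with hδ
  have hδ0 : 0 < δ := by positivity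
  set δ' : ℝ := c / (4 * (R + 1)) with hδ'
  have hδ'0 : 0 < δ' := by positivity
  have e1 := (isLittleO_log_rpow_atTop (r := 1) (by norm_num)).bound hδ0
  have e2 := (isLittleO_log_rpow_rpow_atTop (2 : ℝ) (s := 1 - τ) (by linarith)).bound hδ'0
  filter_upwards [e1, e2, eventually_ge_atTop (3 : ℝ)] with x h1 h2 h3
  have hx0 : 0 < x := by linarith
  have hlx : 0 < log x := log_pos (by linarith)
  rw [norm_of_nonneg hlx.le, norm_of_nonneg (by positivity), rpow_one] at h1
  rw [norm_of_nonneg (by positivity), norm_of_nonneg (by positivity), rpow_two] at h2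
  have h4 : log (x + 1) ≤ 2 * log x := by
    have : log (x + 1) ≤ log (x ^ 2) := log_le_log (by linarith) (by nlinarith)
    rwa [log_pow] at this
  have hx34 : 0 < x ^ τ := by positivity
  have hxx : x ^ τ * x ^ (1 - τ) = x := by
    rw [← rpow_add hx0, add_sub_cancel, rpow_one]
  rw [← mul_div_assoc, le_div_iff₀ hlx]
  have a1 : (s : ℝ) * log 2 * log x ≤ c / 2 * x := by
    have : (s : ℝ) * log 2 * log x ≤ (s * log 2) * (δ * x) :=
      mul_le_mul_of_nonneg_left h1 (by positivity)
    have h5 : (s * log 2) * δ ≤ c / 2 := by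
      rw [hδ, ← mul_div_assoc, div_le_iff₀ (by positivity)]
      nlinarith [mul_nonneg (Nat.cast_nonneg (α := ℝ) s) hl2.le]
    nlinarith
  have a2 : (R : ℝ) * (x ^ τ * log (x + 1)) * log x ≤ c / 2 * x := by
    have b1 : (R : ℝ) * (x ^ τ * log (x + 1)) * log x ≤
        (R : ℝ) * (x ^ τ * (2 * log x)) * log x := by gcongr
    have b2 : (R : ℝ) * (x ^ τ * (2 * log x)) * log x =
        2 * R * x ^ τ * (log x ^ 2) := by ring
    have b3 : 2 * R * x ^ τ * (log x ^ 2) ≤
        2 * R * x ^ τ * (δ' * x ^ (1 - τ)) := by gcongr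
    have b4 : 2 * R * x ^ τ * (δ' * x ^ (1 - τ)) = 2 * R * δ' * x := by
      calc 2 * R * x ^ τ * (δ' * x ^ (1 - τ))
          = 2 * R * δ' * (x ^ τ * x ^ (1 - τ)) := by ring
        _ = _ := by rw [hxx]
    have b5 : 2 * R * δ' ≤ c / 2 := by
      rw [hδ', ← mul_div_assoc, div_le_iff₀ (by positivity)]
      nlinarith [Nat.cast_nonneg (α := ℝ) R]
    nlinarith
  nlinarith

theorem tendY : Tendsto (fun H : ℕ => ⌊log (2 * (H : ℝ) + 1) / log 4⌋₊) atTop atTop := by
  have hl4 : 0 < log 4 := log_pos (by norm_num)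
  refine tendsto_nat_floor_atTop.comp ?_
  refine Tendsto.atTop_div_const hl4 ?_
  refine tendsto_log_atTop.comp ?_
  refine tendsto_atTop_add_const_right _ _ ?_
  exact Tendsto.const_mul_atTop (by norm_num) tendsto_natCast_atTop_atTop

end W_ASYK

open W_ASYK Filter Real

theorem t_ASYK : ASYK := by
  intro s R κ τ hκ hτ0 hτ1
  have hlam : 0 < log (3 / 2) := log_pos (by norm_num)
  have hl4 : 0 < log 4 := log_pos (by norm_num)
  have hl4' : 4 / 3 ≤ log 4 := by
    have h2 : log 4 = 2 * log 2 := by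
      rw [show (4 : ℝ) = 2 ^ 2 by norm_num, log_pow]; norm_num
    have := Real.log_two_gt_d9
    rw [h2]; linarith
  have hl4'' : log 4 ≤ 3 / 2 := by
    have h2 : log 4 = 2 * log 2 := by
      rw [show (4 : ℝ) = 2 ^ 2 by norm_num, log_pow]; norm_num
    have := Real.log_two_lt_d9
    rw [h2]; linarith
  have e1 := (tendsto_natCast_atTop_atTop (R := ℝ)).comp tendY |>.eventually
    (ev1 s R (κ * log (3 / 2) / 2) τ (by positivity) hτ1)
  have e2 : ∀ᶠ H : ℕ in atTop, 3 ≤ ⌊log (2 * (H : ℝ) + 1) / log 4⌋₊ :=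
    tendY.eventually (eventually_ge_atTop 3)
  obtain ⟨H₀, hH₀⟩ := eventually_atTop.1 (e1.and (e2.and (eventually_ge_atTop 27)))
  refine ⟨κ * log (3 / 2) / 6, by positivity, max H₀ 3, le_max_right _ _, ?_⟩
  intro H hH y t L hy ht hL
  obtain ⟨f1, f2, f3⟩ := hH₀ H ((le_max_left _ _).trans hH)
  simp only [Function.comp] at f1
  rw [← hy] at f1 f2
  have hHr : (27 : ℝ) ≤ H := by exact_mod_cast f3
  have hyr : (3 : ℝ) ≤ y := by exact_mod_cast f2
  have hly : 0 < log y := log_pos (by linarith)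
  -- the size of y
  have hlogH : 0 < log H := log_pos (by linarith)
  have hy1 : (y : ℝ) ≤ log H := by
    have h1 : (y : ℝ) ≤ log (2 * H + 1) / log 4 := by
      rw [hy]; exact Nat.floor_le (div_nonneg (log_nonneg (by linarith)) hl4.le)
    refine h1.trans ?_
    rw [div_le_iff₀ hl4]
    have h2 : log (2 * H + 1) ≤ log (3 * H) := log_le_log (by linarith) (by linarith)
    have h3 : log (3 * (H : ℝ)) = log 3 + log H := log_mul (by norm_num) (by linarith)
    have h4 : 3 * log 3 ≤ log H := by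
      have : log ((3 : ℝ) ^ 3) ≤ log H := log_le_log (by norm_num) (by linarith)
      rwa [log_pow] at this
    nlinarith
  have hy2 : log H / 3 ≤ y := by
    have h1 : log (2 * H + 1) / log 4 < y + 1 := by
      rw [hy]; exact Nat.lt_floor_add_one _
    have h2 : log (2 * H + 1) / (3 / 2) ≤ log (2 * H + 1) / log 4 :=
      div_le_div_of_nonneg_left (log_nonneg (by linarith)) hl4 hl4''
    have h3 : log H ≤ log (2 * H + 1) := log_le_log (by linarith) (by linarith)
    have h4 : log (2 * H + 1) / (3 / 2) = 2 / 3 * log (2 * H + 1) := by ring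
    have h5 : 3 * log 3 ≤ log H := by
      have : log ((3 : ℝ) ^ 3) ≤ log H := log_le_log (by norm_num) (by linarith)
      rwa [log_pow] at this
    have h6 : 1 ≤ log 3 := by
      rw [le_log_iff_exp_le (by norm_num)]
      have := Real.exp_one_lt_d9
      linarith
    nlinarith
  have hloglog : 0 < log (log H) := log_pos (by linarith)
  have hyy : log H / log (log H) / 3 ≤ y / log y := by
    have h1 : log y ≤ log (log H) := log_le_log (by linarith) hy1
    rw [div_div, div_le_div_iff₀ (by positivity) hly]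
    have : log H * log y ≤ (3 * y) * log (log H) :=
      mul_le_mul (by linarith) h1 hly.le (by positivity)
    linarith
  -- the main inequality
  have hyp : 0 < (y : ℝ) + 1 := by linarith
  have hLR : (L : ℝ) ^ R ≤ exp (R * ((y : ℝ) ^ τ * log (y + 1))) := by
    have h1 : (L : ℝ) ≤ exp ((y : ℝ) ^ τ * log (y + 1)) := by
      refine hL.trans ?_
      rw [← rpow_natCast, rpow_def_of_pos hyp]
      apply exp_le_exp.2
      rw [mul_comm]
      exact mul_le_mul_of_nonneg_right (Nat.floor_le (by positivity)) (log_nonneg (by linarith))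
    calc (L : ℝ) ^ R ≤ exp ((y : ℝ) ^ τ * log (y + 1)) ^ R :=
          pow_le_pow_left₀ (Nat.cast_nonneg _) h1 _
      _ = _ := by rw [← exp_nat_mul]
  have ht' : (2 / 3 : ℝ) ^ t = exp (-(log (3 / 2) * t)) := by
    rw [← rpow_natCast, rpow_def_of_pos (by norm_num)]
    congr 1
    rw [show (2 / 3 : ℝ) = (3 / 2)⁻¹ by norm_num, log_inv]
    ring
  have h2s : (2 : ℝ) ^ s = exp (s * log 2) := by
    rw [← rpow_natCast, rpow_def_of_pos (by norm_num), mul_comm]
  have key : (2 : ℝ) ^ s * ((L : ℝ) ^ R * (2 / 3) ^ t) ≤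
      exp (-(κ * log (3 / 2) / 6) * (log H / log (log H))) := by
    rw [ht', h2s]
    calc exp (s * log 2) * ((L : ℝ) ^ R * exp (-(log (3 / 2) * t)))
        ≤ exp (s * log 2) * (exp (R * ((y : ℝ) ^ τ * log (y + 1))) *
          exp (-(log (3 / 2) * t))) := by gcongr
      _ = exp (s * log 2 + R * ((y : ℝ) ^ τ * log (y + 1)) - log (3 / 2) * t) := by
          rw [← exp_add, ← exp_add]; congr 1; ring
      _ ≤ _ := by
          apply exp_le_exp.2
          have h1 : log (3 / 2) * (κ * (y / log y)) ≤ log (3 / 2) * t :=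
            mul_le_mul_of_nonneg_left ht hlam.le
          have h2 : κ * log (3 / 2) / 2 * (log H / log (log H) / 3) ≤
              κ * log (3 / 2) / 2 * (y / log y) := by gcongr
          linarith
  calc (2 * (2 * (H : ℝ) + 1)) ^ s * ((L : ℝ) ^ R * (2 / 3) ^ t)
      = (2 * (H : ℝ) + 1) ^ s * ((2 : ℝ) ^ s * ((L : ℝ) ^ R * (2 / 3) ^ t)) := by
        rw [mul_pow]; ring
    _ ≤ _ := by gcongr

end Pool.Agent.H901R3.MS
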