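import Pool.Agent.H901R3.MS.Stm3

/-!
Project MS (helper901), task TZ4: assembly of the power saving theorem.
-/

set_option autoImplicit false

namespace Pool.Agent.H901R3.MS

namespace W_TZ4

theorem disc_of {a b : ℤ} (h : CMt a b) : Disc (a : ℚ) (b : ℚ) := by
  unfold Disc
  rcases h with ⟨hb, ha⟩ | ⟨ha, hb⟩
  · subst hb
    have h1 : (a : ℚ) ≠ 0 := by exact_mod_cast ha
    have h2 : (a : ℚ) ^ 3 ≠ 0 := pow_ne_zero _ h1
    push_cast
    intro h
    apply h2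
    linarith
  · subst ha
    have h1 : (b : ℚ) ≠ 0 := by exact_mod_cast hb
    have h2 : (b : ℚ) ^ 2 ≠ 0 := pow_ne_zero _ h1
    push_cast
    intro h
    apply h2
    linarith

theorem card_box_le {S : Type} [Fintype S] [DecidableEq S] (H : ℕ) (p q : (S → ℤ) → Prop)
    (h : ∀ c, p c → q c) :
    {c : S → ℤ | c ∈ Box S H ∧ p c}.ncard ≤
      Nat.card {c : S → ℤ // (∀ j, |c j| ≤ H) ∧ q c} := by
  have hfin : {c : S → ℤ | (∀ j, |c j| ≤ H) ∧ q c}.Finite := by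
    have : {c : S → ℤ | ∀ j, c j ∈ Set.Icc (-(H : ℤ)) (H : ℤ)}.Finite :=
      Set.Finite.pi' fun _ => Set.finite_Icc _ _
    apply Set.Finite.subset this
    rintro c ⟨hc, -⟩ j
    exact ⟨(abs_le.1 (hc j)).1, (abs_le.1 (hc j)).2⟩
  have h1 : {c : S → ℤ | c ∈ Box S H ∧ p c}.ncard ≤ {c : S → ℤ | (∀ j, |c j| ≤ H) ∧ q c}.ncard := by
    apply Set.ncard_le_ncard _ hfin
    rintro c ⟨hc, hp⟩
    refine ⟨fun j => ?_, h c hp⟩
    have := Fintype.mem_piFinset.1 hc j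
    rw [Finset.mem_Icc] at this
    exact abs_le.2 this
  exact h1

end W_TZ4

theorem t_TZ4 : TZ4 := by
  intro hABS hM1 hHO hPTS hHP hTZ0 hTZ1 hSV
  intro r a b hCM S _ _ f d hd hf M D hM hD h12 hNZ ε hε
  have hdisc : ∀ i, Disc (a i : ℚ) (b i : ℚ) := fun i => W_TZ4.disc_of (hCM i)
  have hfg : ∀ i, Module.Finite ℤ (Pt (a i : ℚ) (b i : ℚ)) := fun i =>
    Module.Finite.iff_addGroup_fg.2 (hM1 (a i) (b i) (hdisc i))
  have hFG : AddGroup.FG (∀ i, Pt (a i : ℚ) (b i : ℚ)) :=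
    Module.Finite.iff_addGroup_fg.1 inferInstance
  choose V u hVu using fun (i : Fin r) (P : Pt (a i : ℚ) (b i : ℚ)) => hTZ1 (a i) (b i) P
  have hS := hSV r a b hCM S f d hd hf M D hM hD h12 hNZ V u hVu
  obtain ⟨C, hC⟩ := hABS _ S 1 (Or.inl rfl) _ hS ε hε
  refine ⟨C, fun H hH => le_trans ?_ (hC H hH)⟩
  have h2 := W_TZ4.card_box_le (S := S) H (fun c => HasPt a b 2 f c)
    (fun c => ∃ P : ∀ i, Pt (a i : ℚ) (b i : ℚ),
      IsSquare (∑ j, c j * vz f (fun i => V i (P i)) j)) (by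
    intro c hc
    obtain ⟨P, w, hw⟩ := hHP hHO hPTS r a b hdisc 2 (by norm_num) S f d hd hf c hc
    refine ⟨P, ?_⟩
    rw [← Rat.isSquare_intCast_iff, (hTZ0 ℚ r S f (fun i => V i (P i))).2 c]
    choose k hk using hd
    have h3 : (fun (i : Fin r) (j : Fin 3) => ((V i (P i) j : ℤ) : ℚ)) =
        fun i j => u i (P i) * rep (P i) j := by
      funext i j
      exact (hVu i (P i)).2.1 j
    rw [h3, hHO ℚ r S f d hf c (fun i => rep (P i)) (fun i => u i (P i)), ← hw]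
    refine ⟨(∏ i, u i (P i) ^ k i) * w, ?_⟩
    have h4 : ∏ i, u i (P i) ^ d i = (∏ i, u i (P i) ^ k i) ^ 2 := by
      rw [← Finset.prod_pow]
      apply Finset.prod_congr rfl
      intro i _
      rw [hk i, ← pow_mul, mul_comm 2 (k i)]
    rw [h4]
    ring)
  exact_mod_cast h2

end Pool.Agent.H901R3.MS
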